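import Mathlib
import Pool.Graph.R_seed8.Y137.MV.Defs

/-!
# CM fields with a place of coprime degree: definitions
-/

set_option autoImplicit false

namespace Pool.Agent.H855.CM

open NumberField Module Pool.Agent.Y137.MV

section places

variable (r : ℕ) [Fact r.Prime]

/-- The embeddings `φ` and `ψ` of `F` into the algebraic closure of `ℚ_r` define the same place
of `F` over `r`. -/
def SamePlace {F : Type*} [Field F] (φ ψ : F →+* PadicAlgCl r) : Prop :=
  ∃ τ : PadicAlgCl r ≃ₐ[ℚ_[r]] PadicAlgCl r, ∀ x, ψ x = τ (φ x)

/-- The degree over `ℚ_r` of the completion of `F` at the place defined by `φ`: the number of the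
embeddings which define the same place. -/
noncomputable def placeDegree {F : Type*} [Field F] (φ : F →+* PadicAlgCl r) : ℕ :=
  Nat.card {ψ : F →+* PadicAlgCl r // SamePlace r φ ψ}

variable {K : Type*} [Field K] [NumberField K]

/-- The restriction of an embedding of `K` to the maximal real subfield `K⁺`. -/
noncomputable def real (φ : K →+* PadicAlgCl r) : maximalRealSubfield K →+* PadicAlgCl r :=
  φ.comp (algebraMap (maximalRealSubfield K) K)

/-- The place of `K⁺` defined by `φ` splits in the CM field `K`: the embedding and its complex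
conjugate define different places of `K`. -/
def IsSplit [IsCMField K] (φ : K →+* PadicAlgCl r) : Prop :=
  ¬ SamePlace r φ (φ.comp (IsCMField.complexConj K : K →+* K))

end places

/-- The number field `F` has no subfields besides `ℚ` and `F`. -/
def IsPrimitive (F : Type*) [Field F] [NumberField F] : Prop :=
  ∀ E : IntermediateField ℚ F, E = ⊥ ∨ E = ⊤

/-- The place of `K⁺` over `r` defined by `φ` has the degree `n`, where `2 ≤ n < g = [K⁺ : ℚ]`, and
`n` is prime to the degrees of all other places of `K⁺` over `r`; moreover `K⁺` has no proper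
subfields besides `ℚ`, or `n` is prime to `g` and larger than all proper divisors of `g`. -/
structure IsCoprimePlace {K : Type*} [Field K] [NumberField K] (r : ℕ) [Fact r.Prime] (g n : ℕ)
    (φ : K →+* PadicAlgCl r) : Prop where
  degree : placeDegree r (real r φ) = n
  two_le : 2 ≤ n
  lt : n < g
  other : ∀ ψ : K →+* PadicAlgCl r, ¬ SamePlace r (real r φ) (real r ψ) →
    n.Coprime (placeDegree r (real r ψ))
  primitive : IsPrimitive (maximalRealSubfield K) ∨ (n.Coprime g ∧ ∀ d, d ∣ g → d < g → d < n)

/-- The CM field `K` has the degree `2 g`, and for some prime number `r` there is a place of `K⁺` over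
`r` of a degree `n` as in `IsCoprimePlace`, and

* `g` is odd; or
* `g - 1` is a prime number; or
* `n ≤ g - 2`, and the place splits in `K`, as do all other places of `K⁺` over `r` if `n` is even; or
* `g / 2 < n ≤ g - 2`, and all prime factors of `n` are larger than `g - n`. -/
def HasCoprimePlace (K : Type*) [Field K] [NumberField K] [IsCMField K] (g : ℕ) : Prop :=
  finrank ℚ K = 2 * g ∧ ∃ (r : ℕ) (_ : Fact r.Prime) (n : ℕ) (φ : K →+* PadicAlgCl r),
    IsCoprimePlace r g n φ ∧
      (Odd g ∨ (g - 1).Prime ∨
        (n + 2 ≤ g ∧ IsSplit r φ ∧ (Odd n ∨ ∀ ψ : K →+* PadicAlgCl r,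
          ¬ SamePlace r (real r φ) (real r ψ) → IsSplit r ψ)) ∨
        (n + 2 ≤ g ∧ g < 2 * n ∧ ∀ l : ℕ, l.Prime → l ∣ n → g - n < l))

/-- The square of no element of `K` is a negative rational number (`K` does not contain an imaginary
quadratic field). -/
def NoImaginaryQuadratic (K : Type*) [Field K] : Prop :=
  ∀ (x : K) (m : ℕ), 0 < m → x ^ 2 ≠ -(m : K)

end Pool.Agent.H855.CM
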