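import Mathlib
import Pool.Graph.R_seed8.Y137.MV.Defs
import Pool.Graph.R_pool_sql_team_seeded_843ab51a.V1168.EV.Defs

/-!
# Weil numbers without slope relations: definitions
-/

set_option autoImplicit false

namespace Pool.Agent.H855.CM

open NumberField Module Pool.Agent.Y137.MV Pool.Agent.V1168.EV

/-- There are no linear relations with rational coefficients, besides the trivial ones, between the
slope vector of the Weil number `π` and its translates: if `n` is an odd function on the complex
embeddings of `K` with `∑ n φ * x (τ φ) = 0` for all automorphisms `τ` of `ℂ`, where `x` is the slope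
vector, then `n = 0`. (So the multiplicative relations between `q` and the conjugates of `π` are
consequences of the relations `π * conj π = q`.) -/
def NoSlopeRelation {p : ℕ} [Fact p.Prime] (ν : PadicAlgCl p ≃+* ℂ) (a : ℕ) {K : Type} [Field K]
    [NumberField K] (π : K) : Prop :=
  ∀ n : (K →+* ℂ) → ℚ, IsOdd n →
    (∀ τ : ℂ ≃+* ℂ, ∑ φ, (n φ : ℝ) * slopeVector ν a π ((τ : ℂ →+* ℂ).comp φ) = 0) → n = 0

/-- All nonzero spaces of odd functions on the complex embeddings of `K` which are stable under the
automorphisms of `ℂ` have at least the dimension `m`. -/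
def IsLowerBound (K : Type) [Field K] (m : ℕ) : Prop :=
  ∀ W : Submodule ℚ ((K →+* ℂ) → ℚ), (∀ n ∈ W, IsOdd n) →
    (∀ τ : ℂ ≃+* ℂ, ∀ n ∈ W, (fun φ => n ((τ : ℂ →+* ℂ).comp φ)) ∈ W) → W ≠ ⊥ →
    m ≤ finrank ℚ W

end Pool.Agent.H855.CM
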