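import Mathlib
import Pool.Graph.R_seed8.Y137.MV.Defs
import Pool.Graph.R_pool_sql_team_seeded_843ab51a.V1168.EV.Defs
import Pool.Graph.R_pool_sql_team_seeded_2aa45f1a.Q306.TP.PrimeDefs
import Pool.Agent.H855.CM.Defs
import Pool.Agent.H855.CM.RelDefs

/-!
# Good fields and good slopes: definitions
-/

set_option autoImplicit false

namespace Pool.Agent.H855.CM

open NumberField Module IntermediateField Pool.Agent.Y137.MV Pool.Agent.V1168.EV Pool.Agent.Q306.TP

/-- The CM field `K` is good: the odd functions on its complex embeddings are irreducible, or the degree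
is `2 g` with an odd prime number `g`, or some place of the maximal real subfield has coprime degree
(`HasCoprimePlace`). -/
def IsGoodField (K : Type) [Field K] [NumberField K] [IsCMField K] : Prop :=
  OddIrreducible K ∨ (∃ g : ℕ, g.Prime ∧ g ≠ 2 ∧ finrank ℚ K = 2 * g) ∨ ∃ g, HasCoprimePlace K g

/-- The slopes of the Weil number `π` (for `p ^ a`) in the CM field `K` are good: they are not all
`1 / 2`, and the odd functions on the embeddings of `K` are irreducible, or, for every imaginary
quadratic subfield `k` (generated by a square root `x` of a negative integer) and some embedding of `k`,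
the slope vector is not constant on the embeddings of `K` which extend it, and its sum over these
embeddings is not zero. -/
def HasGoodSlopes {p : ℕ} [Fact p.Prime] (ν : PadicAlgCl p ≃+* ℂ) (a : ℕ) {K : Type} [Field K]
    [NumberField K] (π : K) : Prop :=
  (∃ φ, slopeVector ν a π φ ≠ 0) ∧ (OddIrreducible K ∨
    ∀ (x : K) (n : ℕ), 0 < n → x ^ 2 = -(n : K) →
      (∃ φ ψ : K →+* ℂ, φ x = ψ x ∧ slopeVector ν a π φ ≠ slopeVector ν a π ψ) ∧
      ∃ φ₀ : K →+* ℂ, ∑ᶠ φ ∈ {φ : K →+* ℂ | φ x = φ₀ x}, slopeVector ν a π φ ≠ 0)

/-- The fields `K` and `E` are different: the normal closures are different and there is no imaginary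
quadratic field contained in both fields. -/
def AreDifferent (K E : Type) [Field K] [NumberField K] [Field E] [NumberField E] : Prop :=
  normalClosure ℚ K ℂ ≠ normalClosure ℚ E ℂ ∧ ¬ CommonImaginary K E

end Pool.Agent.H855.CM
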