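import Mathlib
import Pool.Agent.H855.CM.TriDefs

/-!
# Families of Weil numbers without slope relations: definitions
-/

set_option autoImplicit false

namespace Pool.Agent.H855.CM

open NumberField Module Pool.Agent.Y137.MV Pool.Agent.V1168.EV

/-- There are no linear relations with rational coefficients, besides the trivial ones, between the
slope vectors of the Weil numbers `π i` and their translates: if `n` is an odd function with finite
support on the complex embeddings of all the fields `K i`, and `∑ n (i, φ) * x i (τ φ) = 0` for all
automorphisms `τ` of `ℂ`, where `x i` are the slope vectors, then `n = 0`. (So the multiplicative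
relations between `q` and the conjugates of the `π i` are consequences of the relations
`π i * conj (π i) = q`, up to roots of unity: the angle rank is maximal.) -/
def NoSlopeRelations {p : ℕ} [Fact p.Prime] (ν : PadicAlgCl p ≃+* ℂ) (a : ℕ) {I : Type}
    {K : I → Type} [∀ i, Field (K i)] (π : ∀ i, K i) : Prop :=
  ∀ n : (Σ i, (K i →+* ℂ)) →₀ ℚ, (∀ i φ, n ⟨i, ComplexEmbedding.conjugate φ⟩ = -n ⟨i, φ⟩) →
    (∀ τ : ℂ ≃+* ℂ, n.sum (fun y c =>
      (c : ℝ) * slopeVector ν a (π y.1) ((τ : ℂ →+* ℂ).comp y.2)) = 0) → n = 0

/-- The family of the Weil numbers `π i` is independent: there are no slope relations; or, in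
particular, there are none for the single `π i`, and there are no nonzero equivariant maps between the
odd functions on the embeddings of the fields `K i` and `K k`, for `i ≠ k`. For the first condition
it is sufficient that the field is good and that it has good slopes, for the second one that the
fields are good and different. -/
def IsIndependent {p : ℕ} [Fact p.Prime] (ν : PadicAlgCl p ≃+* ℂ) (a : ℕ) {I : Type}
    {K : I → Type} [∀ i, Field (K i)] [∀ i, NumberField (K i)] [∀ i, IsCMField (K i)]
    (π : ∀ i, K i) : Prop :=
  NoSlopeRelations ν a π ∨
    ((∀ i, NoSlopeRelation ν a (π i) ∨ (IsGoodField (K i) ∧ HasGoodSlopes ν a (π i))) ∧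
      ∀ i k, i ≠ k → Unrelated (K i) (K k) ∨
        (IsGoodField (K i) ∧ IsGoodField (K k) ∧ AreDifferent (K i) (K k)))

/-- The number `w` is twice a lower bound for the dimensions of the nonzero stable spaces of odd
functions on the complex embeddings of `K`: for instance `w = 2`, or `w = [K : ℚ]` if the odd functions
are irreducible, in particular if `K` is good and does not contain an imaginary quadratic field. -/
def IsWeight (K : Type) [Field K] [NumberField K] [IsCMField K] (w : ℕ) : Prop :=
  w = 2 ∨ (∃ m, IsLowerBound K m ∧ w = 2 * m) ∨
    ((OddIrreducible K ∨ (IsGoodField K ∧ NoImaginaryQuadratic K)) ∧ w = finrank ℚ K)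

end Pool.Agent.H855.CM
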