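import Mathlib
import Pool.Agent.H855.CM.LineDefs
import Pool.Graph.R_pool_sql_team_seeded_843ab51a.V1168.AB.Defs

/-!
# Exceptional slope vectors for one Frobenius element of an abelian variety: definitions
-/

set_option autoImplicit false

namespace Pool.Agent.H855.CM

open NumberField Module IntermediateField Pool.Agent.V1168.EV Pool.Agent.V1168.AB

/-- For all `a > 0` and all finite independent families of Weil numbers `π j` for `p ^ a`, each generating
one of the fields `K i`, such that no vector in `E` is a combination of the slope vectors of the `π j`: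
the Tate classes on the products `A ^ r × B ^ n` of abelian varieties, where `A` has one Frobenius
element with the characteristic polynomial `∏ j, minpoly (π j)` and the Frobenius eigenvalues of `B`
come from `Ω`, are generated by divisor classes on `A ^ r` and Tate classes on `B ^ n`
(`AbelianClassesSplit`). An element `⟨i, v⟩` of `E` stands for the vector `v`, a function on the complex
embeddings of `K i`. -/
def AbelianOutside {p : ℕ} [Fact p.Prime] (ν : PadicAlgCl p ≃+* ℂ) {I : Type}
    (K : I → Type) [∀ i, Field (K i)] [∀ i, NumberField (K i)] [∀ i, IsCMField (K i)]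
    (Ω : Finset ℂ) (E : Finset (Σ i, ((K i →+* ℂ) → ℝ))) : Prop :=
  ∀ (J : Type) [Fintype J] (b : J → I) (a : ℕ) (π : ∀ j, K (b j)), 0 < a →
    (∀ j, ℚ⟮π j⟯ = ⊤) →
    (∀ j, π j * IsCMField.complexConj (K (b j)) (π j) = (p : K (b j)) ^ a) →
    IsIndependent ν a π → (∀ e ∈ E, ¬ IsCombination ν a π e.2) →
    AbelianClassesSplit (From p Ω) p a (fun j => K (b j)) π

end Pool.Agent.H855.CM
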