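import Mathlib
import Pool.Graph.R_seed8.H371R3.Tate.Three
import Pool.Agent.H855.PairOrb
import Pool.Agent.H855.Triple
import Pool.Agent.H855.PlaceSign

/-!
# Groups acting on a set with an involution, and a subgroup with an orbit of coprime length
-/

set_option autoImplicit false
set_option linter.unusedSectionVars false

namespace Pool.Agent.H855.CM

open MulAction Pool.Agent.H925R2 Pool.Agent.H371R3.Tate Pool.Agent.H855

section

variable {R : Type*} [Fintype R] [DecidableEq R] {inv : R → R}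
variable {G : Type*} [Group G] [Fintype G] [MulAction G R]

open Classical in
/-- **Triple transitivity on the pairs.** -/
theorem triples_of_orbit [IsPretransitive G R]
    (hinv : ∀ x, inv (inv x) = x) (hne : ∀ x, inv x ≠ x)
    (hG : ∀ (g : G) (x : R), g • inv x = inv (g • x))
    (g n : ℕ) (hcard : Fintype.card R = 2 * g) (D : Subgroup G)
    (S : Finset R) (hS : ∀ x ∈ S, inv x ∈ S) (hSn : S.card = 2 * n)
    (hDS : ∀ d ∈ D, ∀ x ∈ S, d • x ∈ S)
    (tS : ∀ x ∈ S, ∀ y ∈ S, ∃ d ∈ D, d • x = y ∨ d • x = inv y)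
    (hlt : n + 2 ≤ g) (hlarge : g < 2 * n) (hprime : ∀ l : ℕ, l.Prime → l ∣ n → g - n < l)
    (x y z x' y' z' : R) (h1 : Ineq inv x y) (h2 : Ineq inv y z) (h3 : Ineq inv x z)
    (h1' : Ineq inv x' y') (h2' : Ineq inv y' z') (h3' : Ineq inv x' z') :
    ∃ g : G, (g • x = x' ∨ g • x = inv x') ∧ (g • y = y' ∨ g • y = inv y') ∧
      (g • z = z' ∨ g • z = inv z') := by
  let act : MulAction G (Quotient (pairSetoid hinv)) := pairAction hinv hG
  have hsm : ∀ (g : G) (x : R), g • (Quotient.mk (pairSetoid hinv) x) =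
      Quotient.mk (pairSetoid hinv) (g • x) := fun g x => rfl
  have hpre : IsPretransitive G (Quotient (pairSetoid hinv)) := by
    refine ⟨fun a b => ?_⟩
    obtain ⟨x, rfl⟩ := Quotient.exists_rep a
    obtain ⟨y, rfl⟩ := Quotient.exists_rep b
    obtain ⟨g, hg⟩ := MulAction.exists_smul_eq G x y
    exact ⟨g, by rw [hsm, hg]⟩
  set O : Finset (Quotient (pairSetoid hinv)) := S.image (Quotient.mk (pairSetoid hinv)) with hO
  have hOcard : O.card = n := by
    have := card_image_mk_two hinv hne S hS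
    rw [← hO] at this
    omega
  have hcardB : Fintype.card (Quotient (pairSetoid hinv)) = g := by
    have h5 := card_pairs hinv hne
    rw [← Nat.card_eq_fintype_card]
    omega
  have hmk : ∀ u v : R, Ineq inv u v →
      Quotient.mk (pairSetoid hinv) u ≠ Quotient.mk (pairSetoid hinv) v := by
    intro u v huv h
    rcases (Quotient.exact h : u = v ∨ u = inv v) with h' | h'
    · exact huv.1 h'.symm
    · exact huv.2 (by rw [h', hinv])
  have hcop : ∀ m, 0 < m → m ≤ g - n → n.Coprime m := by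
    intro m hm hmg
    rw [Nat.coprime_iff_gcd_eq_one]
    by_contra hcon
    obtain ⟨l, hl, hl'⟩ := Nat.exists_prime_and_dvd hcon
    have h5 := hprime l hl (hl'.trans (Nat.gcd_dvd_left _ _))
    have h6 := Nat.le_of_dvd hm (hl'.trans (Nat.gcd_dvd_right _ _))
    omega
  obtain ⟨g, hg1, hg2, hg3⟩ := three_transitive_of_large (G := G) O
    (by rw [hOcard, hcardB]; exact hcop _ (by omega) le_rfl)
    (by rw [hOcard, hcardB]; exact hcop _ (by omega) (by omega)) (by
      intro a a' ha ha'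
      obtain ⟨d, _, hd1, hd2⟩ := pointwise_transitive D O (by
          intro u hu v hv
          obtain ⟨x, hx, rfl⟩ := Finset.mem_image.1 hu
          obtain ⟨y, hy, rfl⟩ := Finset.mem_image.1 hv
          obtain ⟨d, hd, hd'⟩ := tS x hx y hy
          exact ⟨d, hd, by rw [hsm]; exact Quotient.sound hd'⟩) (by
          intro d hd u hu
          obtain ⟨x, hx, rfl⟩ := Finset.mem_image.1 hu
          rw [hsm]
          exact Finset.mem_image_of_mem _ (hDS d hd x hx)) (by
          rw [hOcard, hcardB]; exact hprime) a a' ha ha'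
      exact ⟨d, hd1, hd2⟩)
    (by rw [hOcard, hcardB]; exact hlt)
    (by rw [hOcard, hcardB]; exact hlarge)
    _ _ _ _ _ _ (hmk _ _ h1) (hmk _ _ h2) (hmk _ _ h3) (hmk _ _ h1') (hmk _ _ h2') (hmk _ _ h3')
  exact ⟨g, Quotient.exact hg1, Quotient.exact hg2, Quotient.exact hg3⟩

open Classical in
/-- The pairs in the orbit of `x` under `D`. -/
noncomputable def porb (inv : R → R) (D : Subgroup G) (x : R) : Finset R :=
  Finset.univ.filter fun y => ∃ d ∈ D, d • x = y ∨ d • x = inv y

open Classical in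
/-- The orbit of `x` under `D`. -/
noncomputable def dorb (D : Subgroup G) (x : R) : Finset R :=
  Finset.univ.filter fun y => ∃ d ∈ D, d • x = y

variable {D : Subgroup G}

theorem mem_porb {x y : R} : y ∈ porb inv D x ↔ ∃ d ∈ D, d • x = y ∨ d • x = inv y := by
  classical
  simp [porb]

theorem mem_dorb {x y : R} : y ∈ dorb D x ↔ ∃ d ∈ D, d • x = y := by
  classical
  simp [dorb]

section basic

variable (hinv : ∀ x, inv (inv x) = x) (hne : ∀ x, inv x ≠ x)
  (hG : ∀ (g : G) (x : R), g • inv x = inv (g • x))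

include hinv in
theorem porb_inv (x y : R) (h : y ∈ porb inv D x) : inv y ∈ porb inv D x := by
  obtain ⟨d, hd, h | h⟩ := mem_porb.1 h
  · exact mem_porb.2 ⟨d, hd, Or.inr (by rw [hinv]; exact h)⟩
  · exact mem_porb.2 ⟨d, hd, Or.inl h⟩

include hG in
theorem porb_smul (x y : R) (d : G) (hd : d ∈ D) (h : y ∈ porb inv D x) :
    d • y ∈ porb inv D x := by
  obtain ⟨e, he, h | h⟩ := mem_porb.1 h
  · exact mem_porb.2 ⟨d * e, D.mul_mem hd he, Or.inl (by rw [mul_smul, h])⟩
  · exact mem_porb.2 ⟨d * e, D.mul_mem hd he, Or.inr (by rw [mul_smul, h, hG])⟩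

include hinv hG in
theorem porb_trans (x y z : R) (hy : y ∈ porb inv D x) (hz : z ∈ porb inv D x) :
    ∃ d ∈ D, d • y = z ∨ d • y = inv z := by
  obtain ⟨e, he, h⟩ := mem_porb.1 hy
  obtain ⟨f, hf, h'⟩ := mem_porb.1 hz
  refine ⟨f * e⁻¹, D.mul_mem hf (D.inv_mem he), ?_⟩
  rw [mul_smul]
  rcases h with h | h <;> rcases h' with h' | h'
  · left; rw [← h, inv_smul_smul, h']
  · right; rw [← h, inv_smul_smul, h']
  · right
    have h1 : y = inv (e • x) := by rw [h, hinv]
    rw [h1, ← hG, inv_smul_smul, hG, h']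
  · left
    have h1 : y = inv (e • x) := by rw [h, hinv]
    rw [h1, ← hG, inv_smul_smul, hG, h', hinv]

theorem self_mem_porb (x : R) : x ∈ porb inv D x :=
  mem_porb.2 ⟨1, D.one_mem, Or.inl (one_smul _ _)⟩

theorem self_mem_dorb (x : R) : x ∈ dorb D x := mem_dorb.2 ⟨1, D.one_mem, one_smul _ _⟩

theorem dorb_smul (x y : R) (d : G) (hd : d ∈ D) (h : y ∈ dorb D x) : d • y ∈ dorb D x := by
  obtain ⟨e, he, h⟩ := mem_dorb.1 h
  exact mem_dorb.2 ⟨d * e, D.mul_mem hd he, by rw [mul_smul, h]⟩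

theorem dorb_trans (x y z : R) (hy : y ∈ dorb D x) (hz : z ∈ dorb D x) :
    ∃ d ∈ D, d • y = z := by
  obtain ⟨e, he, h⟩ := mem_dorb.1 hy
  obtain ⟨f, hf, h'⟩ := mem_dorb.1 hz
  refine ⟨f * e⁻¹, D.mul_mem hf (D.inv_mem he), ?_⟩
  rw [mul_smul, ← h, inv_smul_smul, h']

include hG in
theorem notMem_dorb (x : R) (hx : inv x ∉ dorb D x) (y : R) (hy : y ∈ dorb D x) :
    inv y ∉ dorb D x := by
  intro hy'
  obtain ⟨d, hd, h⟩ := mem_dorb.1 hy
  apply hx
  have h1 : inv x = d⁻¹ • inv y := by rw [← h, ← hG, inv_smul_smul]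
  rw [h1]
  exact dorb_smul x _ _ (D.inv_mem hd) hy'

include hinv hG in
theorem card_dorb (x : R) (hx : inv x ∉ dorb D x) :
    2 * (dorb D x).card = (porb inv D x).card := by
  classical
  have h1 : porb inv D x = dorb D x ∪ (dorb D x).image inv := by
    ext y
    rw [Finset.mem_union, mem_porb, mem_dorb, Finset.mem_image]
    constructor
    · rintro ⟨d, hd, h | h⟩
      · exact Or.inl ⟨d, hd, h⟩
      · exact Or.inr ⟨d • x, mem_dorb.2 ⟨d, hd, rfl⟩, by rw [h, hinv]⟩
    · rintro (⟨d, hd, h⟩ | ⟨z, hz, rfl⟩)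
      · exact ⟨d, hd, Or.inl h⟩
      · obtain ⟨d, hd, h⟩ := mem_dorb.1 hz
        exact ⟨d, hd, Or.inr (by rw [hinv]; exact h)⟩
  have hinj : Function.Injective inv := fun a b h => by rw [← hinv a, h, hinv]
  rw [h1, Finset.card_union_of_disjoint, Finset.card_image_of_injective _ hinj]
  · ring
  · rw [Finset.disjoint_left]
    intro y hy hy'
    obtain ⟨z, hz, rfl⟩ := Finset.mem_image.1 hy'
    exact notMem_dorb hG x hx z hz hy

end basic

/-- The hypotheses on the orbit: the number `n` of its pairs is coprime to the numbers for the other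
orbits, and either the group is primitive on the pairs or `n` is coprime to `g` and larger than all
proper divisors of `g`. -/
structure GoodOrbit (inv : R → R) (D : Subgroup G) (g n : ℕ) (x₁ : R) : Prop where
  deg : (porb inv D x₁).card = 2 * n
  two_le : 2 ≤ n
  lt : n < g
  other : ∀ b, b ∉ porb inv D x₁ → ∃ m, (porb inv D b).card = 2 * m ∧ n.Coprime m
  prim : PairPrimitive G inv ∨ (n.Coprime g ∧ ∀ d, d ∣ g → d < g → d < n)

variable {g n : ℕ} {x₁ : R}

/-- Double transitivity. -/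
theorem pairs_of_good [IsPretransitive G R]
    (hinv : ∀ x, inv (inv x) = x) (hne : ∀ x, inv x ≠ x)
    (hG : ∀ (g : G) (x : R), g • inv x = inv (g • x)) (hcard : Fintype.card R = 2 * g)
    (h : GoodOrbit inv D g n x₁)
    (x y x' y' : R) (h1 : y ≠ x) (h1' : y ≠ inv x) (h3 : y' ≠ x') (h4 : y' ≠ inv x') :
    ∃ g : G, (g • x = x' ∨ g • x = inv x') ∧ (g • y = y' ∨ g • y = inv y') := by
  refine pairs_of_orbit (G := G) hinv hne hG g n hcard (porb inv D x₁)
    (fun x hx => porb_inv hinv x₁ x hx) h.deg h.two_le h.lt h.prim.symm ?_ x y x' y' h1 h1' h3 h4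
  intro b hb y hy y' hy'
  obtain ⟨m, hm, hcop⟩ := h.other b hb
  obtain ⟨d, _, hd⟩ := pair_trans_coprime hinv hne hG D (porb inv D x₁) (porb inv D b)
    (fun x hx => porb_inv hinv x₁ x hx) (fun x hx => porb_inv hinv b x hx)
    (fun d hd x hx => porb_smul hG x₁ x d hd hx) (fun d hd x hx => porb_smul hG b x d hd hx)
    (fun x hx y hy => porb_trans hinv hG x₁ x y hx hy)
    (fun x hx y hy => porb_trans hinv hG b x y hx hy) n m h.deg hm hcop y hy y' hy' b
    (self_mem_porb b)
  exact ⟨d, hd⟩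

/-- The stabilisers of the points outside are transitive on the orbit. -/
theorem stab_of_good (hinv : ∀ x, inv (inv x) = x) (hne : ∀ x, inv x ≠ x)
    (hG : ∀ (g : G) (x : R), g • inv x = inv (g • x)) (h : GoodOrbit inv D g n x₁)
    (hsplit : inv x₁ ∉ dorb D x₁)
    (hodd : Odd n ∨ ∀ b, b ∉ porb inv D x₁ → inv b ∉ dorb D b)
    (b : R) (hb : b ∉ dorb D x₁) (hb' : inv b ∉ dorb D x₁)
    (y : R) (hy : y ∈ dorb D x₁) (y' : R) (hy' : y' ∈ dorb D x₁) :
    ∃ d : G, d • y = y' ∧ d • b = b := by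
  have hcardn : (dorb D x₁).card = n := by
    have := card_dorb hinv hG x₁ hsplit
    rw [h.deg] at this
    omega
  have hbp : b ∉ porb inv D x₁ := by
    intro hcon
    obtain ⟨d, hd, h1 | h1⟩ := mem_porb.1 hcon
    · exact hb (mem_dorb.2 ⟨d, hd, h1⟩)
    · exact hb' (mem_dorb.2 ⟨d, hd, h1⟩)
  have hdp : ∀ z ∈ dorb D x₁, z ∈ porb inv D x₁ := by
    intro z hz
    obtain ⟨d, hd, h1⟩ := mem_dorb.1 hz
    exact mem_porb.2 ⟨d, hd, Or.inl h1⟩
  obtain ⟨m, hm, hcop⟩ := h.other b hbp
  rcases hodd with hodd | hsp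
  · obtain ⟨d, _, h1, h2⟩ := stab_trans_of_odd (G := G) hG D (dorb D x₁)
      (fun d hd x hx => dorb_smul x₁ x d hd hx) (by rw [hcardn]; exact hodd) b hinv (by
      intro y hy y' hy'
      obtain ⟨d, hd, hd1, hd2⟩ := pair_trans_coprime hinv hne hG D (porb inv D x₁) (porb inv D b)
        (fun x hx => porb_inv hinv x₁ x hx) (fun x hx => porb_inv hinv b x hx)
        (fun d hd x hx => porb_smul hG x₁ x d hd hx) (fun d hd x hx => porb_smul hG b x d hd hx)
        (fun x hx y hy => porb_trans hinv hG x₁ x y hx hy)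
        (fun x hx y hy => porb_trans hinv hG b x y hx hy) n m h.deg hm hcop y (hdp y hy) y'
        (hdp y' hy') b (self_mem_porb b)
      refine ⟨d, hd, ?_, hd2⟩
      rcases hd1 with hd1 | hd1
      · exact hd1
      · exact absurd (hd1 ▸ dorb_smul x₁ y d hd hy)
          (notMem_dorb hG x₁ hsplit y' hy')) y hy y' hy'
    exact ⟨d, h1, h2⟩
  · have horb : ∀ u : R, orbit D u = (dorb D u : Set R) := by
      intro u
      ext z
      constructor
      · rintro ⟨d, rfl⟩
        exact Finset.mem_coe.2 (dorb_smul u u d.1 d.2 (self_mem_dorb u))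
      · intro hz
        obtain ⟨d, hd, h1⟩ := mem_dorb.1 (Finset.mem_coe.1 hz)
        exact ⟨⟨d, hd⟩, h1⟩
    have hyx : dorb D y = dorb D x₁ := by
      ext z
      constructor
      · intro hz
        obtain ⟨d, hd, h1⟩ := mem_dorb.1 hz
        rw [← h1]
        exact dorb_smul x₁ y d hd hy
      · intro hz
        obtain ⟨d, hd, h1⟩ := dorb_trans x₁ y z hy hz
        exact mem_dorb.2 ⟨d, hd, h1⟩
    have hbc : (dorb D b).card = m := by
      have := card_dorb hinv hG b (hsp b hbp)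
      rw [hm] at this
      omega
    obtain ⟨d, hd, hd'⟩ := trans_of_coprime_index (G := D) (stabilizer D b) y (by
      rw [index_stabilizer, horb y, horb b, Set.ncard_coe_finset, Set.ncard_coe_finset, hyx,
        hcardn, hbc]
      exact hcop) y' (by rw [horb y, hyx]; exact Finset.mem_coe.2 hy')
    exact ⟨d.1, hd', hd⟩

/-- **The dichotomy.** -/
theorem signType_of_good [IsPretransitive G R]
    (hinv : ∀ x, inv (inv x) = x) (hne : ∀ x, inv x ≠ x)
    (hG : ∀ (g : G) (x : R), g • inv x = inv (g • x)) (hcard : Fintype.card R = 2 * g)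
    (h : GoodOrbit inv D g n x₁)
    (hor : Odd g ∨ (g - 1).Prime ∨
      (n + 2 ≤ g ∧ inv x₁ ∉ dorb D x₁ ∧ (Odd n ∨ ∀ b, b ∉ porb inv D x₁ → inv b ∉ dorb D b)) ∨
      (n + 2 ≤ g ∧ g < 2 * n ∧ ∀ l : ℕ, l.Prime → l ∣ n → g - n < l))
    (c w : R → ℤ) (hc : ∀ x, c (inv x) = -c x) (hw : ∀ x, w (inv x) = -w x)
    (hc0 : ∃ x, c x ≠ 0) (hw0 : ∃ x, w x ≠ 0)
    (hrel : ∀ g : G, ∑ x, c x * w (g • x) = 0) : SignType G c ∨ SignType G w := by
  have hpairs := pairs_of_good hinv hne hG hcard h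
  have hn2 := h.two_le
  have hng := h.lt
  rcases hor with hor | hor | ⟨hm, hsplit, hodd⟩ | ⟨hm, hlarge, hprime⟩
  · exact signType_of_rel hinv hne hG hpairs g hcard (Or.inl hor) c w hc hw hc0 hw0 hrel
  · exact signType_of_rel hinv hne hG hpairs g hcard (Or.inr (Or.inr hor)) c w hc hw hc0 hw0 hrel
  · have hcardn : (dorb D x₁).card = n := by
      have := card_dorb hinv hG x₁ hsplit
      rw [h.deg] at this
      omega
    exact signType_of_uniform hinv hne hG hpairs g hcard (dorb D x₁)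
      (fun x hx => notMem_dorb hG x₁ hsplit x hx) (by rw [hcardn]; exact hn2)
      (by rw [hcardn]; exact hm)
      (fun b hb hb' y hy y' hy' => stab_of_good hinv hne hG h hsplit hodd b hb hb' y hy y' hy')
      c w hc hw hc0 hw0 hrel
  · exact signType_of_triple hinv hne hG hpairs
      (triples_of_orbit hinv hne hG g n hcard D (porb inv D x₁)
        (fun x hx => porb_inv hinv x₁ x hx) h.deg (fun d hd x hx => porb_smul hG x₁ x d hd hx)
        (fun x hx y hy => porb_trans hinv hG x₁ x y hx hy) hm hlarge hprime)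
      g hcard (by omega) c w hc hw hc0 hw0 hrel

end

end Pool.Agent.H855.CM
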