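import Mathlib
import Pool.Agent.H855.CM.Abs

/-!
# Stable spaces of odd functions for doubly transitive groups with the dichotomy
-/

set_option autoImplicit false
set_option linter.unusedSectionVars false

namespace Pool.Agent.H855.CM

open MulAction Pool.Agent.H925R2

variable {X : Type*} [Fintype X]

/-- Clearing denominators. -/
theorem exists_int_scale (f : X → ℚ) : ∃ (N : ℕ) (F : X → ℤ), 0 < N ∧ ∀ x, (F x : ℚ) = N * f x := by
  classical
  set N : ℕ := ∏ x, (f x).den with hN
  refine ⟨N, fun x => (f x * N).num, Finset.prod_pos fun x _ => (f x).den_pos, fun x => ?_⟩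
  obtain ⟨t, ht⟩ : (f x).den ∣ N := Finset.dvd_prod_of_mem (fun x => (f x).den) (Finset.mem_univ x)
  have h1 : f x * N = (((f x).num * t : ℤ) : ℚ) := by
    rw [ht]
    push_cast
    rw [← mul_assoc, Rat.mul_den_eq_num]
  beta_reduce
  rw [h1, Rat.num_intCast, ← h1, mul_comm]

variable [DecidableEq X] {bar : X → X}
variable {G : Type*} [Group G] [Fintype G] [MulAction G X]

/-- The odd delta function. -/
def dl (bar : X → X) (x : X) : X → ℚ := fun z => (if z = x then 1 else 0) - (if z = bar x then 1 else 0)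

theorem dl_bar (hbb : ∀ x, bar (bar x) = x) (x : X) : dl bar (bar x) = - dl bar x := by
  funext z
  simp only [dl, Pi.neg_apply, hbb]
  ring

/-- A nonzero odd integral function of sign type is a multiple of a function with the values `± 1`. -/
theorem unit_of_signType [IsPretransitive G X] (C : X → ℤ) (hC : ∀ x, C (bar x) = - C x)
    (hC0 : ∃ x, C x ≠ 0) (hs : SignType G C) :
    ∃ (u : X → ℚ) (k : ℚ), k ≠ 0 ∧ (∀ x, (C x : ℚ) = k * u x) ∧ (∀ x, u (bar x) = -u x) ∧
      (∀ x, u x = 1 ∨ u x = -1) ∧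
      (∀ σ : G, (∀ x, u (σ • x) = u x) ∨ ∀ x, u (σ • x) = -u x) := by
  obtain ⟨x₀, hx₀⟩ := hC0
  have hk : (C x₀ : ℚ) ≠ 0 := by exact_mod_cast hx₀
  refine ⟨fun x => C x / C x₀, C x₀, hk, fun x => by field_simp, fun x => ?_, fun x => ?_,
    fun σ => ?_⟩
  · beta_reduce
    rw [hC]; push_cast; ring
  · obtain ⟨σ, rfl⟩ := MulAction.exists_smul_eq G x₀ x
    rcases hs σ with h | h
    · left; beta_reduce; rw [h, div_self hk]
    · right; beta_reduce; rw [h]; push_cast; rw [neg_div, div_self hk]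
  · rcases hs σ with h | h
    · left; intro x; beta_reduce; rw [h]
    · right; intro x; beta_reduce; rw [h]; push_cast; ring

/-- A function which is orthogonal to a proper stable space. -/
theorem exists_orth (hbb : ∀ x, bar (bar x) = x) (W : Submodule ℚ (X → ℚ))
    (hW1 : ∀ n ∈ W, ∀ x, n (bar x) = -n x) (f₀ : X → ℚ) (hf₀ : ∀ x, f₀ (bar x) = - f₀ x)
    (h : f₀ ∉ W) : ∃ m : X → ℚ, (∀ x, m (bar x) = -m x) ∧ (∃ x, m x ≠ 0) ∧
      ∀ f ∈ W, ∑ x, m x * f x = 0 := by
  obtain ⟨φ, hφ, hφW⟩ := Submodule.exists_le_ker_of_notMem h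
  let a : X → ℚ := fun x => φ (fun z => if z = x then 1 else 0)
  have hφa : ∀ f : X → ℚ, φ f = ∑ x, f x * a x := by
    intro f
    have h1 : f = ∑ x, f x • (fun z => if z = x then (1 : ℚ) else 0) := by
      funext z
      rw [Finset.sum_apply]
      simp
    conv_lhs => rw [h1]
    rw [map_sum]
    exact Finset.sum_congr rfl fun x _ => by rw [map_smul, smul_eq_mul]
  have hodd : ∀ f : X → ℚ, (∀ x, f (bar x) = - f x) →
      ∑ x, (a x - a (bar x)) * f x = 2 * φ f := by
    intro f hf
    have h1 : ∑ x, a (bar x) * f x = ∑ x, a x * f (bar x) := by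
      refine Finset.sum_nbij' bar bar (fun _ _ => Finset.mem_univ _) (fun _ _ => Finset.mem_univ _)
        (fun x _ => hbb x) (fun x _ => hbb x) (fun x _ => by rw [hbb])
    simp only [sub_mul, Finset.sum_sub_distrib]
    rw [h1, hφa]
    simp only [hf, mul_neg, Finset.sum_neg_distrib]
    rw [sub_neg_eq_add, ← two_mul]
    congr 1
    exact Finset.sum_congr rfl fun x _ => mul_comm _ _
  refine ⟨fun x => a x - a (bar x), fun x => ?_, ?_, fun f hf => ?_⟩
  · beta_reduce
    rw [hbb]; ring
  · by_contra hcon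
    push Not at hcon
    have h1 := hodd f₀ hf₀
    simp only [hcon, zero_mul, Finset.sum_const_zero] at h1
    apply hφ
    linarith
  · have h1 := hφW hf
    rw [LinearMap.mem_ker] at h1
    rw [hodd f (hW1 f hf), h1, mul_zero]

/-- The differences of the odd delta functions are in each stable space which contains a function
that is not a multiple of `u`. -/
theorem diff_mem [IsPretransitive G X] (hbb : ∀ x, bar (bar x) = x) (hne : ∀ x, bar x ≠ x)
    (hbσ : ∀ (σ : G) x, bar (σ • x) = σ • bar x)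
    (h2 : ∀ x y x' y' : X, y ≠ x → y ≠ bar x → y' ≠ x' → y' ≠ bar x' →
      ∃ g : G, (g • x = x' ∨ g • x = bar x') ∧ (g • y = y' ∨ g • y = bar y'))
    (u : X → ℚ) (hu : ∀ x, u (bar x) = -u x) (hu1 : ∀ x, u x = 1 ∨ u x = -1)
    (hus : ∀ σ : G, (∀ x, u (σ • x) = u x) ∨ ∀ x, u (σ • x) = -u x)
    (W : Submodule ℚ (X → ℚ)) (hW1 : ∀ n ∈ W, ∀ x, n (bar x) = -n x)
    (hW2 : ∀ σ : G, ∀ n ∈ W, (fun x => n (σ • x)) ∈ W) (f : X → ℚ) (hf : f ∈ W)
    (hfu : ¬ ∃ c : ℚ, f = c • u) (x y : X) : dl bar x - (u x * u y) • dl bar y ∈ W := by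
  have huu : ∀ x, u x * u x = 1 := fun x => by rcases hu1 x with h | h <;> rw [h] <;> norm_num
  have hfo := hW1 f hf
  let B : X → X → ℚ := fun x z => ∑ σ : G, f (σ • x) * f (σ • z)
  have hBg : ∀ (τ : G) x z, B (τ • x) (τ • z) = B x z := by
    intro τ x z
    refine Fintype.sum_equiv (Equiv.mulRight τ) _ _ fun σ => ?_
    rw [Equiv.coe_mulRight, mul_smul, mul_smul]
  have hBl : ∀ x z, B (bar x) z = - B x z := by
    intro x z
    simp only [B, ← hbσ, hfo, neg_mul, Finset.sum_neg_distrib]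
  have hBr : ∀ x z, B x (bar z) = - B x z := by
    intro x z
    simp only [B, ← hbσ, hfo, mul_neg, Finset.sum_neg_distrib]
  have hBW : ∀ x, B x ∈ W := by
    intro x
    have h1 : B x = ∑ σ : G, f (σ • x) • (fun z => f (σ • z)) := by
      funext z
      rw [Finset.sum_apply]
      rfl
    rw [h1]
    exact Submodule.sum_mem _ fun σ _ => Submodule.smul_mem _ _ (hW2 σ f hf)
  -- the invariant form
  let C : X → X → ℚ := fun x z => u x * u z * B x z
  have hCg : ∀ (τ : G) x z, C (τ • x) (τ • z) = C x z := by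
    intro τ x z
    simp only [C, hBg]
    rcases hus τ with h | h
    · rw [h, h]
    · rw [h, h]; ring
  have hCl : ∀ x z, C (bar x) z = C x z := by
    intro x z
    simp only [C, hBl, hu]; ring
  have hCr : ∀ x z, C x (bar z) = C x z := by
    intro x z
    simp only [C, hBr, hu]; ring
  have hCc : ∀ x z x' z', z ≠ x → z ≠ bar x → z' ≠ x' → z' ≠ bar x' → C x z = C x' z' := by
    intro x z x' z' h3 h4 h5 h6
    obtain ⟨g, hg1, hg2⟩ := h2 x z x' z' h3 h4 h5 h6
    rw [← hCg g x z]
    rcases hg1 with hg1 | hg1 <;> rcases hg2 with hg2 | hg2 <;> rw [hg1, hg2]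
    · rw [hCr]
    · rw [hCl]
    · rw [hCl, hCr]
  have hCd : ∀ x x', C x x = C x' x' := by
    intro x x'
    obtain ⟨g, rfl⟩ := MulAction.exists_smul_eq G x x'
    rw [hCg]
  by_cases hxy : y = x ∨ y = bar x
  · have h1 : dl bar x - (u x * u y) • dl bar y = 0 := by
      rcases hxy with h | h
      · rw [h, huu, one_smul, sub_self]
      · rw [h, hu, dl_bar hbb, mul_neg, huu, smul_neg, neg_smul, one_smul, neg_neg, sub_self]
    rw [h1]
    exact W.zero_mem
  push Not at hxy
  set N := C x x with hN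
  set κ := C x y with hκ
  have hform : ∀ a, B a = (κ * u a) • u + (N - κ) • dl bar a := by
    intro a
    funext z
    have hBC : ∀ a z, B a z = u a * u z * C a z := by
      intro a z
      simp only [C]
      have h3 := huu a
      have h4 := huu z
      linear_combination (-(B a z) * (u z * u z)) * h3 - (B a z) * h4
    simp only [Pi.add_apply, Pi.smul_apply, smul_eq_mul, dl]
    by_cases h3 : z = a
    · subst h3
      rw [if_pos rfl, if_neg (hne z).symm, hBC, hCd z x, ← hN]
      linear_combination (N - κ) * huu z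
    · by_cases h4 : z = bar a
      · subst h4
        rw [if_neg (hne a), if_pos rfl, hBr, hBC, hCd a x, ← hN, hu]
        linear_combination (κ - N) * huu a
      · rw [if_neg h3, if_neg h4, hBC, hCc a z x y h3 h4 hxy.1 hxy.2, ← hκ]
        ring
  have hne0 : N - κ ≠ 0 := by
    intro h0
    apply hfu
    -- `f` is a multiple of `u`
    have h3 : ∀ a z, ∀ σ : G, f (σ • a) * u a = f (σ • z) * u z := by
      intro a z
      have h4 : ∑ σ : G, (f (σ • a) * u a - f (σ • z) * u z) ^ 2 =
          B a a + B z z - 2 * (u a * u z * B a z) := by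
        simp only [B]
        rw [Finset.mul_sum, Finset.mul_sum, ← Finset.sum_add_distrib, ← Finset.sum_sub_distrib]
        refine Finset.sum_congr rfl fun σ _ => ?_
        linear_combination (f (σ • a) * f (σ • a)) * huu a + (f (σ • z) * f (σ • z)) * huu z
      have h5 : ∀ a z, B a z = κ * u a * u z := by
        intro a z
        rw [hform a, h0, zero_smul, add_zero]
        rfl
      have h6 : ∑ σ : G, (f (σ • a) * u a - f (σ • z) * u z) ^ 2 = 0 := by
        rw [h4, h5, h5, h5]
        have h7 := huu a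
        have h8 := huu z
        linear_combination (κ - 2 * κ * (u z * u z)) * h7 + (κ - 2 * κ) * h8
      intro σ
      have h7 := (Finset.sum_eq_zero_iff_of_nonneg (fun σ _ => sq_nonneg _)).1 h6 σ
        (Finset.mem_univ σ)
      have h8 := pow_eq_zero_iff (two_ne_zero) |>.1 h7
      linarith
    refine ⟨f x * u x, ?_⟩
    funext z
    have h4 := h3 x z 1
    rw [one_smul, one_smul] at h4
    rw [Pi.smul_apply, smul_eq_mul, h4, mul_assoc, huu, mul_one]
  have h3 : (N - κ) • (dl bar x - (u x * u y) • dl bar y) = B x - (u x * u y) • B y := by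
    rw [hform x, hform y]
    funext z
    simp only [Pi.smul_apply, Pi.sub_apply, Pi.add_apply, smul_eq_mul]
    linear_combination (κ * u x * u z) * huu y
  have h4 : (N - κ) • (dl bar x - (u x * u y) • dl bar y) ∈ W := by
    rw [h3]
    exact W.sub_mem (hBW x) (W.smul_mem _ (hBW y))
  exact (W.smul_mem_iff hne0).1 h4

/-- All odd functions orthogonal to `u` are in the space spanned by the differences. -/
theorem orth_mem (hbb : ∀ x, bar (bar x) = x)
    (u : X → ℚ) (W : Submodule ℚ (X → ℚ))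
    (h : ∀ x y, dl bar x - (u x * u y) • dl bar y ∈ W) (f : X → ℚ) (hf : ∀ x, f (bar x) = -f x)
    (hfu : ∑ x, f x * u x = 0) : f ∈ W := by
  by_cases hX : Nonempty X
  swap
  · have h1 : f = 0 := by
      funext x
      exact absurd ⟨x⟩ hX
    rw [h1]
    exact W.zero_mem
  obtain ⟨x₀⟩ := hX
  have h1 : ∑ x, f x • (dl bar x - (u x * u x₀) • dl bar x₀) = (2 : ℚ) • f := by
    funext z
    rw [Finset.sum_apply]
    simp only [Pi.smul_apply, Pi.sub_apply, smul_eq_mul]
    have h2 : ∀ x, f x * (dl bar x z - u x * u x₀ * dl bar x₀ z) =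
        f x * dl bar x z - (u x₀ * dl bar x₀ z) * (f x * u x) := fun x => by ring
    rw [Finset.sum_congr rfl fun x _ => h2 x, Finset.sum_sub_distrib, ← Finset.mul_sum, hfu,
      mul_zero, sub_zero]
    simp only [dl, mul_sub, mul_ite, mul_one, mul_zero, Finset.sum_sub_distrib]
    rw [Finset.sum_ite_eq]
    have h3 : ∀ x, (z = bar x) ↔ (bar z = x) := by
      intro x
      constructor
      · intro h; rw [h, hbb]
      · intro h; rw [← h, hbb]
    simp only [h3, Finset.sum_ite_eq, Finset.mem_univ, if_true, hf]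
    ring
  have h2 : (2 : ℚ) • f ∈ W := by
    rw [← h1]
    exact Submodule.sum_mem _ fun x _ => Submodule.smul_mem _ _ (h x x₀)
  exact (W.smul_mem_iff two_ne_zero).1 h2

/-- **Stable spaces of odd functions.** -/
theorem tri_of_dichotomy [IsPretransitive G X] [Nonempty X]
    (hbb : ∀ x, bar (bar x) = x) (hne : ∀ x, bar x ≠ x)
    (hbσ : ∀ (σ : G) x, bar (σ • x) = σ • bar x)
    (h2 : ∀ x y x' y' : X, y ≠ x → y ≠ bar x → y' ≠ x' → y' ≠ bar x' →
      ∃ g : G, (g • x = x' ∨ g • x = bar x') ∧ (g • y = y' ∨ g • y = bar y'))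
    (hd : ∀ c w : X → ℤ, (∀ x, c (bar x) = -c x) → (∀ x, w (bar x) = -w x) →
      (∃ x, c x ≠ 0) → (∃ x, w x ≠ 0) → (∀ g : G, ∑ x, c x * w (g • x) = 0) →
      SignType G c ∨ SignType G w)
    (W : Submodule ℚ (X → ℚ)) (hW1 : ∀ n ∈ W, ∀ x, n (bar x) = -n x)
    (hW2 : ∀ σ : G, ∀ n ∈ W, (fun x => n (σ • x)) ∈ W) :
    W = ⊥ ∨ (∀ n : X → ℚ, (∀ x, n (bar x) = -n x) → n ∈ W) ∨
      ∃ u : X → ℚ, (∀ x, u (bar x) = -u x) ∧ (∀ x, u x = 1 ∨ u x = -1) ∧
        (∀ σ : G, (∀ x, u (σ • x) = u x) ∨ ∀ x, u (σ • x) = -u x) ∧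
        ((u ∈ W ∧ ∀ f ∈ W, ∃ c : ℚ, f = c • u) ∨
          ∀ f, f ∈ W ↔ (∀ x, f (bar x) = -f x) ∧ ∑ x, f x * u x = 0) := by
  by_cases hWb : W = ⊥
  · exact Or.inl hWb
  right
  by_cases hall : ∀ n : X → ℚ, (∀ x, n (bar x) = -n x) → n ∈ W
  · exact Or.inl hall
  right
  have hall' := hall
  push Not at hall'
  obtain ⟨f₀, hf₀, hf₀W⟩ := hall'
  obtain ⟨m, hm, hm0, hmW⟩ := exists_orth hbb W hW1 f₀ hf₀ hf₀W
  obtain ⟨f, hf, hf0⟩ := Submodule.exists_mem_ne_zero_of_ne_bot hWb
  obtain ⟨N, F, hN, hF⟩ := exists_int_scale f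
  obtain ⟨M, C, hM, hC⟩ := exists_int_scale m
  have hNq : (N : ℚ) ≠ 0 := by exact_mod_cast hN.ne'
  have hMq : (M : ℚ) ≠ 0 := by exact_mod_cast hM.ne'
  have hFo : ∀ x, F (bar x) = - F x := by
    intro x
    have h1 : (F (bar x) : ℚ) = ((- F x : ℤ) : ℚ) := by
      rw [hF, hW1 f hf]; push_cast; rw [hF]; ring
    exact_mod_cast h1
  have hCo : ∀ x, C (bar x) = - C x := by
    intro x
    have h1 : (C (bar x) : ℚ) = ((- C x : ℤ) : ℚ) := by
      rw [hC, hm]; push_cast; rw [hC]; ring
    exact_mod_cast h1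
  have hF0 : ∃ x, F x ≠ 0 := by
    by_contra hcon
    push Not at hcon
    apply hf0
    funext x
    have h1 := hF x
    rw [hcon x] at h1
    have h2 : (N : ℚ) * f x = 0 := by rw [← h1]; simp
    exact (mul_eq_zero.1 h2).resolve_left hNq
  have hC0 : ∃ x, C x ≠ 0 := by
    obtain ⟨x, hx⟩ := hm0
    refine ⟨x, fun h => hx ?_⟩
    have h1 := hC x
    rw [h] at h1
    have h2 : (M : ℚ) * m x = 0 := by rw [← h1]; simp
    exact (mul_eq_zero.1 h2).resolve_left hMq
  have hrel : ∀ g : G, ∑ x, C x * F (g • x) = 0 := by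
    intro g
    have h1 : (∑ x, (C x : ℚ) * F (g • x)) = 0 := by
      have h2 := hmW _ (hW2 g f hf)
      have h3 : ∀ x, (C x : ℚ) * F (g • x) = (M * N) * (m x * f (g • x)) := by
        intro x
        rw [hC, hF]; ring
      rw [Finset.sum_congr rfl fun x _ => h3 x, ← Finset.mul_sum, h2, mul_zero]
    exact_mod_cast h1
  have hcard : ∀ u : X → ℚ, (∀ x, u x = 1 ∨ u x = -1) → ∑ x, u x * u x = Fintype.card X := by
    intro u hu
    have h1 : ∀ x, u x * u x = 1 := fun x => by rcases hu x with h | h <;> rw [h] <;> norm_num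
    simp [h1]
  have hcard0 : (Fintype.card X : ℚ) ≠ 0 := by exact_mod_cast Fintype.card_ne_zero
  rcases hd C F hCo hFo hC0 hF0 hrel with hs | hs
  · -- the orthogonal function is of sign type
    obtain ⟨u, k, hk, hCu, hu, hu1, hus⟩ := unit_of_signType C hCo hC0 hs
    refine ⟨u, hu, hu1, hus, Or.inr ?_⟩
    have horth : ∀ f ∈ W, ∑ x, f x * u x = 0 := by
      intro f hf
      have h1 := hmW f hf
      have h3 : ∀ x, m x * f x = (k / M) * (f x * u x) := by
        intro x
        have h4 : m x = k / M * u x := by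
          have h5 := hC x
          rw [hCu] at h5
          field_simp
          linarith
        rw [h4]; ring
      rw [Finset.sum_congr rfl fun x _ => h3 x, ← Finset.mul_sum] at h1
      exact (mul_eq_zero.1 h1).resolve_left (div_ne_zero hk hMq)
    have hfu : ¬ ∃ c : ℚ, f = c • u := by
      rintro ⟨c, hc⟩
      have h1 := horth f hf
      rw [hc] at h1
      simp only [Pi.smul_apply, smul_eq_mul, mul_assoc] at h1
      rw [← Finset.mul_sum, hcard u hu1] at h1
      have h2 := (mul_eq_zero.1 h1).resolve_right hcard0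
      apply hf0
      rw [hc, h2, zero_smul]
    intro f'
    constructor
    · intro hf'
      exact ⟨hW1 f' hf', horth f' hf'⟩
    · rintro ⟨h3, h4⟩
      exact orth_mem hbb u W (fun x y => diff_mem hbb hne hbσ h2 u hu hu1 hus W hW1 hW2 f hf hfu x y)
        f' h3 h4
  · -- a function in the space is of sign type
    obtain ⟨u, k, hk, hFu, hu, hu1, hus⟩ := unit_of_signType F hFo hF0 hs
    refine ⟨u, hu, hu1, hus, Or.inl ?_⟩
    have huW : u ∈ W := by
      have h1 : u = (N / k) • f := by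
        funext x
        rw [Pi.smul_apply, smul_eq_mul]
        have h4 := hF x
        rw [hFu] at h4
        field_simp
        linarith
      rw [h1]
      exact W.smul_mem _ hf
    refine ⟨huW, fun f' hf' => ?_⟩
    by_contra hcon
    apply hall
    intro n hn
    have key := diff_mem hbb hne hbσ h2 u hu hu1 hus W hW1 hW2 f' hf' hcon
    set c : ℚ := (∑ x, n x * u x) / Fintype.card X with hcdef
    have h1 : n - c • u ∈ W := by
      refine orth_mem hbb u W key _ (fun x => ?_) ?_
      · simp only [Pi.sub_apply, Pi.smul_apply, smul_eq_mul, hn, hu]; ring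
      · simp only [Pi.sub_apply, Pi.smul_apply, smul_eq_mul, sub_mul, Finset.sum_sub_distrib,
          mul_assoc]
        rw [← Finset.mul_sum, hcard u hu1, hcdef, div_mul_cancel₀ _ hcard0, sub_self]
    have h3 : n = (n - c • u) + c • u := by rw [sub_add_cancel]
    rw [h3]
    exact W.add_mem h1 (W.smul_mem _ huW)

end Pool.Agent.H855.CM
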