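import Mathlib
import Pool.Graph.R_seed8.Y137.MV.Criteria
import Pool.Agent.H855.CM.Defs
import Pool.Agent.H855.CM.Tri
import Pool.Agent.H855.Prim

/-!
# The decomposition group and the embeddings of a CM field
-/

set_option autoImplicit false
set_option linter.unusedSectionVars false

namespace Pool.Agent.H855.CM

open NumberField Module IntermediateField Pool.Agent.H204R3.CM Pool.Agent.H855

open scoped Classical in
noncomputable local instance decHom {A B : Type*} [Field A] [Field B] : DecidableEq (A →+* B) :=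
  Classical.decEq _

section cm

variable {K : Type*} [Field K] [NumberField K] [IsCMField K]

theorem add_conj_mem (x : K) : x + IsCMField.complexConj K x ∈ maximalRealSubfield K := by
  rw [← IsCMField.complexConj_eq_self_iff, map_add, IsCMField.complexConj_apply_apply, add_comm]

theorem mul_conj_mem (x : K) : x * IsCMField.complexConj K x ∈ maximalRealSubfield K := by
  rw [← IsCMField.complexConj_eq_self_iff, map_mul, IsCMField.complexConj_apply_apply, mul_comm]

/-- Two embeddings which agree on the maximal real subfield are equal or conjugate. -/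
theorem eq_or_of_real {A : Type*} [Field A] (σ τ : K →+* A)
    (h : ∀ x ∈ maximalRealSubfield K, σ x = τ x) : σ = τ ∨ σ = cbar τ := by
  have key : ∀ x, σ x = τ x ∨ σ x = τ (IsCMField.complexConj K x) := by
    intro x
    have h1 := h _ (add_conj_mem x)
    have h2 := h _ (mul_conj_mem x)
    rw [map_add, map_add] at h1
    rw [map_mul, map_mul] at h2
    have h3 : (σ x - τ x) * (σ x - τ (IsCMField.complexConj K x)) = 0 := by
      linear_combination (σ x) * h1 - h2
    rcases mul_eq_zero.1 h3 with h4 | h4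
    · exact Or.inl (sub_eq_zero.1 h4)
    · exact Or.inr (sub_eq_zero.1 h4)
  by_contra hcon
  push Not at hcon
  obtain ⟨h1, h2⟩ := hcon
  obtain ⟨a, ha⟩ : ∃ a, σ a ≠ τ a := by
    by_contra hc
    push Not at hc
    exact h1 (RingHom.ext hc)
  obtain ⟨b, hb⟩ : ∃ b, σ b ≠ τ (IsCMField.complexConj K b) := by
    by_contra hc
    push Not at hc
    exact h2 (RingHom.ext hc)
  have ha' := (key a).resolve_left ha
  have hb' := (key b).resolve_right hb
  rcases key (a + b) with h3 | h3
  · rw [map_add, map_add, hb'] at h3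
    exact ha (add_right_cancel h3)
  · rw [map_add, map_add, map_add, ha'] at h3
    exact hb (add_left_cancel h3)

end cm

section local_

variable {L : Type*} [Field L] [NumberField L] [IsGalois ℚ L] {r : ℕ} [Fact r.Prime]
  (ι : L →+* PadicAlgCl r)

/-- The decomposition group. -/
def dec : Subgroup (L ≃ₐ[ℚ] L) where
  carrier := {σ | ∃ τ : PadicAlgCl r ≃ₐ[ℚ_[r]] PadicAlgCl r, ∀ x, ι (σ x) = τ (ι x)}
  one_mem' := ⟨AlgEquiv.refl, fun _ => rfl⟩
  mul_mem' := by
    rintro a b ⟨τ, hτ⟩ ⟨τ', hτ'⟩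
    refine ⟨τ'.trans τ, fun x => ?_⟩
    rw [AlgEquiv.mul_apply, hτ, hτ']
    rfl
  inv_mem' := by
    rintro a ⟨τ, hτ⟩
    refine ⟨τ.symm, fun x => ?_⟩
    rw [AlgEquiv.eq_symm_apply, ← hτ]
    congr 1
    exact a.apply_symm_apply x

theorem mem_dec (σ : L ≃ₐ[ℚ] L) : σ ∈ dec ι ↔
    ∃ τ : PadicAlgCl r ≃ₐ[ℚ_[r]] PadicAlgCl r, ∀ x, ι (σ x) = τ (ι x) := Iff.rfl

theorem exists_mem_dec (τ : PadicAlgCl r ≃ₐ[ℚ_[r]] PadicAlgCl r) :
    ∃ σ ∈ dec ι, ∀ x, ι (σ x) = τ (ι x) := by
  classical
  have hinj : Function.Injective (fun σ : L ≃ₐ[ℚ] L => ι.comp (σ : L →+* L)) := by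
    intro σ σ' h
    ext x
    exact ι.injective (RingHom.congr_fun h x)
  have hbij : Function.Bijective (fun σ : L ≃ₐ[ℚ] L => ι.comp (σ : L →+* L)) := by
    rw [Fintype.bijective_iff_injective_and_card]
    exact ⟨hinj, by rw [Embeddings.card, ← Nat.card_eq_fintype_card, IsGalois.card_aut_eq_finrank]⟩
  obtain ⟨σ, hσ⟩ := hbij.2 ((τ : PadicAlgCl r →+* PadicAlgCl r).comp ι)
  exact ⟨σ, ⟨τ, fun x => RingHom.congr_fun hσ x⟩, fun x => RingHom.congr_fun hσ x⟩

variable {K : Type*} [Field K] [NumberField K] [IsCMField K]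

theorem comp_inj {E : Type*} [Field E] {φ ψ : E →+* L} (h : ι.comp φ = ι.comp ψ) : φ = ψ := by
  ext x
  exact ι.injective (RingHom.congr_fun h x)

theorem samePlace_iff (φ ψ : K →+* L) : SamePlace r (ι.comp φ) (ι.comp ψ) ↔
    ψ ∈ dorb (dec ι) φ := by
  rw [mem_dorb]
  constructor
  · rintro ⟨τ, hτ⟩
    obtain ⟨σ, hσ, hσ'⟩ := exists_mem_dec ι τ
    refine ⟨σ, hσ, RingHom.ext fun x => ι.injective ?_⟩
    change ι (σ (φ x)) = ι (ψ x)
    rw [hσ', ← RingHom.comp_apply, ← hτ]
    rfl
  · rintro ⟨σ, ⟨τ, hτ⟩, rfl⟩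
    exact ⟨τ, fun x => hτ (φ x)⟩

theorem cbar_real (φ : K →+* PadicAlgCl r) : real r (cbar φ) = real r φ := by
  ext x
  change φ (IsCMField.complexConj K x) = φ x
  rw [IsCMField.complexConj_apply_eq_self]

theorem comp_cbar' (φ : K →+* L) : ι.comp (cbar φ) = cbar (ι.comp φ) := rfl

theorem samePlace_real_iff (φ ψ : K →+* L) :
    SamePlace r (real r (ι.comp φ)) (real r (ι.comp ψ)) ↔ ψ ∈ porb cbar (dec ι) φ := by
  rw [mem_porb]
  constructor
  · rintro ⟨τ, hτ⟩
    obtain ⟨σ, hσ, hσ'⟩ := exists_mem_dec ι τ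
    refine ⟨σ, hσ, ?_⟩
    refine eq_or_of_real (σ • φ) ψ fun x hx => ι.injective ?_
    have h1 := hτ ⟨x, hx⟩
    change ι (σ (φ x)) = ι (ψ x)
    rw [hσ']
    exact h1.symm
  · rintro ⟨σ, ⟨τ, hτ⟩, h | h⟩
    · refine ⟨τ, fun x => ?_⟩
      rw [← h]
      exact hτ (φ x)
    · refine ⟨τ, fun x => ?_⟩
      have h1 : real r (ι.comp ψ) = real r (ι.comp (σ • φ)) := by
        rw [h, comp_cbar', cbar_real]
      rw [h1]
      exact hτ (φ x)

theorem isSplit_iff (φ : K →+* L) : IsSplit r (ι.comp φ) ↔ cbar φ ∉ dorb (dec ι) φ := by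
  rw [← samePlace_iff]
  rfl

variable (hK : Fintype.card (K →+* L) = finrank ℚ K)

include hK in
theorem exists_comp (ψ : K →+* PadicAlgCl r) : ∃ φ : K →+* L, ι.comp φ = ψ := by
  classical
  have hbij : Function.Bijective (fun φ : K →+* L => ι.comp φ) := by
    rw [Fintype.bijective_iff_injective_and_card]
    exact ⟨fun a b h => comp_inj ι h, by rw [hK, Embeddings.card]⟩
  exact hbij.2 ψ

/-- Embeddings of the maximal real subfield extend. -/
theorem exists_extend (θ : maximalRealSubfield K →+* PadicAlgCl r) :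
    ∃ ψ : K →+* PadicAlgCl r, real r ψ = θ := by
  let _ : Algebra (maximalRealSubfield K) (PadicAlgCl r) := θ.toAlgebra
  have h1 : Algebra.IsAlgebraic (maximalRealSubfield K) K := inferInstance
  let f : K →ₐ[maximalRealSubfield K] PadicAlgCl r := IsAlgClosed.lift
  refine ⟨f, ?_⟩
  ext x
  exact f.commutes x

include hK in
theorem card_porb (φ : K →+* L) :
    (porb cbar (dec ι) φ).card = 2 * placeDegree r (real r (ι.comp φ)) := by
  classical
  have hfin : Finite (maximalRealSubfield K →+* PadicAlgCl r) := inferInstance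
  let T : Finset (maximalRealSubfield K →+* PadicAlgCl r) :=
    Finset.univ.filter fun θ => SamePlace r (real r (ι.comp φ)) θ
  have hT : placeDegree r (real r (ι.comp φ)) = T.card := by
    unfold placeDegree
    rw [Nat.card_eq_fintype_card, Fintype.card_subtype]
  let F : (K →+* L) → (maximalRealSubfield K →+* PadicAlgCl r) := fun ψ => real r (ι.comp ψ)
  rw [hT, Finset.card_eq_sum_card_fiberwise (f := F) (t := T) (fun ψ hψ => by
    rw [Finset.mem_coe, Finset.mem_filter]
    exact ⟨Finset.mem_univ _, (samePlace_real_iff ι φ ψ).2 hψ⟩)]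
  have h3 : ∀ θ ∈ T, ((porb cbar (dec ι) φ).filter (fun ψ => F ψ = θ)).card = 2 := by
    intro θ hθ
    obtain ⟨ψ₀, hψ₀⟩ := exists_extend θ
    obtain ⟨ψ, rfl⟩ := exists_comp ι hK ψ₀
    have h4 : (porb cbar (dec ι) φ).filter (fun ψ => F ψ = θ) = {ψ, cbar ψ} := by
      ext y
      rw [Finset.mem_filter, Finset.mem_insert, Finset.mem_singleton]
      constructor
      · rintro ⟨_, hy⟩
        refine eq_or_of_real y ψ fun x hx => ι.injective ?_
        have h5 : F y = real r (ι.comp ψ) := hy.trans hψ₀.symm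
        exact RingHom.congr_fun h5 ⟨x, hx⟩
      · rintro (hy | hy)
        · subst hy
          refine ⟨(samePlace_real_iff ι φ y).1 ?_, hψ₀⟩
          rw [hψ₀]
          exact (Finset.mem_filter.1 hθ).2
        · subst hy
          have h5 : F (cbar ψ) = θ := by
            change real r (ι.comp (cbar ψ)) = θ
            rw [comp_cbar', cbar_real, hψ₀]
          refine ⟨(samePlace_real_iff ι φ (cbar ψ)).1 ?_, h5⟩
          change SamePlace r _ (F (cbar ψ))
          rw [h5]
          exact (Finset.mem_filter.1 hθ).2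
    rw [h4, Finset.card_pair (cbar_ne ψ).symm]
  rw [Finset.sum_congr rfl h3, Finset.sum_const, smul_eq_mul, mul_comm]

end local_

section prim

variable {L : Type*} [Field L] [NumberField L] [IsGalois ℚ L]
variable {K : Type*} [Field K] [NumberField K] [IsCMField K]

/-- If `K⁺` has no proper subfields, the Galois group is primitive on the pairs. -/
theorem pairPrimitive (h : IsPrimitive (maximalRealSubfield K)) :
    PairPrimitive (L ≃ₐ[ℚ] L) (cbar : (K →+* L) → (K →+* L)) := by
  classical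
  intro E hEi hEg
  by_cases hne : Nonempty (K →+* L)
  swap
  · left
    intro x
    exact absurd ⟨x⟩ hne
  obtain ⟨x⟩ := hne
  obtain ⟨t, ht⟩ := Field.exists_primitive_element ℚ (maximalRealSubfield K)
  let x' : maximalRealSubfield K →ₐ[ℚ] L :=
    RingHom.equivRatAlgHom _ _ (x.comp (algebraMap (maximalRealSubfield K) K))
  have hx' : ∀ y, x' y = x y := fun _ => rfl
  have hgt : ∀ g : L ≃ₐ[ℚ] L, g (x' t) = x' t → g • x = x ∨ g • x = cbar x := by
    intro g hg
    refine eq_or_of_real (g • x) x fun y hy => ?_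
    have h1 : ((g : L →ₐ[ℚ] L).comp x') = x' := by
      have h2 : ∀ z : maximalRealSubfield K, z ∈ ℚ⟮t⟯ → ((g : L →ₐ[ℚ] L).comp x') z = x' z := by
        intro z hz
        have h3 : ((g : L →ₐ[ℚ] L).comp x').comp (ℚ⟮t⟯).val = x'.comp (ℚ⟮t⟯).val := by
          refine IntermediateField.algHom_ext_of_eq_adjoin ℚ (S := ℚ⟮t⟯) (s := {t}) rfl ?_
          intro w hw
          rw [Set.mem_singleton_iff] at hw
          subst hw
          exact hg
        exact DFunLike.congr_fun h3 ⟨z, hz⟩
      ext z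
      exact h2 z (by rw [ht]; exact IntermediateField.mem_top)
    exact DFunLike.congr_fun h1 ⟨y, hy⟩
  let H : Subgroup (L ≃ₐ[ℚ] L) :=
    { carrier := {g | E x (g • x)}
      one_mem' := by
        change E x ((1 : L ≃ₐ[ℚ] L) • x)
        rw [one_smul]
      mul_mem' := by
        intro a b ha hb
        change E x ((a * b) • x)
        rw [mul_smul]
        exact E.trans ha (hEg a _ _ hb)
      inv_mem' := by
        intro a ha
        change E x (a⁻¹ • x)
        have := hEg a⁻¹ _ _ ha
        rw [inv_smul_smul] at this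
        exact E.symm this }
  have hrange : ℚ⟮x' t⟯ = x'.fieldRange := by
    have h1 : (ℚ⟮t⟯).map x' = ℚ⟮x' t⟯ := by rw [adjoin_map, Set.image_singleton]
    rw [← h1, ht]
    exact (AlgHom.fieldRange_eq_map x').symm
  have key := subgroup_of_primitive (K := ℚ) (L := L) (C := L) (AlgHom.id ℚ L) (x' t) (by
    intro F hF
    change F ≤ ℚ⟮x' t⟯ at hF
    change F = ⊥ ∨ F = ℚ⟮x' t⟯
    have h1 : (F.comap x').map x' = F := by
      apply le_antisymm
      · rintro _ ⟨y, hy, rfl⟩
        exact hy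
      · intro y hy
        have h2 := hF hy
        rw [hrange] at h2
        obtain ⟨z, rfl⟩ := h2
        exact ⟨z, hy, rfl⟩
    rcases h (F.comap x') with h2 | h2
    · left
      rw [← h1, h2, IntermediateField.map_bot]
    · right
      rw [← h1, h2, hrange]
      exact (AlgHom.fieldRange_eq_map x').symm) H (by
    intro g hg
    change E x (g • x)
    rcases hgt g hg with h2 | h2
    · rw [h2]
    · rw [h2]; exact hEi x)
  rcases key with h3 | h3
  · right
    have h6 : ∀ y, E x y := by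
      intro y
      obtain ⟨g, rfl⟩ := MulAction.exists_smul_eq (L ≃ₐ[ℚ] L) x y
      exact h3 g
    intro u v
    exact E.trans (E.symm (h6 u)) (h6 v)
  · left
    intro u v huv
    obtain ⟨a, rfl⟩ := MulAction.exists_smul_eq (L ≃ₐ[ℚ] L) x u
    obtain ⟨b, rfl⟩ := MulAction.exists_smul_eq (L ≃ₐ[ℚ] L) x v
    have h7 := hEg a⁻¹ _ _ huv
    rw [inv_smul_smul, ← mul_smul] at h7
    rcases hgt _ (h3 _ h7) with h8 | h8
    · left
      rw [mul_smul, inv_smul_eq_iff] at h8
      exact h8
    · right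
      rw [mul_smul, inv_smul_eq_iff] at h8
      rw [h8]
      rfl

end prim

end Pool.Agent.H855.CM
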