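import Mathlib
import Pool.Graph.R_pool_sql_team_seeded_2aa45f1a.Q306.TP.Prime
import Pool.Agent.H855.CM.Place

/-!
# The odd functions on the embeddings of a CM field with a place of coprime degree
-/

set_option autoImplicit false
set_option linter.unusedSectionVars false

namespace Pool.Agent.H855.CM

open NumberField Module IntermediateField Pool.Agent.H204R3.CM Pool.Agent.H855
  Pool.Agent.Y137.MV Pool.Agent.Q306.TP

noncomputable local instance decHom' {A B : Type*} [Field A] [Field B] : DecidableEq (A →+* B) :=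
  Classical.decEq _

section

variable {L : Type*} [Field L] [NumberField L] [IsGalois ℚ L] {r : ℕ} [Fact r.Prime]
  (ι : L →+* PadicAlgCl r) {K : Type*} [Field K] [NumberField K] [IsCMField K]
  (hK : Fintype.card (K →+* L) = finrank ℚ K)

include hK in
/-- The orbit of a place as in `IsCoprimePlace`. -/
theorem goodOrbit_of {g n : ℕ} (φ : K →+* L) (h : IsCoprimePlace r g n (ι.comp φ)) :
    GoodOrbit cbar (dec ι) g n φ where
  deg := by
    have h1 := card_porb ι hK φ
    rw [h.degree] at h1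
    convert h1
  two_le := h.two_le
  lt := h.lt
  other := by
    intro b hb
    refine ⟨placeDegree r (real r (ι.comp b)), ?_, h.other (ι.comp b) ?_⟩
    · have h1 := card_porb ι hK b
      convert h1
    · rw [samePlace_real_iff]
      convert hb
  prim := by
    rcases h.primitive with h1 | h1
    · exact Or.inl (pairPrimitive h1)
    · exact Or.inr h1

include hK in
/-- **Stable spaces of odd functions** (embeddings into a Galois extension). -/
theorem place_tri {g : ℕ} (hcp : HasCoprimePlace K g) (hcardL : (2 : ℕ) ≤ g)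
    (W : Submodule ℚ ((K →+* L) → ℚ)) (hW1 : ∀ n ∈ W, ∀ x, n (cbar x) = -n x)
    (hW2 : ∀ σ : L ≃ₐ[ℚ] L, ∀ n ∈ W, (fun x => n (σ • x)) ∈ W)
    (ιr : ∀ (r : ℕ) [Fact r.Prime], L →+* PadicAlgCl r) :
    W = ⊥ ∨ (∀ n : (K →+* L) → ℚ, (∀ x, n (cbar x) = -n x) → n ∈ W) ∨
      ∃ u : (K →+* L) → ℚ, (∀ x, u (cbar x) = -u x) ∧ (∀ x, u x = 1 ∨ u x = -1) ∧
        (∀ σ : L ≃ₐ[ℚ] L, (∀ x, u (σ • x) = u x) ∨ ∀ x, u (σ • x) = -u x) ∧
        ((u ∈ W ∧ ∀ f ∈ W, ∃ c : ℚ, f = c • u) ∨
          ∀ f, f ∈ W ↔ (∀ x, f (cbar x) = -f x) ∧ ∑ x, f x * u x = 0) := by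
  classical
  obtain ⟨hfin, r', hr', n, ψ, hψ, hor⟩ := hcp
  let ι' : L →+* PadicAlgCl r' := ιr r'
  obtain ⟨φ, rfl⟩ := exists_comp ι' hK ψ
  have hcard : Fintype.card (K →+* L) = 2 * g := by rw [hK, hfin]
  have hne : Nonempty (K →+* L) := ⟨φ⟩
  have hgood := goodOrbit_of ι' hK φ hψ
  have hbσ : ∀ (σ : L ≃ₐ[ℚ] L) (x : K →+* L), σ • cbar x = cbar (σ • x) := fun σ x => rfl
  have hor' : Odd g ∨ (g - 1).Prime ∨
      (n + 2 ≤ g ∧ cbar φ ∉ dorb (dec ι') φ ∧
        (Odd n ∨ ∀ b, b ∉ porb cbar (dec ι') φ → cbar b ∉ dorb (dec ι') b)) ∨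
      (n + 2 ≤ g ∧ g < 2 * n ∧ ∀ l : ℕ, l.Prime → l ∣ n → g - n < l) := by
    rcases hor with h | h | ⟨h, h', h''⟩ | h
    · exact Or.inl h
    · exact Or.inr (Or.inl h)
    · refine Or.inr (Or.inr (Or.inl ⟨h, ?_, ?_⟩))
      · have := (isSplit_iff ι' φ).1 h'
        convert this
      · rcases h'' with h'' | h''
        · exact Or.inl h''
        · right
          intro b hb
          have h3 : ¬ SamePlace r' (real r' (ι'.comp φ)) (real r' (ι'.comp b)) := by
            rw [samePlace_real_iff]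
            convert hb
          have := (isSplit_iff ι' b).1 (h'' _ h3)
          convert this
    · exact Or.inr (Or.inr (Or.inr h))
  refine tri_of_dichotomy (G := L ≃ₐ[ℚ] L) (bar := (cbar : (K →+* L) → (K →+* L))) cbar_cbar
    cbar_ne (fun σ x => rfl)
    (fun x y x' y' h1 h2 h3 h4 => pairs_of_good cbar_cbar cbar_ne hbσ hcard hgood x y x' y' h1 h2
      h3 h4) ?_ W hW1 hW2
  intro c w hc hw hc0 hw0 hrel
  exact signType_of_good cbar_cbar cbar_ne hbσ hcard hgood hor' c w hc hw hc0 hw0 hrel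

end

/-- Stable spaces of odd functions on the embeddings of a CM field with a place of coprime degree:
zero, everything, or the line of the character of an imaginary quadratic subfield, or the orthogonal
space of this line. -/
theorem place_triC {E : Type} [Field E] [NumberField E] [IsCMField E] {g : ℕ}
    (hE : HasCoprimePlace E g) (W : Submodule ℚ ((E →+* ℂ) → ℚ))
    (hW1 : ∀ n ∈ W, IsOdd n)
    (hW2 : ∀ τ : ℂ ≃+* ℂ, ∀ n ∈ W, (fun φ => n ((τ : ℂ →+* ℂ).comp φ)) ∈ W) :
    W = ⊥ ∨ (∀ n, IsOdd n → n ∈ W) ∨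
      ∃ (x : E) (n : ℕ) (u : (E →+* ℂ) → ℚ), 0 < n ∧ x ^ 2 = -(n : E) ∧ IsOdd u ∧
        (∀ φ, u φ = 1 ∨ u φ = -1) ∧ (∀ φ φ', φ x = φ' x ↔ u φ = u φ') ∧
        ((u ∈ W ∧ ∀ f ∈ W, ∃ c : ℚ, f = c • u) ∨
          ∀ f, f ∈ W ↔ IsOdd f ∧ ∑ φ, f φ * u φ = 0) := by
  classical
  obtain ⟨L, hLa, hLb, j, h⟩ := exists_galois (fun _ : Unit => E)
  let J : (E →+* L) ≃ (E →+* ℂ) := embEquiv j (h ())
  have hJ : ∀ φ, J φ = j.comp φ := fun φ => rfl
  let B : ((E →+* L) → ℚ) →ₗ[ℚ] ((E →+* ℂ) → ℚ) :=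
    { toFun := fun m ψ => m (J.symm ψ)
      map_add' := fun _ _ => rfl
      map_smul' := fun _ _ => rfl }
  have hBJ : ∀ m φ, B m (J φ) = m φ := fun m φ => by
    change m (J.symm (J φ)) = m φ
    rw [Equiv.symm_apply_apply]
  have hsurj : ∀ n : (E →+* ℂ) → ℚ, B (fun φ => n (J φ)) = n := by
    intro n
    funext ψ
    change n (J (J.symm ψ)) = n ψ
    rw [Equiv.apply_symm_apply]
  have hJbar : ∀ φ : E →+* L, J (cbar φ) = ComplexEmbedding.conjugate (J φ) := fun φ => by
    rw [hJ, comp_cbar, hJ]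
  have hBodd : ∀ m : (E →+* L) → ℚ, (∀ φ, m (cbar φ) = -m φ) → IsOdd (B m) := by
    intro m hm ψ
    obtain ⟨φ, rfl⟩ := J.surjective ψ
    rw [← hJbar, hBJ, hBJ, hm]
  have hg2 : 2 ≤ g := by
    obtain ⟨-, r, hr, n, φ, hp, -⟩ := hE
    have h1 := hp.two_le
    have h2 := hp.lt
    omega
  rcases place_tri (L := L) (K := E) (card_emb j (h ())) hE hg2 (W.comap B) (fun m hm φ => by
        have h1 := hW1 _ hm (J φ)
        rw [hBJ, hJ, ← comp_cbar, ← hJ, hBJ] at h1
        exact h1) (fun σ m hm => by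
        obtain ⟨τ, hτ⟩ := H977R3.CM.exists_aut j (σ : L ≃+* L)
        have h1 := hW2 τ _ hm
        have h2 : B (fun x => m (σ • x)) = fun ψ => B m ((τ : ℂ →+* ℂ).comp ψ) := by
          funext ψ
          obtain ⟨φ, rfl⟩ := J.surjective ψ
          have h3 : (τ : ℂ →+* ℂ).comp (J φ) = J (σ • φ) := by
            ext x
            exact hτ (φ x)
          rw [h3, hBJ, hBJ]
        rw [Submodule.mem_comap, h2]
        exact h1) (fun r _ => (IsAlgClosed.lift : L →ₐ[ℚ] PadicAlgCl r).toRingHom)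
    with h1 | h1 | ⟨u, hu1, hu2, hu3, hu4⟩
  · left
    rw [Submodule.eq_bot_iff]
    intro n hn
    have h2 : (fun φ => n (J φ)) ∈ W.comap B := by
      rw [Submodule.mem_comap, hsurj]
      exact hn
    rw [h1, Submodule.mem_bot] at h2
    rw [← hsurj n, h2, map_zero]
  · right
    left
    intro n hn
    have h2 := h1 (fun φ => n (J φ)) (fun φ => by rw [hJbar, hn])
    rw [Submodule.mem_comap, hsurj] at h2
    exact h2
  · right
    right
    obtain ⟨ψ⟩ : Nonempty (E →+* ℂ) := inferInstance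
    obtain ⟨x, n, hn, hx, hux⟩ := exists_imag j (J.symm ψ) u hu1 hu2 hu3
    refine ⟨x, n, B u, hn, hx, hBodd u hu1, fun φ => ?_, fun φ φ' => ?_, ?_⟩
    · exact hu2 _
    · obtain ⟨φ, rfl⟩ := J.surjective φ
      obtain ⟨φ', rfl⟩ := J.surjective φ'
      rw [hBJ, hBJ, ← hux]
      exact ⟨fun h => j.injective h, fun h => congrArg j h⟩
    · rcases hu4 with ⟨h2, h3⟩ | h2
      · left
        refine ⟨h2, fun f hf => ?_⟩
        obtain ⟨c, hc⟩ := h3 (fun φ => f (J φ)) (by rw [Submodule.mem_comap, hsurj]; exact hf)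
        refine ⟨c, ?_⟩
        rw [← hsurj f, hc, map_smul]
      · right
        intro f
        have h3 := h2 (fun φ => f (J φ))
        rw [Submodule.mem_comap, hsurj] at h3
        rw [h3]
        have h4 : ∑ φ, f φ * B u φ = ∑ φ, f (J φ) * u φ := by
          rw [← Equiv.sum_comp J (fun φ => f φ * B u φ)]
          refine Finset.sum_congr rfl fun φ _ => ?_
          rw [hBJ]
        rw [h4]
        constructor
        · rintro ⟨h5, h6⟩
          refine ⟨fun ψ => ?_, h6⟩
          obtain ⟨φ, rfl⟩ := J.surjective ψ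
          rw [← hJbar, h5]
        · rintro ⟨h5, h6⟩
          exact ⟨fun φ => by rw [hJbar, h5], h6⟩

/-- **The odd functions on the embeddings of a CM field with a place of coprime degree which
contains no imaginary quadratic field are irreducible.** -/
theorem oddIrreducible_of_place {E : Type} [Field E] [NumberField E] [IsCMField E] {g : ℕ}
    (hE : HasCoprimePlace E g) (himag : NoImaginaryQuadratic E) : OddIrreducible E := by
  intro W hW1 hW2
  rcases place_triC hE W hW1 hW2 with h | h | ⟨x, n, u, hn, hx, -⟩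
  · exact Or.inl h
  · exact Or.inr h
  · exact absurd hx (himag x n hn)

end Pool.Agent.H855.CM
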