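import Mathlib
import Pool.Graph.R_seed8.Y137.MV.Defs
import Pool.Graph.R_pool_sql_team_seeded_843ab51a.V1168.EV.Core

/-!
# Stable spaces of functions on the embeddings of pairwise unrelated fields
-/

set_option autoImplicit false
set_option linter.unusedSectionVars false

namespace Pool.Agent.H855.CM

open NumberField Module Pool.Agent.Y137.MV Pool.Agent.V1168.EV

section orth

variable {X : Type*} [Fintype X]

/-- The standard bilinear form. -/
def dotB (X : Type*) [Fintype X] : LinearMap.BilinForm ℚ (X → ℚ) :=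
  LinearMap.mk₂ ℚ (fun f g => ∑ x, f x * g x)
    (fun f f' g => by simp only [Pi.add_apply, add_mul, Finset.sum_add_distrib])
    (fun c f g => by
      simp only [Pi.smul_apply, smul_eq_mul, mul_assoc]
      rw [Finset.mul_sum])
    (fun f g g' => by simp only [Pi.add_apply, mul_add, Finset.sum_add_distrib])
    (fun c f g => by
      simp only [Pi.smul_apply, smul_eq_mul]
      rw [Finset.mul_sum]
      exact Finset.sum_congr rfl fun x _ => by ring)

theorem dotB_apply (f g : X → ℚ) : dotB X f g = ∑ x, f x * g x := rfl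

theorem dotB_refl : (dotB X).IsRefl := by
  intro f g h
  rw [dotB_apply] at h ⊢
  rw [← h]
  exact Finset.sum_congr rfl fun x _ => mul_comm _ _

theorem isCompl_dotB (W : Submodule ℚ (X → ℚ)) : IsCompl W ((dotB X).orthogonal W) := by
  rw [LinearMap.BilinForm.isCompl_orthogonal_iff_disjoint dotB_refl, Submodule.disjoint_def]
  intro f hf hf'
  have h1 : dotB X f f = 0 := hf' f hf
  rw [dotB_apply] at h1
  have h2 := (Finset.sum_eq_zero_iff_of_nonneg (fun x _ => mul_self_nonneg (f x))).1 h1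
  funext x
  exact mul_self_eq_zero.1 (h2 x (Finset.mem_univ x))

/-- The orthogonal projection. -/
noncomputable def oproj (W : Submodule ℚ (X → ℚ)) : (X → ℚ) →ₗ[ℚ] (X → ℚ) :=
  W.projection _ (isCompl_dotB W)

theorem oproj_mem (W : Submodule ℚ (X → ℚ)) (f : X → ℚ) : oproj W f ∈ W :=
  Submodule.projection_apply_mem _ f

theorem oproj_eq (W : Submodule ℚ (X → ℚ)) {f : X → ℚ} (hf : f ∈ W) : oproj W f = f :=
  Submodule.projection_apply_of_mem_left _ hf

theorem oproj_perm (W : Submodule ℚ (X → ℚ)) (e : Equiv.Perm X)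
    (h : ∀ f ∈ W, (fun x => f (e x)) ∈ W) (h' : ∀ f ∈ W, (fun x => f (e.symm x)) ∈ W)
    (f : X → ℚ) : oproj W (fun x => f (e x)) = fun x => oproj W f (e x) := by
  have h1 : f - oproj W f ∈ (dotB X).orthogonal W := by
    have h2 : oproj W (f - oproj W f) = 0 := by
      rw [map_sub, oproj_eq W (oproj_mem W f), sub_self]
    exact (Submodule.projection_apply_eq_zero_iff (isCompl_dotB W)).1 h2
  have h2 : (fun x => (f - oproj W f) (e x)) ∈ (dotB X).orthogonal W := by
    intro w hw
    change dotB X w _ = 0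
    have h3 : dotB X (fun x => w (e.symm x)) (f - oproj W f) = 0 := h1 _ (h' w hw)
    rw [dotB_apply] at h3 ⊢
    rw [← h3]
    refine Fintype.sum_equiv e _ _ fun x => ?_
    rw [Equiv.symm_apply_apply]
  have h3 : (fun x => f (e x)) = (fun x => oproj W f (e x)) +
      (fun x => (f - oproj W f) (e x)) := by
    funext x
    simp
  rw [h3, map_add, oproj_eq W (h _ (oproj_mem W f))]
  have h4 : oproj W (fun x => (f - oproj W f) (e x)) = 0 :=
    (Submodule.projection_apply_eq_zero_iff (isCompl_dotB W)).2 h2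
  rw [h4, add_zero]

end orth

section emb

variable {I : Type} [Fintype I] {K : I → Type} [∀ i, Field (K i)] [∀ i, NumberField (K i)]
  [∀ i, IsCMField (K i)]

open Classical in
/-- Extension by zero of a function on the embeddings of one field. -/
noncomputable def ext (i : I) : ((K i →+* ℂ) → ℚ) →ₗ[ℚ] (Emb K → ℚ) where
  toFun m y := ∑ φ, if y = ⟨i, φ⟩ then m φ else 0
  map_add' m m' := by
    funext y
    rw [Pi.add_apply, ← Finset.sum_add_distrib]
    refine Finset.sum_congr rfl fun φ _ => ?_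
    split_ifs
    · rfl
    · rw [add_zero]
  map_smul' c m := by
    funext y
    rw [RingHom.id_apply, Pi.smul_apply, smul_eq_mul, Finset.mul_sum]
    refine Finset.sum_congr rfl fun φ _ => ?_
    split_ifs
    · rfl
    · rw [mul_zero]

theorem ext_same (i : I) (m : (K i →+* ℂ) → ℚ) (φ : K i →+* ℂ) : ext i m ⟨i, φ⟩ = m φ := by
  classical
  change (∑ ψ, if (⟨i, φ⟩ : Emb K) = ⟨i, ψ⟩ then m ψ else 0) = m φ
  rw [Finset.sum_eq_single φ]
  · rw [if_pos rfl]
  · intro ψ _ hψ
    rw [if_neg]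
    intro h
    exact hψ (eq_of_heq (Sigma.mk.inj h).2).symm
  · intro h
    exact absurd (Finset.mem_univ _) h

theorem ext_ne (i : I) (m : (K i →+* ℂ) → ℚ) (y : Emb K) (h : y.1 ≠ i) : ext i m y = 0 := by
  classical
  change (∑ ψ, if y = ⟨i, ψ⟩ then m ψ else 0) = 0
  refine Finset.sum_eq_zero fun ψ _ => ?_
  rw [if_neg]
  rintro rfl
  exact h rfl

theorem ext_act (i : I) (m : (K i →+* ℂ) → ℚ) (τ : ℂ ≃+* ℂ) :
    ext i (fun φ => m ((τ : ℂ →+* ℂ).comp φ)) = fun y => ext i m (act τ y) := by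
  funext y
  obtain ⟨k, φ⟩ := y
  by_cases hk : k = i
  · subst hk
    rw [ext_same]
    exact (ext_same k m ((τ : ℂ →+* ℂ).comp φ)).symm
  · rw [ext_ne i _ _ hk, ext_ne i _ _ (show (act τ (⟨k, φ⟩ : Emb K)).1 ≠ i from hk)]

theorem ext_sum (n : Emb K → ℚ) : n = ∑ i, ext i (fun φ => n ⟨i, φ⟩) := by
  classical
  funext y
  obtain ⟨k, φ⟩ := y
  rw [Finset.sum_apply, Finset.sum_eq_single k]
  · rw [ext_same]
  · intro i _ hi
    rw [ext_ne i _ _ (Ne.symm hi)]
  · intro h
    exact absurd (Finset.mem_univ _) h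

/-- A rational function is odd. -/
def OddQ (n : Emb K → ℚ) : Prop := ∀ y, n (bar y) = - n y

theorem ext_odd (i : I) (m : (K i →+* ℂ) → ℚ) (hm : IsOdd m) : OddQ (ext i m : Emb K → ℚ) := by
  rintro ⟨k, φ⟩
  by_cases hk : k = i
  · subst hk
    rw [ext_same]
    change ext k m ⟨k, ComplexEmbedding.conjugate φ⟩ = _
    rw [ext_same, hm]
  · rw [ext_ne i m (bar ⟨k, φ⟩) hk, ext_ne i m ⟨k, φ⟩ hk, neg_zero]

theorem act_symm_symm (τ : ℂ ≃+* ℂ) (y : Emb K) : (act τ).symm y = act τ.symm y := rfl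

/-- **The components of an element of a stable space are in the space** if the fields are pairwise
unrelated. -/
theorem comp_mem (hun : ∀ i k, i ≠ k → Unrelated (K i) (K k)) (W : Submodule ℚ (Emb K → ℚ))
    (hodd : ∀ n ∈ W, OddQ n) (hst : ∀ τ : ℂ ≃+* ℂ, ∀ n ∈ W, (fun y => n (act τ y)) ∈ W)
    {n : Emb K → ℚ} (hn : n ∈ W) (i : I) : ext i (fun φ => n ⟨i, φ⟩) ∈ W := by
  classical
  have hP : ∀ (τ : ℂ ≃+* ℂ) (f : Emb K → ℚ),
      oproj W (fun y => f (act τ y)) = fun y => oproj W f (act τ y) := by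
    intro τ f
    exact oproj_perm W (act τ) (hst τ) (fun f hf => hst τ.symm f hf) f
  have hoff : ∀ i k, i ≠ k → ∀ m : (K i →+* ℂ) → ℚ, IsOdd m → ∀ φ : K k →+* ℂ,
      oproj W (ext i m) ⟨k, φ⟩ = 0 := by
    intro i k hik m hm φ
    let T : ((K i →+* ℂ) → ℚ) →ₗ[ℚ] ((K k →+* ℂ) → ℚ) :=
      { toFun := fun m φ => oproj W (ext i m) ⟨k, φ⟩
        map_add' := fun a b => by
          funext φ
          rw [map_add, map_add]
          rfl
        map_smul' := fun c a => by
          funext φ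
          rw [map_smul, map_smul]
          rfl }
    have h1 := hun i k hik T (by
      intro τ m φ
      change oproj W (ext i fun ψ => m ((τ : ℂ →+* ℂ).comp ψ)) ⟨k, φ⟩ =
        oproj W (ext i m) ⟨k, (τ : ℂ →+* ℂ).comp φ⟩
      rw [ext_act, hP]
      rfl) (by
      intro m φ
      exact hodd _ (oproj_mem W _) ⟨k, φ⟩) m hm
    exact congrFun h1 φ
  have hoddn := hodd n hn
  have hcomp : ∀ i, IsOdd (fun φ : K i →+* ℂ => n ⟨i, φ⟩) := fun i φ => hoddn ⟨i, φ⟩
  have hsum : n = ∑ k, oproj W (ext k (fun φ => n ⟨k, φ⟩)) := by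
    have h1 := oproj_eq W hn
    conv_lhs => rw [← h1, ext_sum n, map_sum]
  have hkey : oproj W (ext i (fun φ => n ⟨i, φ⟩)) = ext i (fun φ => n ⟨i, φ⟩) := by
    funext y
    obtain ⟨k, φ⟩ := y
    by_cases hk : i = k
    · subst hk
      rw [ext_same]
      have h1 := congrFun hsum ⟨i, φ⟩
      rw [Finset.sum_apply, Finset.sum_eq_single i] at h1
      · exact h1.symm
      · intro k _ hki
        exact hoff k i hki _ (hcomp k) φ
      · intro h
        exact absurd (Finset.mem_univ _) h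
    · rw [hoff i k hk _ (hcomp i) φ, ext_ne i _ _ (Ne.symm hk)]
  rw [← hkey]
  exact oproj_mem W _

end emb

end Pool.Agent.H855.CM
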