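import Mathlib
import Pool.Graph.R_pool_sql_team_seeded_843ab51a.V1168.EF.Rel
import Pool.Agent.H855.CM.Sep
import Pool.Agent.H855.CM.RelDefs

/-!
# The exceptional factors for pairwise unrelated fields
-/

set_option autoImplicit false
set_option linter.unusedSectionVars false
set_option linter.unusedVariables false

namespace Pool.Agent.H855.CM

open NumberField Finset Module Polynomial Pool.Agent.Y1.CT Pool.Agent.TH170.MF Pool.Agent.TH170
  Pool.Agent.V1168.EV Pool.Agent.V1168.EF Pool.Agent.W484.HS Pool.Agent.Y137.MV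

section comb

variable {I : Type} [Fintype I] {K : I → Type} [∀ i, Field (K i)] [∀ i, NumberField (K i)]
  [∀ i, IsCMField (K i)]

/-- The functions of the automorphisms given by rational functions on the embeddings. -/
noncomputable def relMap (x : Emb K → ℝ) : (Emb K → ℚ) →ₗ[ℚ] ((ℂ ≃+* ℂ) → ℝ) where
  toFun n σ := ∑ y, (n y : ℝ) * x (act σ y)
  map_add' n n' := by
    funext σ
    rw [Pi.add_apply, ← Finset.sum_add_distrib]
    refine Finset.sum_congr rfl fun y _ => ?_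
    rw [Pi.add_apply]
    push_cast
    ring
  map_smul' c n := by
    funext σ
    rw [RingHom.id_apply, Pi.smul_apply, Rat.smul_def, Finset.mul_sum]
    refine Finset.sum_congr rfl fun y _ => ?_
    rw [Pi.smul_apply, smul_eq_mul]
    push_cast
    ring

theorem relMap_apply (x : Emb K → ℝ) (n : Emb K → ℚ) (σ : ℂ ≃+* ℂ) :
    relMap x n σ = ∑ y, (n y : ℝ) * x (act σ y) := rfl

/-- The space is stable under translations. -/
def TranslatesQ (F : Submodule ℚ ((ℂ ≃+* ℂ) → ℝ)) : Prop :=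
  ∀ f ∈ F, ∀ τ : ℂ ≃+* ℂ, (fun σ => f (τ.trans σ)) ∈ F

theorem relMap_act (x : Emb K → ℝ) (n : Emb K → ℚ) (τ : ℂ ≃+* ℂ) :
    relMap x (fun y => n (act τ y)) = fun σ => relMap x n (τ.symm.trans σ) := by
  funext σ
  rw [relMap_apply, relMap_apply]
  refine Fintype.sum_equiv (act τ) _ _ fun y => ?_
  have h2 : act (τ.symm.trans σ) (act τ y) = act σ y := by
    rcases y with ⟨i, φ⟩
    refine Sigma.ext rfl (heq_of_eq ?_)
    ext z
    change σ (τ.symm (τ (φ z))) = σ (φ z)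
    rw [RingEquiv.symm_apply_apply]
  rw [h2]

/-- The odd functions with values in `F`. -/
noncomputable def relSpace (x : Emb K → ℝ) (F : Submodule ℚ ((ℂ ≃+* ℂ) → ℝ)) :
    Submodule ℚ (Emb K → ℚ) where
  carrier := {n | OddQ n ∧ relMap x n ∈ F}
  zero_mem' := ⟨fun y => by simp, by rw [map_zero]; exact F.zero_mem⟩
  add_mem' := by
    rintro n n' ⟨h1, h2⟩ ⟨h3, h4⟩
    refine ⟨fun y => ?_, ?_⟩
    · rw [Pi.add_apply, Pi.add_apply, h1, h3]
      ring
    · rw [map_add]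
      exact F.add_mem h2 h4
  smul_mem' := by
    rintro c n ⟨h1, h2⟩
    refine ⟨fun y => ?_, ?_⟩
    · rw [Pi.smul_apply, Pi.smul_apply, h1, smul_neg]
    · rw [map_smul]
      exact F.smul_mem c h2

theorem mem_relSpace {x : Emb K → ℝ} {F : Submodule ℚ ((ℂ ≃+* ℂ) → ℝ)} {n : Emb K → ℚ} :
    n ∈ relSpace x F ↔ OddQ n ∧ relMap x n ∈ F := Iff.rfl

theorem relSpace_stable (x : Emb K → ℝ) {F : Submodule ℚ ((ℂ ≃+* ℂ) → ℝ)} (hF : TranslatesQ F)
    (τ : ℂ ≃+* ℂ) (n : Emb K → ℚ) (hn : n ∈ relSpace x F) :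
    (fun y => n (act τ y)) ∈ relSpace x F := by
  refine ⟨fun y => ?_, ?_⟩
  · change n (act τ (Pool.Agent.V1168.EV.bar y)) = - n (act τ y)
    rw [act_bar, hn.1]
  · rw [relMap_act]
    exact hF _ hn.2 τ.symm

/-- The functions of the automorphisms given by rational functions on the embeddings of one field. -/
noncomputable def oneMap {E : Type} [Field E] [NumberField E] (x : (E →+* ℂ) → ℝ) :
    ((E →+* ℂ) → ℚ) →ₗ[ℚ] ((ℂ ≃+* ℂ) → ℝ) where
  toFun n σ := ∑ φ, (n φ : ℝ) * x ((σ : ℂ →+* ℂ).comp φ)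
  map_add' n n' := by
    funext σ
    rw [Pi.add_apply, ← Finset.sum_add_distrib]
    refine Finset.sum_congr rfl fun y _ => ?_
    rw [Pi.add_apply]
    push_cast
    ring
  map_smul' c n := by
    funext σ
    rw [RingHom.id_apply, Pi.smul_apply, Rat.smul_def, Finset.mul_sum]
    refine Finset.sum_congr rfl fun y _ => ?_
    rw [Pi.smul_apply, smul_eq_mul]
    push_cast
    ring

theorem oneMap_apply {E : Type} [Field E] [NumberField E] (x : (E →+* ℂ) → ℝ)
    (n : (E →+* ℂ) → ℚ) (σ : ℂ ≃+* ℂ) :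
    oneMap x n σ = ∑ φ, (n φ : ℝ) * x ((σ : ℂ →+* ℂ).comp φ) := rfl

theorem relMap_ext (x : Emb K → ℝ) (i : I) (m : (K i →+* ℂ) → ℚ) :
    relMap x (ext i m) = oneMap (fun φ => x ⟨i, φ⟩) m := by
  classical
  funext σ
  rw [relMap_apply, oneMap_apply, Fintype.sum_sigma, Finset.sum_eq_single i]
  · refine Finset.sum_congr rfl fun φ _ => ?_
    rw [ext_same]
    rfl
  · intro k _ hk
    refine Finset.sum_eq_zero fun φ _ => ?_
    rw [ext_ne i _ _ hk, Rat.cast_zero, zero_mul]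
  · intro h
    exact absurd (Finset.mem_univ _) h

/-- The odd functions on the embeddings of one field with values in `F`. -/
noncomputable def oneSpace {E : Type} [Field E] [NumberField E] (x : (E →+* ℂ) → ℝ)
    (F : Submodule ℚ ((ℂ ≃+* ℂ) → ℝ)) : Submodule ℚ ((E →+* ℂ) → ℚ) where
  carrier := {n | IsOdd n ∧ oneMap x n ∈ F}
  zero_mem' := ⟨fun y => by simp, by rw [map_zero]; exact F.zero_mem⟩
  add_mem' := by
    rintro n n' ⟨h1, h2⟩ ⟨h3, h4⟩
    refine ⟨fun y => ?_, ?_⟩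
    · rw [Pi.add_apply, Pi.add_apply, h1, h3]
      ring
    · rw [map_add]
      exact F.add_mem h2 h4
  smul_mem' := by
    rintro c n ⟨h1, h2⟩
    refine ⟨fun y => ?_, ?_⟩
    · rw [Pi.smul_apply, Pi.smul_apply, h1, smul_neg]
    · rw [map_smul]
      exact F.smul_mem c h2

theorem mem_oneSpace {E : Type} [Field E] [NumberField E] {x : (E →+* ℂ) → ℝ}
    {F : Submodule ℚ ((ℂ ≃+* ℂ) → ℝ)} {n : (E →+* ℂ) → ℚ} :
    n ∈ oneSpace x F ↔ IsOdd n ∧ oneMap x n ∈ F := Iff.rfl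

theorem oneSpace_stable {E : Type} [Field E] [NumberField E] [IsCMField E] (x : (E →+* ℂ) → ℝ)
    {F : Submodule ℚ ((ℂ ≃+* ℂ) → ℝ)} (hF : TranslatesQ F)
    (τ : ℂ ≃+* ℂ) (n : (E →+* ℂ) → ℚ) (hn : n ∈ oneSpace x F) :
    (fun φ => n ((τ : ℂ →+* ℂ).comp φ)) ∈ oneSpace x F := by
  let e : (E →+* ℂ) ≃ (E →+* ℂ) :=
    { toFun := fun φ => (τ : ℂ →+* ℂ).comp φ
      invFun := fun φ => (τ.symm : ℂ →+* ℂ).comp φ
      left_inv := fun φ => by ext z; simp
      right_inv := fun φ => by ext z; simp }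
  refine ⟨fun φ => ?_, ?_⟩
  · change n ((τ : ℂ →+* ℂ).comp (ComplexEmbedding.conjugate φ)) = - n ((τ : ℂ →+* ℂ).comp φ)
    rw [QC.comp_conj τ φ, hn.1]
  · have h1 : oneMap x (fun φ => n ((τ : ℂ →+* ℂ).comp φ)) =
        fun σ => oneMap x n (τ.symm.trans σ) := by
      funext σ
      rw [oneMap_apply, oneMap_apply]
      refine Fintype.sum_equiv e _ _ fun φ => ?_
      have h2 : ((τ.symm.trans σ : ℂ ≃+* ℂ) : ℂ →+* ℂ).comp (e φ) = (σ : ℂ →+* ℂ).comp φ := by
        ext z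
        change σ (τ.symm (τ (φ z))) = σ (φ z)
        rw [RingEquiv.symm_apply_apply]
      rw [h2]
      rfl
    rw [h1]
    exact hF _ hn.2 τ.symm

/-- If there are no relations for the single fields there are none. -/
theorem relMap_injOn (hun : ∀ i k, i ≠ k → Unrelated (K i) (K k)) (x : Emb K → ℝ)
    (hone : ∀ i, ∀ m : (K i →+* ℂ) → ℚ, IsOdd m → oneMap (fun φ => x ⟨i, φ⟩) m = 0 → m = 0)
    (n : Emb K → ℚ) (hn : OddQ n) (h : relMap x n = 0) : n = 0 := by
  classical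
  have hF : TranslatesQ (⊥ : Submodule ℚ ((ℂ ≃+* ℂ) → ℝ)) := by
    intro f hf τ
    rw [Submodule.mem_bot] at hf ⊢
    rw [hf]
    rfl
  have h1 : n ∈ relSpace x ⊥ := ⟨hn, by rw [h]; exact Submodule.zero_mem _⟩
  have h2 : ∀ i, ext i (fun φ => n ⟨i, φ⟩) = (0 : Emb K → ℚ) := by
    intro i
    have h3 := comp_mem hun (relSpace x ⊥) (fun m hm => hm.1)
      (fun τ m hm => relSpace_stable x hF τ m hm) h1 i
    have h4 := h3.2
    rw [relMap_ext, Submodule.mem_bot] at h4
    have h5 := hone i _ (fun φ => hn ⟨i, φ⟩) h4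
    rw [h5, map_zero]
  rw [ext_sum n]
  exact Finset.sum_eq_zero fun i _ => h2 i

end comb

section span

variable {p : ℕ} [Fact p.Prime] (ν : PadicAlgCl p ≃+* ℂ) (Ω : Finset ℂ)

/-- The rational space generated by the functions `oddLog`. -/
noncomputable def logSpanQ : Submodule ℚ ((ℂ ≃+* ℂ) → ℝ) :=
  Submodule.span ℚ (oddLog ν '' (Ω : Set ℂ))

instance : FiniteDimensional ℚ (logSpanQ ν Ω) :=
  FiniteDimensional.span_of_finite ℚ (Ω.finite_toSet.image _)

variable {ν Ω}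

theorem oddLog_memQ {β : ℂ} (h : β ∈ Ω) : oddLog ν β ∈ logSpanQ ν Ω :=
  Submodule.subset_span ⟨β, h, rfl⟩

theorem translates_logSpanQ (hΩ : IsStable Ω) : TranslatesQ (logSpanQ ν Ω) := by
  intro f hf τ
  unfold logSpanQ at hf
  induction hf using Submodule.span_induction with
  | mem f hf =>
    obtain ⟨β, hβ, rfl⟩ := hf
    exact oddLog_memQ (ν := ν) (hΩ.map_mem β hβ τ)
  | zero => exact (logSpanQ ν Ω).zero_mem
  | add f g _ _ hf hg => exact (logSpanQ ν Ω).add_mem hf hg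
  | smul c f _ hf => exact (logSpanQ ν Ω).smul_mem c hf

open Classical in
theorem finrank_logSpanQ (hΩ : IsStable Ω) : 2 * finrank ℚ (logSpanQ ν Ω) ≤ Ω.card := by
  let P : Finset ℂ := Ω.filter fun β => 0 < β.im
  have hconj : ∀ β ∈ Ω, starRingEnd ℂ β ∈ Ω := fun β hβ =>
    hΩ.map_mem β hβ (starRingAut : ℂ ≃+* ℂ)
  have h1 : logSpanQ ν Ω ≤ Submodule.span ℚ
      ((P.image (oddLog ν) : Finset ((ℂ ≃+* ℂ) → ℝ)) : Set ((ℂ ≃+* ℂ) → ℝ)) := by
    unfold logSpanQ
    rw [Submodule.span_le]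
    rintro _ ⟨β, hβ, rfl⟩
    have hβ' : β ∈ Ω := hβ
    rcases lt_trichotomy 0 β.im with h | h | h
    · refine Submodule.subset_span ?_
      rw [Finset.coe_image]
      exact ⟨β, Finset.mem_coe.2 (Finset.mem_filter.2 ⟨hβ', h⟩), rfl⟩
    · have h2 : starRingEnd ℂ β = β := by
        apply Complex.ext
        · simp
        · simp [← h]
      have h3 := oddLog_conj (ν := ν) hΩ hβ'
      rw [h2] at h3
      have h4 : oddLog ν β = 0 := by
        funext σ
        have h5 := congrFun h3 σ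
        change oddLog ν β σ = - oddLog ν β σ at h5
        change oddLog ν β σ = 0
        linarith
      change oddLog ν β ∈ _
      rw [h4]
      exact Submodule.zero_mem _
    · have h3 := oddLog_conj (ν := ν) hΩ hβ'
      have h4 : oddLog ν β = - oddLog ν (starRingEnd ℂ β) := by rw [h3, neg_neg]
      change oddLog ν β ∈ _
      rw [h4]
      refine Submodule.neg_mem _ (Submodule.subset_span ?_)
      rw [Finset.coe_image]
      refine ⟨_, Finset.mem_coe.2 (Finset.mem_filter.2 ⟨hconj β hβ', ?_⟩), rfl⟩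
      rw [Complex.conj_im]
      linarith
  have h2 : finrank ℚ (logSpanQ ν Ω) ≤ P.card := by
    refine (Submodule.finrank_mono h1).trans ((finrank_span_finset_le_card _).trans ?_)
    exact Finset.card_image_le
  have h3 : P.card + P.card ≤ Ω.card := by
    let N : Finset ℂ := Ω.filter fun β => β.im < 0
    have h4 : P.card ≤ N.card := by
      refine Finset.card_le_card_of_injOn (starRingEnd ℂ) (fun β hβ => ?_)
        (fun a _ b _ h => (starRingEnd ℂ).injective h)
      obtain ⟨h5, h6⟩ := Finset.mem_filter.1 (Finset.mem_coe.1 hβ)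
      refine Finset.mem_coe.2 (Finset.mem_filter.2 ⟨hconj β h5, ?_⟩)
      rw [Complex.conj_im]
      linarith
    have h5 : Disjoint P N := by
      rw [Finset.disjoint_filter]
      intro β _ h6 h7
      exact lt_asymm h6 h7
    have h6 : P ∪ N ⊆ Ω := Finset.union_subset (Finset.filter_subset _ _)
      (Finset.filter_subset _ _)
    have h7 := Finset.card_le_card h6
    rw [Finset.card_union_of_disjoint h5] at h7
    omega
  omega

theorem generated_memQ (hΩ : IsStable Ω) {ρ : ℂ} (h : Generated p Ω ρ) :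
    oddLog ν ρ ∈ logSpanQ ν Ω := by
  classical
  obtain ⟨h0, m, n, k, hm, hρ⟩ := h
  have hp0 : (p : ℂ) ≠ 0 := Nat.cast_ne_zero.2 (Fact.out : p.Prime).ne_zero
  have hm' : (m : ℝ) ≠ 0 := Nat.cast_ne_zero.2 hm.ne'
  have h1 : ∀ σ : ℂ ≃+* ℂ, m * lg ν (σ ρ) = ∑ β ∈ Ω, n β * lg ν (σ β) - k := by
    intro σ
    rw [← lg_pow, ← map_pow, hρ, map_mul, map_prod, map_zpow₀, map_natCast,
      lg_mul (Finset.prod_ne_zero_iff.2 fun β hβ => by
        rw [map_zpow₀]
        exact zpow_ne_zero _ ((_root_.map_ne_zero σ).2 (hΩ.ne_zero β hβ)))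
      (zpow_ne_zero _ hp0), lg_zpow, lg_p,
      lg_prod _ _ fun β hβ => by
        rw [map_zpow₀]
        exact zpow_ne_zero _ ((_root_.map_ne_zero σ).2 (hΩ.ne_zero β hβ))]
    simp only [map_zpow₀, lg_zpow]
    ring
  have h2 : oddLog ν ρ = ∑ β ∈ Ω, ((n β : ℚ) / m) • oddLog ν β := by
    funext σ
    rw [Finset.sum_apply]
    simp only [Pi.smul_apply, Rat.smul_def]
    change lg ν (σ ρ) - lg ν ((σ.trans starRingAut) ρ) = ∑ β ∈ Ω, (((n β : ℚ) / m : ℚ) : ℝ) *
      (lg ν (σ β) - lg ν ((σ.trans starRingAut) β))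
    apply mul_left_cancel₀ hm'
    rw [mul_sub, h1, h1, Finset.mul_sum]
    rw [sub_sub_sub_cancel_right, ← Finset.sum_sub_distrib]
    refine Finset.sum_congr rfl fun β _ => ?_
    push_cast
    field_simp
  rw [h2]
  exact Submodule.sum_mem _ fun β hβ => Submodule.smul_mem _ _ (oddLog_memQ hβ)

end span

section rel

variable {p : ℕ} [Fact p.Prime] {ν : PadicAlgCl p ≃+* ℂ} {a : ℕ} {I : Type} [Fintype I]
  {K : I → Type} [∀ i, Field (K i)] [∀ i, NumberField (K i)] [∀ i, IsCMField (K i)]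
  {π : ∀ i, K i} {Ω : Finset ℂ}

/-- The counting function of a relation is even. -/
theorem even_ofQ
    (hw : ∀ i, π i * IsCMField.complexConj (K i) (π i) = (p : K i) ^ a)
    (hout : relSpace (slopes ν a π) (logSpanQ ν Ω) = ⊥) {ρ : ℂ} (hρ : oddLog ν ρ ∈ logSpanQ ν Ω) (cnt : Emb K → ℚ) (c₁ : ℚ) (c₂ : ℝ)
    (h : ∀ σ : ℂ ≃+* ℂ, ∑ y, (cnt y : ℝ) * slopes ν a π (act σ y) = c₁ * lg ν (σ ρ) + c₂)
    (y : Emb K) : cnt y = cnt (Pool.Agent.V1168.EV.bar y) := by
  classical
  have hx := odd_slopes (ν := ν) hw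
  let m : Emb K → ℚ := fun y => cnt y - cnt (Pool.Agent.V1168.EV.bar y)
  have hm : OddQ m := by
    intro y
    change cnt (Pool.Agent.V1168.EV.bar y) - cnt (Pool.Agent.V1168.EV.bar (Pool.Agent.V1168.EV.bar y)) = -(cnt y - cnt (Pool.Agent.V1168.EV.bar y))
    rw [bar_bar]
    ring
  have h1 : ∀ σ : ℂ ≃+* ℂ, ∑ y, (m y : ℝ) * slopes ν a π (act σ y) =
      (2 * c₁) * lg ν (σ ρ) + 2 * c₂ := by
    intro σ
    have h2 := sum_odd (m := fun y => (cnt y : ℝ)) hx σ
    have h3 : ∀ y, (m y : ℝ) = (cnt y : ℝ) - (cnt (Pool.Agent.V1168.EV.bar y) : ℝ) := fun y => by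
      simp only [m]
      push_cast
      ring
    simp only [h3]
    rw [h2, h]
    ring
  have h2 := odd_part (g := fun σ => lg ν (σ ρ)) hx h1
  have h3 : relMap (slopes ν a π) m = (c₁ : ℚ) • oddLog ν ρ := by
    funext σ
    rw [relMap_apply, h2 σ, Pi.smul_apply, Rat.smul_def]
    change 2 * (c₁ : ℝ) * ((lg ν (σ ρ) - lg ν ((σ.trans starRingAut) ρ)) / 2) =
      c₁ * (lg ν (σ ρ) - lg ν ((σ.trans starRingAut) ρ))
    ring
  have h4 : m ∈ relSpace (slopes ν a π) (logSpanQ ν Ω) := by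
    refine ⟨hm, ?_⟩
    rw [h3]
    exact Submodule.smul_mem _ _ hρ
  rw [hout, Submodule.mem_bot] at h4
  have h8 : m y = 0 := congrFun h4 y
  exact sub_eq_zero.1 h8

theorem exactPair_ofQ
    (hw : ∀ i, π i * IsCMField.complexConj (K i) (π i) = (p : K i) ^ a)
    (hout : relSpace (slopes ν a π) (logSpanQ ν Ω) = ⊥)
    (f : I → ℤ[X]) (hf : ∀ i, IsPolyOf (π i) (f i)) (s : ℕ) (hs : 0 < s) (ρ : ℂ)
    (hρ0 : ρ ≠ 0) (hρ : oddLog ν ρ ∈ logSpanQ ν Ω) :
    ExactPairK (fun z : Root f => (z : ℂ) ^ s) (((p ^ a : ℕ) : ℂ) ^ s) ρ := by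
  classical
  intro n c N hN hn ys hlen hrel hpw
  have hπ0 := weil_ne hw
  let x : Emb K → ℝ := slopes ν a π
  have hz : ∀ z : Root f, ∃ y : Emb K, y.2 (π y.1) = z := by
    rintro ⟨z, i, hi⟩
    obtain ⟨φ, hφ⟩ := (hf i).2 z hi
    exact ⟨⟨i, φ⟩, hφ⟩
  choose idx hidx using hz
  have hz0 : ∀ z : Root f, (z : ℂ) ≠ 0 := by
    intro z
    rw [← hidx z]
    exact (_root_.map_ne_zero _).2 (hπ0 _)
  have hdev : ∀ (σ : ℂ ≃+* ℂ) (z : Root f), -(2 * lg ν (σ z)) = a + x (act σ (idx z)) := by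
    intro σ z
    have h1 := two_lg (ν := ν) (a := a) (π := π) (idx z) σ
    rw [hidx z] at h1
    exact h1
  have hN0 : (N : ℝ) ≠ 0 := Nat.cast_ne_zero.2 hN.ne'
  have hlog : ∀ σ : ℂ ≃+* ℂ, s * (ys.map fun z : Root f => lg ν (σ z)).sum + lg ν (σ ρ) =
      -(c * (s * a)) := by
    intro σ
    have h1 := congrArg (fun x => lg ν (σ x)) hrel
    simp only [map_pow, map_mul, map_zpow₀, lg_pow, lg_zpow] at h1
    have h2 := mul_left_cancel₀ hN0 h1
    have h3 : σ ((ys.map fun z : Root f => (z : ℂ) ^ s).prod) =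
        (ys.map fun z : Root f => (σ z) ^ s).prod := by
      rw [_root_.map_list_prod, List.map_map]
      congr 1
      refine List.map_congr_left fun z _ => ?_
      rw [Function.comp_apply, map_pow]
    rw [h3] at h2
    obtain ⟨h4, h5⟩ := lg_list (ν := ν) (fun z : Root f => (σ (z : ℂ)) ^ s) ys
      (fun z _ => pow_ne_zero _ ((_root_.map_ne_zero σ).2 (hz0 z)))
    rw [lg_mul h4 ((_root_.map_ne_zero σ).2 hρ0), h5] at h2
    have h6 : (ys.map fun z : Root f => lg ν ((σ (z : ℂ)) ^ s)).sum =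
        s * (ys.map fun z : Root f => lg ν (σ z)).sum := by
      rw [← List.sum_map_mul_left]
      congr 1
      refine List.map_congr_left fun z _ => ?_
      rw [lg_pow]
    rw [h6] at h2
    rw [h2, map_natCast]
    push_cast
    rw [lg_pow, lg_p]
    ring
  have hsum : ∀ σ : ℂ ≃+* ℂ, (ys.map fun z : Root f => x (act σ (idx z))).sum =
      2 * (c * a + lg ν (σ ρ) / s) - a * n := by
    intro σ
    have h1 : (ys.map fun z : Root f => x (act σ (idx z))).sum =
        -(2 * (ys.map fun z : Root f => lg ν (σ z)).sum) - a * n := by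
      have h2 : ∀ l : List (Root f), (l.map fun z : Root f => x (act σ (idx z))).sum =
          -(2 * (l.map fun z : Root f => lg ν (σ z)).sum) - a * l.length := by
        intro l
        induction l with
        | nil => simp
        | cons z l ih =>
          rw [List.map_cons, List.sum_cons, ih, List.map_cons, List.sum_cons, List.length_cons]
          have h3 := hdev σ z
          push_cast
          linarith
      rw [h2, hlen]
    have hs' : (s : ℝ) ≠ 0 := Nat.cast_ne_zero.2 hs.ne'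
    have h2 : (ys.map fun z : Root f => lg ν (σ z)).sum =
        -(c * a) - lg ν (σ ρ) / s := by
      apply mul_left_cancel₀ hs'
      rw [mul_sub, mul_div_cancel₀ _ hs']
      have := hlog σ
      linarith
    rw [h1, h2]
    ring
  let cnt : Emb K → ℝ := fun y => (ys.map fun z => if idx z = y then (1 : ℝ) else 0).sum
  let cntQ : Emb K → ℚ := fun y => (ys.map fun z => if idx z = y then (1 : ℚ) else 0).sum
  have hcast : ∀ y, ((cntQ y : ℚ) : ℝ) = cnt y := by
    intro y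
    simp only [cntQ, cnt]
    rw [Rat.cast_list_sum, List.map_map]
    congr 1
    refine List.map_congr_left fun z _ => ?_
    simp only [Function.comp_apply]
    split_ifs <;> simp
  have hcntQ : ∀ y, cntQ y = cntQ (Pool.Agent.V1168.EV.bar y) := by
    refine even_ofQ hw hout hρ cntQ (2 / s) (2 * (c * a) - a * n) fun σ => ?_
    have h4 := sum_list idx (fun y => x (act σ y)) ys
    change ∑ y, cnt y * x (act σ y) = _ at h4
    change ∑ y, (cntQ y : ℝ) * x (act σ y) = _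
    simp only [hcast]
    rw [h4, hsum]
    push_cast
    ring
  have hcnt : ∀ y, cnt y = cnt (Pool.Agent.V1168.EV.bar y) := fun y => by rw [← hcast, ← hcast, hcntQ]
  obtain ⟨z₀, hz₀⟩ := List.exists_mem_of_length_pos (l := ys) (by omega)
  have h1 : 0 < cnt (idx z₀) := (count_pos idx _ ys).2 ⟨z₀, hz₀, rfl⟩
  rw [hcnt] at h1
  obtain ⟨z₁, hz₁, h2⟩ := (count_pos idx _ ys).1 h1
  have hne : z₀ ≠ z₁ := by
    rintro rfl
    exact bar_ne _ h2.symm
  have hsymm : Std.Symm (fun y y' : Root f => (y : ℂ) ^ s * (y' : ℂ) ^ s ≠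
      ((p ^ a : ℕ) : ℂ) ^ s) := ⟨by
    intro x y h h'
    exact h (by rw [mul_comm]; exact h')⟩
  refine hpw.forall hz₀ hz₁ hne ?_
  have h3 : (z₁ : ℂ) = ComplexEmbedding.conjugate (idx z₀).2 (π (idx z₀).1) := by
    rw [← hidx z₁, h2]
    rfl
  change (z₀ : ℂ) ^ s * (z₁ : ℂ) ^ s = _
  rw [h3, ← hidx z₀, ← mul_pow, lg_weil hw]
  push_cast
  rfl

end rel

end Pool.Agent.H855.CM
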