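import Mathlib
import Pool.Graph.R_pool_sql_team_seeded_2aa45f1a.Q306.TP.PrimeUn
import Pool.Graph.R_pool_sql_team_seeded_2aa45f1a.Q306.TP.Closure
import Pool.Agent.H855.CM.Crit
import Pool.Agent.H855.CM.Rel
import Pool.Agent.H855.CM.TriDefs

/-!
# Good fields: unrelated fields, slope relations and the dimension of stable spaces
-/

set_option autoImplicit false
set_option linter.unusedSectionVars false
set_option linter.unusedVariables false

namespace Pool.Agent.H855.CM

open NumberField Module IntermediateField Pool.Agent.Y137.MV Pool.Agent.V1168.EV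
  Pool.Agent.Q306.TP

section tri

variable (K : Type) [Field K] [NumberField K] [IsCMField K]

/-- The stable spaces of odd functions are zero, everything, or (if the degree is at least six) the
line of the character of an imaginary quadratic subfield, or its orthogonal space. -/
def Tri : Prop :=
  ∀ W : Submodule ℚ ((K →+* ℂ) → ℚ), (∀ n ∈ W, IsOdd n) →
    (∀ τ : ℂ ≃+* ℂ, ∀ n ∈ W, (fun φ => n ((τ : ℂ →+* ℂ).comp φ)) ∈ W) →
    W = ⊥ ∨ (∀ n, IsOdd n → n ∈ W) ∨
      (6 ≤ finrank ℚ K ∧ ∃ (x : K) (n : ℕ) (u : (K →+* ℂ) → ℚ), 0 < n ∧ x ^ 2 = -(n : K) ∧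
        IsOdd u ∧ (∀ φ, u φ = 1 ∨ u φ = -1) ∧ (∀ φ φ', φ x = φ' x ↔ u φ = u φ') ∧
        ((u ∈ W ∧ ∀ f ∈ W, ∃ c : ℚ, f = c • u) ∨
          ∀ f, f ∈ W ↔ IsOdd f ∧ ∑ φ, f φ * u φ = 0))

variable {K}

theorem Tri.of_irr (h : OddIrreducible K) : Tri K := by
  intro W h1 h2
  rcases h W h1 h2 with h3 | h3
  · exact Or.inl h3
  · exact Or.inr (Or.inl h3)

theorem Tri.of_good (h : IsGoodField K) : Tri K := by
  rcases h with h | ⟨g, hg, hodd, hK⟩ | ⟨g, h⟩
  · exact Tri.of_irr h
  · intro W h1 h2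
    have h6 : 6 ≤ finrank ℚ K := by
      have := hg.two_le
      omega
    rcases prime_triC hg hodd hK W h1 h2 with h3 | h3 | h3
    · exact Or.inl h3
    · exact Or.inr (Or.inl h3)
    · exact Or.inr (Or.inr ⟨h6, h3⟩)
  · intro W h1 h2
    have h6 : 6 ≤ finrank ℚ K := by
      obtain ⟨h4, r, hr, n, φ, hp, -⟩ := h
      have h1 := hp.two_le
      have h2 := hp.lt
      omega
    rcases place_triC h W h1 h2 with h3 | h3 | h3
    · exact Or.inl h3
    · exact Or.inr (Or.inl h3)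
    · exact Or.inr (Or.inr ⟨h6, h3⟩)

theorem Tri.irr (h : Tri K) (himag : NoImaginaryQuadratic K) : OddIrreducible K := by
  intro W h1 h2
  rcases h W h1 h2 with h3 | h3 | ⟨-, x, n, u, hn, hx, -⟩
  · exact Or.inl h3
  · exact Or.inr h3
  · exact absurd hx (himag x n hn)

end tri

section dd

variable {K : Type} [Field K] [NumberField K] [IsCMField K]

open Classical in
/-- The basic odd functions. -/
noncomputable def dd (χ : K →+* ℂ) : (K →+* ℂ) → ℚ := fun ψ =>
  (if ψ = χ then 1 else 0) - (if ψ = ComplexEmbedding.conjugate χ then 1 else 0)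

theorem dd_odd (χ : K →+* ℂ) : IsOdd (dd χ) := by
  classical
  intro χ'
  have h3 : ComplexEmbedding.conjugate χ' = χ ↔ χ' = ComplexEmbedding.conjugate χ :=
    ⟨fun h => by rw [← h, conj_conj'], fun h => by rw [h, conj_conj']⟩
  have h4 : ComplexEmbedding.conjugate χ' = ComplexEmbedding.conjugate χ ↔ χ' = χ :=
    ⟨fun h => by rw [← conj_conj' χ', h, conj_conj'], fun h => by rw [h]⟩
  simp only [dd, h3, h4]
  ring

theorem dd_self (χ : K →+* ℂ) : dd χ χ = 1 := by
  unfold dd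
  rw [if_pos rfl, if_neg (conj_ne' χ).symm, sub_zero]

theorem dd_conj (χ : K →+* ℂ) : dd χ (ComplexEmbedding.conjugate χ) = -1 := by
  rw [dd_odd, dd_self]

theorem dd_of_ne {χ ψ : K →+* ℂ} (h1 : ψ ≠ χ) (h2 : ψ ≠ ComplexEmbedding.conjugate χ) :
    dd χ ψ = 0 := by
  unfold dd
  rw [if_neg h1, if_neg h2, sub_zero]

theorem comp_conj_aut (τ : ℂ ≃+* ℂ) (φ : K →+* ℂ) :
    (τ : ℂ →+* ℂ).comp (ComplexEmbedding.conjugate φ) =
      ComplexEmbedding.conjugate ((τ : ℂ →+* ℂ).comp φ) := comp_conj' (τ : ℂ →+* ℂ) φ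

theorem comp_symm_comp {F : Type} [Field F] (τ : ℂ ≃+* ℂ) (φ : F →+* ℂ) :
    (τ : ℂ →+* ℂ).comp ((τ.symm : ℂ →+* ℂ).comp φ) = φ := by
  ext z
  simp

theorem symm_comp_comp {F : Type} [Field F] (τ : ℂ ≃+* ℂ) (φ : F →+* ℂ) :
    (τ.symm : ℂ →+* ℂ).comp ((τ : ℂ →+* ℂ).comp φ) = φ := by
  ext z
  simp

theorem comp_inj_aut {F : Type} [Field F] (τ : ℂ ≃+* ℂ) {φ ψ : F →+* ℂ}
    (h : (τ : ℂ →+* ℂ).comp φ = (τ : ℂ →+* ℂ).comp ψ) : φ = ψ := by
  rw [← symm_comp_comp τ φ, h, symm_comp_comp]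

/-- Translation of the basic functions. -/
theorem dd_comp (τ : ℂ ≃+* ℂ) (χ ψ : K →+* ℂ) :
    dd ((τ : ℂ →+* ℂ).comp χ) ((τ : ℂ →+* ℂ).comp ψ) = dd χ ψ := by
  classical
  unfold dd
  rw [← comp_conj_aut]
  have h1 : ∀ φ φ' : K →+* ℂ, (τ : ℂ →+* ℂ).comp φ = (τ : ℂ →+* ℂ).comp φ' ↔ φ = φ' :=
    fun φ φ' => ⟨comp_inj_aut τ, fun h => by rw [h]⟩
  simp only [h1]

theorem sum_dd (χ : K →+* ℂ) (f : (K →+* ℂ) → ℝ) :
    ∑ φ, (dd χ φ : ℝ) * f φ = f χ - f (ComplexEmbedding.conjugate χ) := by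
  classical
  have h6 : ∀ ψ, (dd χ ψ : ℝ) * f ψ = (if ψ = χ then f ψ else 0) -
      (if ψ = ComplexEmbedding.conjugate χ then f ψ else 0) := by
    intro ψ
    unfold dd
    split_ifs <;> push_cast <;> ring
  rw [Finset.sum_congr rfl fun ψ _ => h6 ψ, Finset.sum_sub_distrib,
    Finset.sum_ite_eq' Finset.univ χ, Finset.sum_ite_eq' Finset.univ
      (ComplexEmbedding.conjugate χ), if_pos (Finset.mem_univ _), if_pos (Finset.mem_univ _)]

theorem sum_ddQ (χ : K →+* ℂ) (f : (K →+* ℂ) → ℚ) :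
    ∑ φ, dd χ φ * f φ = f χ - f (ComplexEmbedding.conjugate χ) := by
  classical
  have h6 : ∀ ψ, dd χ ψ * f ψ = (if ψ = χ then f ψ else 0) -
      (if ψ = ComplexEmbedding.conjugate χ then f ψ else 0) := by
    intro ψ
    unfold dd
    split_ifs <;> ring
  rw [Finset.sum_congr rfl fun ψ _ => h6 ψ, Finset.sum_sub_distrib,
    Finset.sum_ite_eq' Finset.univ χ, Finset.sum_ite_eq' Finset.univ
      (ComplexEmbedding.conjugate χ), if_pos (Finset.mem_univ _), if_pos (Finset.mem_univ _)]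

/-- Odd functions are combinations of the basic ones. -/
theorem odd_eq_sum (n : (K →+* ℂ) → ℚ) (hn : IsOdd n) :
    (2 : ℚ) • n = ∑ χ, n χ • dd χ := by
  classical
  funext ψ
  rw [Finset.sum_apply, Pi.smul_apply, smul_eq_mul]
  have h1 : ∀ χ, (n χ • dd χ) ψ = n χ * dd χ ψ := fun χ => rfl
  simp only [h1]
  have h2 : ∀ χ : K →+* ℂ, dd χ ψ = dd ψ χ := by
    intro χ
    unfold dd
    have h3 : ψ = ComplexEmbedding.conjugate χ ↔ χ = ComplexEmbedding.conjugate ψ :=
      ⟨fun h => by rw [h, conj_conj'], fun h => by rw [h, conj_conj']⟩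
    simp only [h3, eq_comm]
  have h3 : ∀ χ, n χ * dd χ ψ = dd ψ χ * n χ := fun χ => by rw [h2, mul_comm]
  simp only [h3]
  rw [sum_ddQ, hn]
  ring

end dd

section slopes

variable {p : ℕ} [Fact p.Prime] {ν : PadicAlgCl p ≃+* ℂ} {a : ℕ} {K : Type} [Field K]
  [NumberField K] [IsCMField K] {π : K}

theorem slopeVector_odd (hw : π * IsCMField.complexConj K π = (p : K) ^ a) (φ : K →+* ℂ) :
    slopeVector ν a π (ComplexEmbedding.conjugate φ) = - slopeVector ν a π φ :=
  odd_slopes (ν := ν) (K := fun _ : Unit => K) (π := fun _ => π) (fun _ => hw) ⟨(), φ⟩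

theorem translates_bot : TranslatesQ (⊥ : Submodule ℚ ((ℂ ≃+* ℂ) → ℝ)) := by
  intro f hf τ
  rw [Submodule.mem_bot] at hf ⊢
  rw [hf]
  rfl

/-- No slope relations for good fields and good slopes. -/
theorem noSlopeRelation_of_tri (hK : Tri K)
    (hw : π * IsCMField.complexConj K π = (p : K) ^ a) (hs : HasGoodSlopes ν a π) :
    NoSlopeRelation ν a π := by
  classical
  have hxo := slopeVector_odd (ν := ν) hw
  set x : (K →+* ℂ) → ℝ := slopeVector ν a π with hxdef
  obtain ⟨⟨φ₁, hφ₁⟩, hs⟩ := hs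
  have hstab : ∀ τ : ℂ ≃+* ℂ, ∀ n ∈ oneSpace x ⊥,
      (fun φ => n ((τ : ℂ →+* ℂ).comp φ)) ∈ oneSpace x ⊥ :=
    fun τ n hn => oneSpace_stable x translates_bot τ n hn
  have hall : ¬ ∀ n, IsOdd n → n ∈ oneSpace x ⊥ := by
    intro h
    have h1 := (h (dd φ₁) (dd_odd φ₁)).2
    rw [Submodule.mem_bot] at h1
    have h2 := congrFun h1 (RingEquiv.refl ℂ)
    rw [oneMap_apply, Pi.zero_apply] at h2
    have h3 : ∀ φ : K →+* ℂ, ((RingEquiv.refl ℂ : ℂ ≃+* ℂ) : ℂ →+* ℂ).comp φ = φ := by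
      intro φ; ext z; rfl
    simp only [h3] at h2
    rw [sum_dd, hxo] at h2
    apply hφ₁
    linarith
  intro n hn hrel
  have hnW : n ∈ oneSpace x ⊥ := ⟨hn, by
    rw [Submodule.mem_bot]
    funext τ
    exact hrel τ⟩
  have hbot : oneSpace x ⊥ = ⊥ → n = 0 := by
    intro h
    rw [h, Submodule.mem_bot] at hnW
    exact hnW
  rcases hs with hirr | hs
  · rcases hirr (oneSpace x ⊥) (fun n hn => hn.1) hstab with h | h
    · exact hbot h
    · exact absurd h hall
  · rcases hK (oneSpace x ⊥) (fun n hn => hn.1) hstab with h | h | ⟨-, y, m, u, hm, hy, huodd, hupm, huy, h⟩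
    · exact hbot h
    · exact absurd h hall
    · exfalso
      obtain ⟨⟨φ, ψ, hφψ, hne⟩, φ₀, hsum⟩ := hs y m hm hy
      rcases h with ⟨hu, -⟩ | h
      · -- the line
        apply hsum
        have h1 := hu.2
        rw [Submodule.mem_bot] at h1
        have h2 := congrFun h1 (RingEquiv.refl ℂ)
        rw [oneMap_apply, Pi.zero_apply] at h2
        have h3 : ∀ φ : K →+* ℂ, ((RingEquiv.refl ℂ : ℂ ≃+* ℂ) : ℂ →+* ℂ).comp φ = φ := by
          intro φ; ext z; rfl
        simp only [h3] at h2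
        have h4 : ∑ᶠ φ ∈ {φ : K →+* ℂ | φ y = φ₀ y}, x φ =
            ∑ φ ∈ Finset.univ.filter (fun φ : K →+* ℂ => u φ = u φ₀), x φ := by
          rw [finsum_mem_eq_sum_of_inter_support_eq (t := Finset.univ.filter
            (fun φ : K →+* ℂ => u φ = u φ₀))]
          congr 1
          ext φ
          simp only [Set.mem_ofPred_eq, Finset.coe_filter, Finset.mem_univ, true_and]
          exact huy φ φ₀
        rw [h4]
        have h5 : ∑ φ ∈ Finset.univ.filter (fun φ : K →+* ℂ => ¬ u φ = u φ₀), x φ =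
            - ∑ φ ∈ Finset.univ.filter (fun φ : K →+* ℂ => u φ = u φ₀), x φ := by
          rw [← Finset.sum_neg_distrib]
          refine Finset.sum_nbij' ComplexEmbedding.conjugate ComplexEmbedding.conjugate
            (fun φ hφ => ?_) (fun φ hφ => ?_) (fun φ _ => conj_conj' φ) (fun φ _ => conj_conj' φ)
            (fun φ _ => by rw [hxo, neg_neg])
          · rw [Finset.mem_filter] at hφ ⊢
            refine ⟨Finset.mem_univ _, ?_⟩
            rw [huodd]
            rcases hupm φ with h | h <;> rcases hupm φ₀ with h' | h' <;> rw [h, h'] at hφ ⊢ <;>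
              simp_all
          · rw [Finset.mem_filter] at hφ ⊢
            refine ⟨Finset.mem_univ _, ?_⟩
            rw [huodd, hφ.2]
            rcases hupm φ₀ with h' | h' <;> rw [h'] <;> norm_num
        have h6 : ∑ φ, (u φ : ℝ) * x φ = (u φ₀ : ℝ) *
            (2 * ∑ φ ∈ Finset.univ.filter (fun φ : K →+* ℂ => u φ = u φ₀), x φ) := by
          rw [← Finset.sum_filter_add_sum_filter_not Finset.univ (fun φ : K →+* ℂ => u φ = u φ₀)]
          have h7 : ∑ φ ∈ Finset.univ.filter (fun φ : K →+* ℂ => u φ = u φ₀), (u φ : ℝ) * x φ =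
              (u φ₀ : ℝ) * ∑ φ ∈ Finset.univ.filter (fun φ : K →+* ℂ => u φ = u φ₀), x φ := by
            rw [Finset.mul_sum]
            refine Finset.sum_congr rfl fun φ hφ => ?_
            rw [(Finset.mem_filter.1 hφ).2]
          have h8 : ∑ φ ∈ Finset.univ.filter (fun φ : K →+* ℂ => ¬ u φ = u φ₀),
              (u φ : ℝ) * x φ = -(u φ₀ : ℝ) *
                ∑ φ ∈ Finset.univ.filter (fun φ : K →+* ℂ => ¬ u φ = u φ₀), x φ := by
            rw [Finset.mul_sum]
            refine Finset.sum_congr rfl fun φ hφ => ?_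
            have h9 := (Finset.mem_filter.1 hφ).2
            have h10 : u φ = - u φ₀ := by
              rcases hupm φ with h | h <;> rcases hupm φ₀ with h' | h' <;> rw [h, h'] at h9 ⊢ <;>
                simp_all
            rw [h10]
            push_cast
            ring
          rw [h7, h8, h5]
          ring
        rw [h6] at h2
        have h7 : (u φ₀ : ℝ) ≠ 0 := by
          rcases hupm φ₀ with h' | h' <;> rw [h'] <;> norm_num
        have h8 := (mul_eq_zero.1 h2).resolve_left h7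
        linarith
      · -- the orthogonal space
        apply hne
        have huφψ : u φ = u ψ := (huy φ ψ).1 hφψ
        have h1 : dd φ - dd ψ ∈ oneSpace x ⊥ := by
          rw [h]
          refine ⟨fun χ => ?_, ?_⟩
          · rw [Pi.sub_apply, Pi.sub_apply, dd_odd, dd_odd]
            ring
          · simp only [Pi.sub_apply, sub_mul, Finset.sum_sub_distrib]
            rw [sum_ddQ, sum_ddQ, huodd, huodd, huφψ]
            ring
        have h2 := h1.2
        rw [Submodule.mem_bot] at h2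
        have h3 := congrFun h2 (RingEquiv.refl ℂ)
        rw [oneMap_apply, Pi.zero_apply] at h3
        have h4 : ∀ φ : K →+* ℂ, ((RingEquiv.refl ℂ : ℂ ≃+* ℂ) : ℂ →+* ℂ).comp φ = φ := by
          intro φ; ext z; rfl
        simp only [h4, Pi.sub_apply, Rat.cast_sub, sub_mul, Finset.sum_sub_distrib] at h3
        rw [sum_dd, sum_dd, hxo, hxo] at h3
        linarith

end slopes

section bound

variable {K : Type} [Field K] [NumberField K] [IsCMField K]

theorem lowerBound_one : IsLowerBound K 1 := by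
  intro W _ _ h
  rw [Nat.one_le_iff_ne_zero, Ne, Submodule.finrank_eq_zero]
  exact h

/-- The dimension of the space of the odd functions. -/
theorem lowerBound_irr (h : OddIrreducible K) {m : ℕ} (hm : 2 * m = finrank ℚ K) :
    IsLowerBound K m := by
  classical
  intro W h1 h2 h3
  rcases h W h1 h2 with h4 | h4
  · exact absurd h4 h3
  -- the functions `dd` of one embedding for each infinite place are independent
  let v : InfinitePlace K → W := fun w => ⟨dd w.embedding, h4 _ (dd_odd _)⟩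
  have hne : ∀ w w' : InfinitePlace K, ComplexEmbedding.conjugate w.embedding ≠ w'.embedding := by
    intro w w' h
    have h5 : w = w' := by
      rw [← InfinitePlace.mk_embedding w, ← InfinitePlace.mk_embedding w', ← h,
        InfinitePlace.mk_conjugate_eq]
    subst h5
    exact conj_ne' _ h
  have hinj : ∀ w w' : InfinitePlace K, w.embedding = w'.embedding → w = w' := by
    intro w w' h
    rw [← InfinitePlace.mk_embedding w, ← InfinitePlace.mk_embedding w', h]
  have h5 : LinearIndependent ℚ v := by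
    rw [Fintype.linearIndependent_iff]
    intro c hc w
    have h6 := congrFun (congrArg Subtype.val hc) w.embedding
    have h7 : (∑ w', c w' • v w').1 w.embedding = ∑ w', c w' * dd w'.embedding w.embedding := by
      rw [Submodule.coe_sum, Finset.sum_apply]
      rfl
    rw [h7, Finset.sum_eq_single w, dd_self, mul_one] at h6
    · exact h6
    · intro w' _ hw'
      rw [dd_of_ne (fun h => hw' (hinj _ _ h).symm) (fun h => hne _ _ h.symm), mul_zero]
    · intro h
      exact absurd (Finset.mem_univ _) h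
  have h6 := h5.fintype_card_le_finrank
  have h7 : 2 * Fintype.card (InfinitePlace K) = finrank ℚ K := by
    have h1 := InfinitePlace.card_add_two_mul_card_eq_rank K
    have h2 : InfinitePlace.nrRealPlaces K = 0 := IsTotallyComplex.nrRealPlaces_eq_zero K
    have h3 := InfinitePlace.card_eq_nrRealPlaces_add_nrComplexPlaces (K := K)
    omega
  omega

end bound

section unrel

variable {K E : Type} [Field K] [NumberField K] [IsCMField K] [Field E] [NumberField E]
  [IsCMField E]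

/-- A third pair of embeddings. -/
theorem exists_third (h6 : 6 ≤ finrank ℚ K) (φ φ' : K →+* ℂ) :
    ∃ ψ : K →+* ℂ, ψ ≠ φ ∧ ψ ≠ ComplexEmbedding.conjugate φ ∧ ψ ≠ φ' ∧
      ψ ≠ ComplexEmbedding.conjugate φ' := by
  classical
  by_contra hcon
  push Not at hcon
  have h1 : (Finset.univ : Finset (K →+* ℂ)) ⊆ {φ, ComplexEmbedding.conjugate φ, φ',
      ComplexEmbedding.conjugate φ'} := by
    intro ψ _
    simp only [Finset.mem_insert, Finset.mem_singleton]
    by_cases h2 : ψ = φ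
    · exact Or.inl h2
    · by_cases h3 : ψ = ComplexEmbedding.conjugate φ
      · exact Or.inr (Or.inl h3)
      · by_cases h4 : ψ = φ'
        · exact Or.inr (Or.inr (Or.inl h4))
        · exact Or.inr (Or.inr (Or.inr (hcon ψ h2 h3 h4)))
  have h2 := Finset.card_le_card h1
  rw [Finset.card_univ, Embeddings.card] at h2
  have h3 := Finset.card_le_four (a := φ) (b := ComplexEmbedding.conjugate φ) (c := φ')
    (d := ComplexEmbedding.conjugate φ')
  omega

/-- A nonzero odd function which is semi-invariant for the character of an imaginary quadratic field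
shows that this field is a subfield. -/
theorem common_of_semi (x : K) (n : ℕ) (hn : 0 < n) (hx : x ^ 2 = -(n : K)) (φ₀ : K →+* ℂ)
    (w : (E →+* ℂ) → ℚ) (hw0 : w ≠ 0)
    (hw : ∀ τ : ℂ ≃+* ℂ, (τ (φ₀ x) = φ₀ x → ∀ ψ, w ((τ : ℂ →+* ℂ).comp ψ) = w ψ) ∧
      (τ (φ₀ x) = -φ₀ x → ∀ ψ, w ((τ : ℂ →+* ℂ).comp ψ) = - w ψ)) : CommonImaginary K E := by
  classical
  have hsq : (φ₀ x) ^ 2 = -(n : ℂ) := by rw [← map_pow, hx, map_neg, map_natCast]
  have hx0 : φ₀ x ≠ 0 := by
    intro h
    rw [h] at hsq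
    have h1 : (n : ℂ) = 0 := by linear_combination hsq
    exact hn.ne' (Nat.cast_eq_zero.1 h1)
  have hpm : ∀ τ : ℂ ≃+* ℂ, τ (φ₀ x) = φ₀ x ∨ τ (φ₀ x) = -φ₀ x := by
    intro τ
    have h1 : (τ (φ₀ x)) ^ 2 = (φ₀ x) ^ 2 := by
      rw [← map_pow, hsq, map_neg, map_natCast]
    exact sq_eq_sq_iff_eq_or_eq_neg.1 h1
  have hne : ∀ ψ, w ψ ≠ 0 := by
    intro ψ h
    apply hw0
    funext ψ'
    obtain ⟨τ, hτ⟩ := Pool.Agent.TH170.MF.exists_comp_eq E ψ ψ'
    rw [← hτ]
    rcases hpm τ with h1 | h1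
    · rw [(hw τ).1 h1, h]; rfl
    · rw [(hw τ).2 h1, h, neg_zero]; rfl
  obtain ⟨ψ⟩ : Nonempty (E →+* ℂ) := inferInstance
  obtain ⟨y, hy⟩ := mem_range_of_fixed φ₀ ψ x (by
    intro τ hτ
    rcases hpm τ with h1 | h1
    · exact h1
    · exfalso
      have h2 := (hw τ).2 h1 ψ
      rw [hτ] at h2
      have h3 : w ψ = 0 := by linarith
      exact hne ψ h3)
  refine ⟨x, y, n, hn, hx, ψ.injective ?_⟩
  rw [map_pow, hy, hsq, map_neg, map_natCast]

/-- The semi-invariance of the character. -/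
theorem semi_of_char {x : K} {u : (K →+* ℂ) → ℚ} (hupm : ∀ φ, u φ = 1 ∨ u φ = -1)
    (huy : ∀ φ φ' : K →+* ℂ, φ x = φ' x ↔ u φ = u φ') {n : ℕ} (hn : 0 < n)
    (hx : x ^ 2 = -(n : K)) (φ₀ : K →+* ℂ) (τ : ℂ ≃+* ℂ) :
    (τ (φ₀ x) = φ₀ x → ∀ φ, u ((τ : ℂ →+* ℂ).comp φ) = u φ) ∧
      (τ (φ₀ x) = -φ₀ x → ∀ φ, u ((τ : ℂ →+* ℂ).comp φ) = - u φ) := by
  have hsq : ∀ φ : K →+* ℂ, (φ x) ^ 2 = -(n : ℂ) := fun φ => by
    rw [← map_pow, hx, map_neg, map_natCast]
  have hne0 : ∀ φ : K →+* ℂ, φ x ≠ 0 := by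
    intro φ h
    have h1 := hsq φ
    rw [h] at h1
    have h2 : (n : ℂ) = 0 := by linear_combination h1
    exact hn.ne' (Nat.cast_eq_zero.1 h2)
  have hval : ∀ φ : K →+* ℂ, φ x = φ₀ x ∨ φ x = -φ₀ x := by
    intro φ
    exact sq_eq_sq_iff_eq_or_eq_neg.1 ((hsq φ).trans (hsq φ₀).symm)
  constructor
  · intro h φ
    rw [← huy]
    change τ (φ x) = φ x
    rcases hval φ with h1 | h1
    · rw [h1, h]
    · rw [h1, map_neg, h]
  · intro h φ
    have h2 : τ (φ x) = - φ x := by
      rcases hval φ with h1 | h1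
      · rw [h1, h]
      · rw [h1, map_neg, h]
    have h3 : u ((τ : ℂ →+* ℂ).comp φ) ≠ u φ := by
      intro h4
      rw [← huy] at h4
      change τ (φ x) = φ x at h4
      apply hne0 φ
      have h5 : (2 : ℂ) * φ x = 0 := by
        rw [h4] at h2
        linear_combination h2
      exact (mul_eq_zero.1 h5).resolve_left two_ne_zero
    rcases hupm φ with h4 | h4 <;> rcases hupm ((τ : ℂ →+* ℂ).comp φ) with h5 | h5 <;>
      rw [h4, h5] at h3 ⊢ <;> simp_all

theorem common_symm (h : CommonImaginary K E) : CommonImaginary E K := by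
  obtain ⟨x, y, n, hn, hx, hy⟩ := h
  exact ⟨y, x, n, hn, hy, hx⟩

theorem dd_ne_dd {φ φ' : K →+* ℂ} (h : φ' ≠ φ) : dd φ ≠ dd φ' := by
  intro h1
  have h2 := congrFun h1 φ
  rw [dd_self] at h2
  by_cases h3 : φ = ComplexEmbedding.conjugate φ'
  · rw [h3, dd_conj] at h2
    norm_num at h2
  · rw [dd_of_ne (Ne.symm h) h3] at h2
    exact one_ne_zero h2

/-- **Different good fields are unrelated.** -/
theorem unrelated_of_tri (hK : Tri K) (hE : Tri E)
    (hd : normalClosure ℚ K ℂ ≠ normalClosure ℚ E ℂ ∧ ¬ CommonImaginary K E) :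
    Unrelated K E := by
  classical
  intro T hT1 hT2 n hn
  by_contra hne
  have hT1' : ∀ (τ : ℂ ≃+* ℂ) (m : (K →+* ℂ) → ℚ),
      T (fun ψ => m ((τ : ℂ →+* ℂ).comp ψ)) = fun φ => T m ((τ : ℂ →+* ℂ).comp φ) := by
    intro τ m
    funext φ
    exact hT1 τ m φ
  have hddτ : ∀ {F : Type} [Field F] [NumberField F] [IsCMField F] (τ : ℂ ≃+* ℂ) (χ : F →+* ℂ),
      (fun ψ => dd ((τ : ℂ →+* ℂ).comp χ) ((τ : ℂ →+* ℂ).comp ψ)) = dd χ := by
    intro F _ _ _ τ χ
    funext ψ
    exact dd_comp τ χ ψ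
  have hcases : ¬ normalClosure ℚ K ℂ ≤ normalClosure ℚ E ℂ ∨
      ¬ normalClosure ℚ E ℂ ≤ normalClosure ℚ K ℂ := by
    by_contra hcon
    push Not at hcon
    exact hd.1 (le_antisymm hcon.1 hcon.2)
  rcases hcases with hle | hle
  · -- some automorphism moves `K` and fixes `E`
    obtain ⟨τ, hτE, φ, hφ⟩ := exists_aut_of_not_le hle
    let WK : Submodule ℚ ((K →+* ℂ) → ℚ) :=
      { carrier := {m | IsOdd m ∧ T m = 0}
        zero_mem' := ⟨fun y => by simp, map_zero _⟩
        add_mem' := by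
          rintro m m' ⟨h1, h2⟩ ⟨h3, h4⟩
          refine ⟨fun y => ?_, by rw [map_add, h2, h4, add_zero]⟩
          rw [Pi.add_apply, Pi.add_apply, h1, h3]
          ring
        smul_mem' := by
          rintro c m ⟨h1, h2⟩
          refine ⟨fun y => ?_, by rw [map_smul, h2, smul_zero]⟩
          rw [Pi.smul_apply, Pi.smul_apply, h1, smul_neg] }
    have hkey : dd φ - dd ((τ : ℂ →+* ℂ).comp φ) ∈ WK := by
      refine ⟨fun χ => ?_, ?_⟩
      · rw [Pi.sub_apply, Pi.sub_apply, dd_odd, dd_odd]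
        ring
      · rw [map_sub, sub_eq_zero]
        have h1 := hT1' τ (dd ((τ : ℂ →+* ℂ).comp φ))
        rw [hddτ τ φ] at h1
        rw [h1]
        funext ψ
        rw [hτE ψ]
    rcases hK WK (fun m hm => hm.1) (fun κ m hm => ⟨fun ψ => by
        change m ((κ : ℂ →+* ℂ).comp (ComplexEmbedding.conjugate ψ)) = - m ((κ : ℂ →+* ℂ).comp ψ)
        rw [comp_conj_aut, hm.1], by
        rw [hT1', hm.2]; rfl⟩) with h | h | ⟨h6, x, m, u, hm, hx, huodd, hupm, hux, h | h⟩
    · rw [h, Submodule.mem_bot, sub_eq_zero] at hkey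
      exact dd_ne_dd hφ hkey
    · exact hne (h n hn).2
    · obtain ⟨c, hc⟩ := h.2 _ hkey
      obtain ⟨ψ, h1, h2, h3, h4⟩ := exists_third h6 φ ((τ : ℂ →+* ℂ).comp φ)
      have h5 := congrFun hc ψ
      rw [Pi.sub_apply, dd_of_ne h1 h2, dd_of_ne h3 h4, sub_zero, Pi.smul_apply,
        smul_eq_mul] at h5
      have h7 : u ψ ≠ 0 := by rcases hupm ψ with h | h <;> rw [h] <;> norm_num
      have h8 : c = 0 := (mul_eq_zero.1 h5.symm).resolve_right h7
      rw [h8, zero_smul, sub_eq_zero] at hc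
      exact dd_ne_dd hφ hc
    · -- the image is generated by `T u`
      obtain ⟨φ₀⟩ : Nonempty (K →+* ℂ) := inferInstance
      refine hd.2 (common_of_semi x m hm hx φ₀ (T u) ?_ fun κ => ?_)
      · intro h0
        have h1 : u ∈ WK := ⟨huodd, h0⟩
        rw [h] at h1
        have h2 : ∀ φ, u φ * u φ = 1 := fun φ => by
          rcases hupm φ with h | h <;> rw [h] <;> norm_num
        have h3 := h1.2
        simp only [h2, Finset.sum_const, nsmul_eq_mul, mul_one] at h3
        have h4 : (Finset.univ : Finset (K →+* ℂ)).card ≠ 0 := by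
          rw [Finset.card_univ]
          exact Fintype.card_ne_zero
        exact h4 (by exact_mod_cast h3)
      · obtain ⟨h1, h2⟩ := semi_of_char hupm hux hm hx φ₀ κ
        refine ⟨fun hκ ψ => ?_, fun hκ ψ => ?_⟩
        · rw [← hT1]
          have h3 : (fun ψ => u ((κ : ℂ →+* ℂ).comp ψ)) = u := funext (h1 hκ)
          rw [h3]
        · rw [← hT1]
          have h3 : (fun ψ => u ((κ : ℂ →+* ℂ).comp ψ)) = -u := funext (h2 hκ)
          rw [h3, map_neg]
          rfl
  · -- some automorphism moves `E` and fixes `K`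
    obtain ⟨τ, hτK, φ, hφ⟩ := exists_aut_of_not_le hle
    have hinv : ∀ m : (K →+* ℂ) → ℚ, ∀ ψ, T m ((τ : ℂ →+* ℂ).comp ψ) = T m ψ := by
      intro m ψ
      rw [← hT1]
      have h3 : (fun ψ => m ((τ : ℂ →+* ℂ).comp ψ)) = m := by
        funext ψ
        rw [hτK ψ]
      rw [h3]
    let Od : Submodule ℚ ((K →+* ℂ) → ℚ) :=
      { carrier := {m | IsOdd m}
        zero_mem' := fun y => by simp
        add_mem' := by
          intro m m' h1 h3 y
          rw [Pi.add_apply, Pi.add_apply, h1, h3]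
          ring
        smul_mem' := by
          intro c m h1 y
          rw [Pi.smul_apply, Pi.smul_apply, h1, smul_neg] }
    let WE : Submodule ℚ ((E →+* ℂ) → ℚ) := Od.map T
    have hWinv : ∀ f ∈ WE, ∀ ψ, f ((τ : ℂ →+* ℂ).comp ψ) = f ψ := by
      rintro _ ⟨m, -, rfl⟩
      exact hinv m
    rcases hE WE (fun f hf => by
        obtain ⟨m, -, rfl⟩ := hf
        exact hT2 m) (fun κ f hf => by
        obtain ⟨m, hm, rfl⟩ := hf
        refine ⟨fun ψ => m ((κ : ℂ →+* ℂ).comp ψ), fun ψ => ?_, hT1' κ m⟩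
        change m ((κ : ℂ →+* ℂ).comp (ComplexEmbedding.conjugate ψ)) = - m ((κ : ℂ →+* ℂ).comp ψ)
        rw [comp_conj_aut]
        exact hm _) with h | h | ⟨h6, y, m, u, hm, hy, huodd, hupm, huy, h | h⟩
    · have h1 : T n ∈ WE := ⟨n, hn, rfl⟩
      rw [h, Submodule.mem_bot] at h1
      exact hne h1
    · have h1 := hWinv _ (h (dd ((τ : ℂ →+* ℂ).comp φ)) (dd_odd _))
      have h2 : dd φ = dd ((τ : ℂ →+* ℂ).comp φ) := by
        rw [← hddτ τ φ]
        funext ψ
        exact h1 ψ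
      exact dd_ne_dd hφ h2
    · -- the line
      obtain ⟨ψ₀⟩ : Nonempty (E →+* ℂ) := inferInstance
      let v : (K →+* ℂ) → ℚ := fun χ => T (dd χ) ψ₀ * u ψ₀
      have hu1 : ∀ ψ, u ψ * u ψ = 1 := fun ψ => by
        rcases hupm ψ with h | h <;> rw [h] <;> norm_num
      have hTv : ∀ χ ψ, T (dd χ) ψ = v χ * u ψ := by
        intro χ ψ
        obtain ⟨c, hc⟩ := h.2 (T (dd χ)) ⟨dd χ, dd_odd χ, rfl⟩
        have h1 : v χ = c := by
          change T (dd χ) ψ₀ * u ψ₀ = c
          rw [hc, Pi.smul_apply, smul_eq_mul, mul_assoc, hu1, mul_one]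
        rw [h1, hc, Pi.smul_apply, smul_eq_mul]
      refine hd.2 (common_symm (common_of_semi (K := E) (E := K) y m hm hy ψ₀ v ?_ fun κ => ?_))
      · intro hv0
        apply hne
        have h1 : T ((2 : ℚ) • n) = 0 := by
          rw [odd_eq_sum n hn, map_sum]
          refine Finset.sum_eq_zero fun χ _ => ?_
          rw [map_smul]
          have h2 : T (dd χ) = 0 := by
            funext ψ
            rw [hTv, hv0]
            simp
          rw [h2, smul_zero]
        rw [map_smul] at h1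
        exact (smul_eq_zero.1 h1).resolve_left two_ne_zero
      · obtain ⟨h1, h2⟩ := semi_of_char hupm huy hm hy ψ₀ κ
        have h3 : ∀ χ, v ((κ : ℂ →+* ℂ).comp χ) * u ((κ : ℂ →+* ℂ).comp ψ₀) = v χ * u ψ₀ := by
          intro χ
          rw [← hTv, ← hTv, ← hT1, hddτ κ χ]
        have hu0 : u ψ₀ ≠ 0 := by
          intro h0
          have := hu1 ψ₀
          rw [h0] at this
          norm_num at this
        refine ⟨fun hκ χ => ?_, fun hκ χ => ?_⟩
        · have h4 := h3 χ
          rw [h1 hκ] at h4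
          exact mul_right_cancel₀ hu0 h4
        · have h4 := h3 χ
          rw [h2 hκ, mul_neg, ← neg_mul] at h4
          have h5 := mul_right_cancel₀ hu0 h4
          linarith
    · -- the orthogonal space
      obtain ⟨ψ, h1, h2, h3, h4⟩ := exists_third h6 φ ((τ : ℂ →+* ℂ).comp φ)
      have hf : u ((τ : ℂ →+* ℂ).comp φ) • dd ((τ : ℂ →+* ℂ).comp φ) - u ψ • dd ψ ∈ WE := by
        rw [h]
        refine ⟨fun χ => ?_, ?_⟩
        · simp only [Pi.sub_apply, Pi.smul_apply, smul_eq_mul]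
          rw [dd_odd, dd_odd]
          ring
        · simp only [Pi.sub_apply, Pi.smul_apply, smul_eq_mul, sub_mul, mul_assoc,
            Finset.sum_sub_distrib]
          rw [← Finset.mul_sum, ← Finset.mul_sum, sum_ddQ, sum_ddQ, huodd, huodd]
          have hu1 : ∀ ψ, u ψ * u ψ = 1 := fun ψ => by
            rcases hupm ψ with h | h <;> rw [h] <;> norm_num
          linear_combination 2 * hu1 ((τ : ℂ →+* ℂ).comp φ) - 2 * hu1 ψ
      have h5 := hWinv _ hf φ
      simp only [Pi.sub_apply, Pi.smul_apply, smul_eq_mul] at h5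
      rw [dd_self, dd_of_ne (χ := ψ) (ψ := (τ : ℂ →+* ℂ).comp φ) (Ne.symm h3)
        (fun h => h4 (by rw [h, conj_conj'])), dd_of_ne (χ := ψ) (ψ := φ) (Ne.symm h1)
        (fun h => h2 (by rw [h, conj_conj']))] at h5
      have hu0 : u ((τ : ℂ →+* ℂ).comp φ) ≠ 0 := by
        rcases hupm ((τ : ℂ →+* ℂ).comp φ) with h | h <;> rw [h] <;> norm_num
      by_cases h7 : φ = ComplexEmbedding.conjugate ((τ : ℂ →+* ℂ).comp φ)
      · have h9 := dd_conj ((τ : ℂ →+* ℂ).comp φ)
        rw [← h7] at h9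
        rw [h9] at h5
        apply hu0
        linarith
      · rw [dd_of_ne (Ne.symm hφ) h7] at h5
        apply hu0
        linarith

end unrel

end Pool.Agent.H855.CM
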