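import Mathlib
import Pool.Agent.H855.CM.TriField
import Pool.Agent.H855.CM.FamDefs

/-!
# The exceptional factors of a family without slope relations
-/

set_option autoImplicit false
set_option linter.unusedSectionVars false
set_option linter.unusedVariables false

namespace Pool.Agent.H855.CM

open NumberField Finset Module Polynomial Pool.Agent.Y1.CT Pool.Agent.TH170.MF Pool.Agent.TH170
  Pool.Agent.V1168.EV Pool.Agent.V1168.EF Pool.Agent.W484.HS Pool.Agent.Y137.MV

section greedy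

variable {I : Type} {K : I → Type} [∀ i, Field (K i)] [∀ i, NumberField (K i)]
  [∀ i, IsCMField (K i)]

/-- The complex embeddings of all the fields, the family being infinite. -/
abbrev XX (K : I → Type) [∀ i, Field (K i)] : Type := Σ i, (K i →+* ℂ)

/-- The operation of an automorphism. -/
def actX (σ : ℂ ≃+* ℂ) : Equiv.Perm (XX K) where
  toFun := fun y => ⟨y.1, (σ : ℂ →+* ℂ).comp y.2⟩
  invFun := fun y => ⟨y.1, (σ.symm : ℂ →+* ℂ).comp y.2⟩
  left_inv := fun y => by
    have h1 : (σ.symm : ℂ →+* ℂ).comp ((σ : ℂ →+* ℂ).comp y.2) = y.2 := by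
      ext x
      simp
    exact Sigma.ext rfl (heq_of_eq h1)
  right_inv := fun y => by
    have h1 : (σ : ℂ →+* ℂ).comp ((σ.symm : ℂ →+* ℂ).comp y.2) = y.2 := by
      ext x
      simp
    exact Sigma.ext rfl (heq_of_eq h1)

/-- The functions of the automorphisms given by finitely supported functions. -/
noncomputable def relX (x : XX K → ℝ) : (XX K →₀ ℚ) →ₗ[ℚ] ((ℂ ≃+* ℂ) → ℝ) :=
  Finsupp.linearCombination ℚ (fun y σ => x (actX σ y))

theorem relX_apply (x : XX K → ℝ) (n : XX K →₀ ℚ) (σ : ℂ ≃+* ℂ) :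
    relX x n σ = n.sum fun y c => (c : ℝ) * x (actX σ y) := by
  unfold relX
  rw [Finsupp.linearCombination_apply, Finsupp.sum, Finset.sum_apply, Finsupp.sum]
  refine Finset.sum_congr rfl fun y _ => ?_
  rw [Pi.smul_apply, Rat.smul_def]

/-- A finitely supported function is odd. -/
def OddX (n : XX K →₀ ℚ) : Prop := ∀ i φ, n ⟨i, ComplexEmbedding.conjugate φ⟩ = -n ⟨i, φ⟩

/-- The odd functions with values in `F` which vanish for the indices in `S`. -/
noncomputable def WX (x : XX K → ℝ) (F : Submodule ℚ ((ℂ ≃+* ℂ) → ℝ)) (S : Finset I) :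
    Submodule ℚ (XX K →₀ ℚ) where
  carrier := {n | OddX n ∧ relX x n ∈ F ∧ ∀ i ∈ S, ∀ φ, n ⟨i, φ⟩ = 0}
  zero_mem' := ⟨fun i φ => by simp, by rw [map_zero]; exact F.zero_mem, fun i _ φ => rfl⟩
  add_mem' := by
    rintro n n' ⟨h1, h2, h3⟩ ⟨h4, h5, h6⟩
    refine ⟨fun i φ => ?_, ?_, fun i hi φ => ?_⟩
    · rw [Finsupp.add_apply, Finsupp.add_apply, h1, h4]
      ring
    · rw [map_add]
      exact F.add_mem h2 h5
    · rw [Finsupp.add_apply, h3 i hi, h6 i hi, add_zero]
  smul_mem' := by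
    rintro c n ⟨h1, h2, h3⟩
    refine ⟨fun i φ => ?_, ?_, fun i hi φ => ?_⟩
    · rw [Finsupp.smul_apply, Finsupp.smul_apply, h1, smul_neg]
    · rw [map_smul]
      exact F.smul_mem c h2
    · rw [Finsupp.smul_apply, h3 i hi, smul_zero]

theorem WX_mono (x : XX K → ℝ) (F : Submodule ℚ ((ℂ ≃+* ℂ) → ℝ)) {S S' : Finset I}
    (h : S ⊆ S') : WX x F S' ≤ WX x F S :=
  fun n hn => ⟨hn.1, hn.2.1, fun i hi φ => hn.2.2 i (h hi) φ⟩

theorem WX_stable (x : XX K → ℝ) {F : Submodule ℚ ((ℂ ≃+* ℂ) → ℝ)} (hF : TranslatesQ F)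
    (S : Finset I) (τ : ℂ ≃+* ℂ) (n : XX K →₀ ℚ) (hn : n ∈ WX x F S) :
    n.equivMapDomain (actX τ).symm ∈ WX x F S := by
  have hval : ∀ i (φ : K i →+* ℂ), n.equivMapDomain (actX τ).symm ⟨i, φ⟩ =
      n ⟨i, (τ : ℂ →+* ℂ).comp φ⟩ := by
    intro i φ
    rw [Finsupp.equivMapDomain_apply]
    rfl
  refine ⟨fun i φ => ?_, ?_, fun i hi φ => ?_⟩
  · rw [hval, hval, QC.comp_conj τ φ, hn.1]
  · have h1 : relX x (n.equivMapDomain (actX τ).symm) = fun σ => relX x n (τ.symm.trans σ) := by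
      funext σ
      rw [relX_apply, relX_apply, Finsupp.equivMapDomain_eq_mapDomain,
        Finsupp.sum_mapDomain_index (by intro y; simp) (by intro y a b; push_cast; ring)]
      refine Finsupp.sum_congr fun y _ => ?_
      congr 2
    rw [h1]
    exact hF _ hn.2.1 τ.symm
  · rw [hval]
    exact hn.2.2 i hi _

variable (x : XX K → ℝ) (hinj : ∀ n : XX K →₀ ℚ, OddX n → relX x n = 0 → n = 0)
  {F : Submodule ℚ ((ℂ ≃+* ℂ) → ℝ)} [FiniteDimensional ℚ F]

/-- The map to `F`. -/
noncomputable def toF (x : XX K → ℝ) (F : Submodule ℚ ((ℂ ≃+* ℂ) → ℝ)) (S : Finset I) :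
    WX x F S →ₗ[ℚ] F :=
  LinearMap.codRestrict F ((relX x).comp (WX x F S).subtype) (fun n => n.2.2.1)

include hinj in
theorem toF_injective (S : Finset I) : Function.Injective (toF x F S) := by
  rw [injective_iff_map_eq_zero]
  intro n hn
  exact Subtype.ext (hinj n.1 n.2.1 (congrArg Subtype.val hn))

include hinj in
theorem finite_WX (S : Finset I) : FiniteDimensional ℚ (WX x F S) :=
  FiniteDimensional.of_injective (toF x F S) (toF_injective x hinj S)

include hinj in
theorem finrank_WX_le (S : Finset I) : finrank ℚ (WX x F S) ≤ finrank ℚ F :=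
  LinearMap.finrank_le_finrank_of_injective (toF_injective x hinj S)

open Classical in
include hinj in
/-- The greedy choice of the exceptional indices. -/
theorem greedy (hF : TranslatesQ F) (m : I → ℕ) (hm : ∀ i, IsLowerBound (K i) (m i)) (d : ℕ) :
    ∀ S₀ : Finset I, finrank ℚ (WX x F S₀) ≤ d →
      ∃ S : Finset I, ∑ i ∈ S, m i ≤ finrank ℚ (WX x F S₀) ∧ WX x F (S₀ ∪ S) = ⊥ := by
  classical
  induction d with
  | zero =>
    intro S₀ h
    have hfd := finite_WX x hinj (F := F) S₀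
    refine ⟨∅, by simp, ?_⟩
    rw [Finset.union_empty]
    exact Submodule.finrank_eq_zero.1 (Nat.le_zero.1 h)
  | succ d ih =>
    intro S₀ h
    by_cases hbot : WX x F S₀ = ⊥
    · refine ⟨∅, by simp, ?_⟩
      rw [Finset.union_empty]
      exact hbot
    obtain ⟨n, hn, hn0⟩ := Submodule.exists_mem_ne_zero_of_ne_bot hbot
    obtain ⟨⟨i, φ⟩, hy⟩ := Finsupp.ne_iff.1 hn0
    rw [Finsupp.zero_apply] at hy
    let pr : WX x F S₀ →ₗ[ℚ] ((K i →+* ℂ) → ℚ) :=
      { toFun := fun n φ => n.1 ⟨i, φ⟩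
        map_add' := fun n n' => by
          funext φ
          rfl
        map_smul' := fun c n => by
          funext φ
          rfl }
    have hfd := finite_WX x hinj (F := F) S₀
    have hrank := LinearMap.finrank_range_add_finrank_ker pr
    have hst : ∀ τ : ℂ ≃+* ℂ, ∀ f ∈ LinearMap.range pr,
        (fun φ => f ((τ : ℂ →+* ℂ).comp φ)) ∈ LinearMap.range pr := by
      rintro τ _ ⟨n, rfl⟩
      refine ⟨⟨_, WX_stable x hF S₀ τ n.1 n.2⟩, ?_⟩
      funext φ
      change (n.1.equivMapDomain (actX τ).symm) ⟨i, φ⟩ = n.1 ⟨i, (τ : ℂ →+* ℂ).comp φ⟩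
      rw [Finsupp.equivMapDomain_apply]
      rfl
    have hodd : ∀ f ∈ LinearMap.range pr, IsOdd f := by
      rintro _ ⟨n, rfl⟩ φ
      exact n.2.1 i φ
    have hne : LinearMap.range pr ≠ ⊥ := by
      intro h0
      have h1 : pr ⟨n, hn⟩ ∈ LinearMap.range pr := ⟨_, rfl⟩
      rw [h0, Submodule.mem_bot] at h1
      exact hy (congrFun h1 φ)
    have h1 := hm i _ hodd hst hne
    have h2 : 1 ≤ finrank ℚ (LinearMap.range pr) := by
      rw [Nat.one_le_iff_ne_zero, Ne, Submodule.finrank_eq_zero]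
      exact hne
    have h3 : finrank ℚ (WX x F (insert i S₀)) ≤ finrank ℚ (LinearMap.ker pr) := by
      let g : WX x F (insert i S₀) →ₗ[ℚ] LinearMap.ker pr :=
        LinearMap.codRestrict _ (Submodule.inclusion
          (WX_mono x F (Finset.subset_insert i S₀))) (by
          intro n
          rw [LinearMap.mem_ker]
          funext φ
          exact n.2.2.2 i (Finset.mem_insert_self _ _) φ)
      refine LinearMap.finrank_le_finrank_of_injective (f := g) ?_
      intro a b hab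
      have h4 := congrArg Subtype.val (congrArg Subtype.val hab)
      exact Subtype.ext h4
    obtain ⟨S, hS1, hS2⟩ := ih (insert i S₀) (by omega)
    refine ⟨insert i S, ?_, ?_⟩
    · have h4 : ∑ k ∈ insert i S, m k ≤ m i + ∑ k ∈ S, m k := by
        by_cases hi : i ∈ S
        · rw [Finset.insert_eq_of_mem hi]
          omega
        · rw [Finset.sum_insert hi]
      omega
    · rw [Finset.union_insert, ← Finset.insert_union]
      exact hS2

end greedy

section family

variable {p : ℕ} [Fact p.Prime] {a : ℕ} {I : Type} {K : I → Type} [∀ i, Field (K i)]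
  [∀ i, NumberField (K i)] [∀ i, IsCMField (K i)] {π : ∀ i, K i} {Ω : Finset ℂ}

/-- The slope vectors of the family. -/
noncomputable def slopesX (ν : PadicAlgCl p ≃+* ℂ) (a : ℕ) (π : ∀ i, K i) (y : XX K) : ℝ :=
  slopeVector ν a (π y.1) y.2

theorem relX_eq_zero_of (ν : PadicAlgCl p ≃+* ℂ) (h : NoSlopeRelations ν a π)
    (n : XX K →₀ ℚ) (hn : OddX n) (h0 : relX (slopesX ν a π) n = 0) : n = 0 := by
  refine h n hn fun τ => ?_
  have h1 := congrFun h0 τ
  rw [relX_apply] at h1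
  exact h1

/-- The embeddings for the indices in `J`. -/
def incl (J : Finset I) (y : Emb (fun i : {i // i ∈ J} => K i.1)) : XX K := ⟨y.1.1, y.2⟩

theorem incl_injective (J : Finset I) : Function.Injective (incl (K := K) J) := by
  rintro ⟨⟨i, hi⟩, φ⟩ ⟨⟨k, hk⟩, ψ⟩ h
  obtain ⟨h1, h2⟩ := Sigma.mk.inj h
  have h1' : i = k := h1
  subst h1'
  have h2' : φ = ψ := eq_of_heq h2
  subst h2'
  rfl

/-- The extension of a function by zero. -/
noncomputable def extX (J : Finset I) (n : Emb (fun i : {i // i ∈ J} => K i.1) → ℚ) :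
    XX K →₀ ℚ :=
  (Finsupp.equivFunOnFinite.symm n).mapDomain (incl J)

theorem extX_mem (J : Finset I) (n : Emb (fun i : {i // i ∈ J} => K i.1) → ℚ)
    (y : Emb (fun i : {i // i ∈ J} => K i.1)) : extX J n (incl J y) = n y := by
  unfold extX
  rw [Finsupp.mapDomain_apply (incl_injective J)]
  rfl

theorem extX_notMem (J : Finset I) (n : Emb (fun i : {i // i ∈ J} => K i.1) → ℚ)
    (y : XX K) (hy : y.1 ∉ J) : extX J n y = 0 := by
  unfold extX
  refine Finsupp.mapDomain_of_notMem_range _ _ ?_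
  rintro ⟨z, rfl⟩
  exact hy z.1.2

theorem extX_odd (J : Finset I) (n : Emb (fun i : {i // i ∈ J} => K i.1) → ℚ) (hn : OddQ n) :
    OddX (extX J n) := by
  intro i φ
  by_cases hi : i ∈ J
  · have h1 := extX_mem J n ⟨⟨i, hi⟩, φ⟩
    have h2 := extX_mem J n ⟨⟨i, hi⟩, ComplexEmbedding.conjugate φ⟩
    change extX J n ⟨i, φ⟩ = _ at h1
    change extX J n ⟨i, ComplexEmbedding.conjugate φ⟩ = _ at h2
    rw [h1, h2]
    exact hn ⟨⟨i, hi⟩, φ⟩
  · rw [extX_notMem J n ⟨i, φ⟩ hi, extX_notMem J n ⟨i, ComplexEmbedding.conjugate φ⟩ hi,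
      neg_zero]

theorem relX_extX (ν : PadicAlgCl p ≃+* ℂ) (J : Finset I)
    (n : Emb (fun i : {i // i ∈ J} => K i.1) → ℚ) :
    relX (slopesX ν a π) (extX J n) = relMap (slopes ν a fun i : {i // i ∈ J} => π i.1) n := by
  classical
  funext σ
  rw [relX_apply, relMap_apply]
  unfold extX
  rw [Finsupp.sum_mapDomain_index (by intro y; simp) (by intro y a b; push_cast; ring),
    Finsupp.sum_fintype _ _ (by intro y; simp)]
  rfl

/-- **The exceptional factors.** -/
theorem exists_factorsX (ν : PadicAlgCl p ≃+* ℂ) (ha : 0 < a)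
    (hw : ∀ i, π i * IsCMField.complexConj (K i) (π i) = (p : K i) ^ a)
    (hrel : NoSlopeRelations ν a π) (m : I → ℕ) (hm : ∀ i, IsLowerBound (K i) (m i))
    (hΩ : IsStable Ω) :
    ∃ S : Finset I, ∑ i ∈ S, 2 * m i ≤ Ω.card ∧
      ∀ P : ∀ J : Type, ℕ → (J → ℤ[X]) → Prop,
        (∀ (J : Type) (q : ℕ) (f : J → ℤ[X]), 1 < q → NoRel f q (Generated p Ω) → P J q f) →
          ForAllPolys π (p ^ a) S P := by
  classical
  have hinj := fun n hn h0 => relX_eq_zero_of ν hrel n hn h0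
  obtain ⟨S, hS1, hS2⟩ := greedy (slopesX ν a π) hinj (F := logSpanQ ν Ω)
    (translates_logSpanQ hΩ) m hm _ ∅ le_rfl
  rw [Finset.empty_union] at hS2
  have h1 := finrank_WX_le (slopesX ν a π) hinj (F := logSpanQ ν Ω) ∅
  have h2 := finrank_logSpanQ (ν := ν) hΩ
  refine ⟨S, ?_, fun P hP J hJ f hf => ?_⟩
  · rw [← Finset.mul_sum]
    omega
  refine hP _ (p ^ a) f (Nat.one_lt_pow ha.ne' (Fact.out : p.Prime).one_lt)
    ⟨fun i => (hf i).1, generated_one p Ω, fun s hs ρ hρ => ?_⟩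
  refine exactPair_ofQ (ν := ν) (K := fun i : {i // i ∈ J} => K i.1) (fun i => hw i.1) ?_
    f hf s hs ρ hρ.1 (generated_memQ hΩ hρ)
  rw [Submodule.eq_bot_iff]
  intro n hn
  have h3 : extX J n ∈ WX (slopesX ν a π) (logSpanQ ν Ω) S := by
    refine ⟨extX_odd J n hn.1, ?_, fun i hi φ => ?_⟩
    · rw [relX_extX]
      exact hn.2
    · exact extX_notMem J n ⟨i, φ⟩ (fun h => Finset.disjoint_left.1 hJ h hi)
  rw [hS2, Submodule.mem_bot] at h3
  funext y
  rw [← extX_mem J n y, h3]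
  rfl

/-- No relations for pairwise unrelated fields. -/
theorem noSlopeRelations_of_unrelated (ν : PadicAlgCl p ≃+* ℂ)
    (hun : ∀ i k, i ≠ k → Unrelated (K i) (K k)) (hone : ∀ i, NoSlopeRelation ν a (π i)) :
    NoSlopeRelations ν a π := by
  classical
  intro n hn hrel
  let J : Finset I := n.support.image Sigma.fst
  let m : Emb (fun i : {i // i ∈ J} => K i.1) → ℚ := fun y => n (incl J y)
  have hext : extX J m = n := by
    ext y
    obtain ⟨i, φ⟩ := y
    by_cases hi : i ∈ J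
    · exact extX_mem J m ⟨⟨i, hi⟩, φ⟩
    · rw [extX_notMem J m ⟨i, φ⟩ hi]
      by_contra hne
      apply hi
      exact Finset.mem_image.2 ⟨⟨i, φ⟩, Finsupp.mem_support_iff.2 (Ne.symm hne), rfl⟩
  have hm : OddQ m := fun y => hn y.1.1 y.2
  have h0 : relMap (slopes ν a fun i : {i // i ∈ J} => π i.1) m = 0 := by
    rw [← relX_extX, hext]
    funext τ
    rw [relX_apply]
    exact hrel τ
  have h1 := relMap_injOn (K := fun i : {i // i ∈ J} => K i.1)
    (fun i k hik => hun i.1 k.1 fun h => hik (Subtype.ext h))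
    (slopes ν a fun i : {i // i ∈ J} => π i.1)
    (fun i l hl h2 => hone i.1 l hl fun τ => congrFun h2 τ) m hm h0
  rw [← hext, h1]
  ext y
  by_cases hi : y.1 ∈ J
  · exact extX_mem J 0 ⟨⟨y.1, hi⟩, y.2⟩
  · exact extX_notMem J 0 y hi

theorem IsIndependent.noSlopeRelations {ν : PadicAlgCl p ≃+* ℂ} (h : IsIndependent ν a π)
    (hw : ∀ i, π i * IsCMField.complexConj (K i) (π i) = (p : K i) ^ a) :
    NoSlopeRelations ν a π := by
  rcases h with h | ⟨h1, h2⟩
  · exact h
  · refine noSlopeRelations_of_unrelated ν (fun i k hik => ?_) (fun i => ?_)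
    · rcases h2 i k hik with h3 | ⟨h3, h4, h5⟩
      · exact h3
      · exact unrelated_of_tri (Tri.of_good h3) (Tri.of_good h4) h5
    · rcases h1 i with h3 | ⟨h3, h4⟩
      · exact h3
      · exact noSlopeRelation_of_tri (Tri.of_good h3) (hw i) h4

/-- The degree of a CM field is even. -/
theorem exists_half (F : Type) [Field F] [NumberField F] [IsCMField F] :
    ∃ m, finrank ℚ F = 2 * m :=
  ⟨_, (two_mul_places (K := fun _ : Unit => F) ()).symm⟩

theorem IsWeight.exists_lower {F : Type} [Field F] [NumberField F] [IsCMField F] {w : ℕ}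
    (h : IsWeight F w) : ∃ m, IsLowerBound F m ∧ w = 2 * m := by
  rcases h with h | h | ⟨h, hw⟩
  · exact ⟨1, lowerBound_one, h⟩
  · exact h
  · obtain ⟨m, hm⟩ := exists_half F
    refine ⟨m, lowerBound_irr ?_ hm.symm, hw.trans hm⟩
    rcases h with h | ⟨h1, h2⟩
    · exact h
    · exact (Tri.of_good h1).irr h2

/-- **The general theorem.** -/
theorem exists_factorsW (ν : PadicAlgCl p ≃+* ℂ) (ha : 0 < a)
    (hw : ∀ i, π i * IsCMField.complexConj (K i) (π i) = (p : K i) ^ a)
    (hrel : IsIndependent ν a π) (w : I → ℕ) (hwt : ∀ i, IsWeight (K i) (w i))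
    (hΩ : IsStable Ω) :
    ∃ S : Finset I, ∑ i ∈ S, w i ≤ Ω.card ∧
      ∀ P : ∀ J : Type, ℕ → (J → ℤ[X]) → Prop,
        (∀ (J : Type) (q : ℕ) (f : J → ℤ[X]), 1 < q → NoRel f q (Generated p Ω) → P J q f) →
          ForAllPolys π (p ^ a) S P := by
  choose m hm hwm using fun i => (hwt i).exists_lower
  obtain ⟨S, h1, h2⟩ := exists_factorsX ν ha hw (hrel.noSlopeRelations hw) m hm hΩ
  refine ⟨S, ?_, h2⟩
  rw [Finset.sum_congr rfl fun i _ => hwm i]
  exact h1

end family

end Pool.Agent.H855.CM
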