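import Mathlib
import Pool.Agent.H855.CM.Fam
import Pool.Agent.H855.CM.LineDefs

/-!
# The exceptional slope vectors
-/

set_option autoImplicit false
set_option linter.unusedSectionVars false
set_option linter.unusedVariables false

namespace Pool.Agent.H855.CM

open NumberField Finset Module Polynomial Pool.Agent.Y1.CT Pool.Agent.TH170.MF Pool.Agent.TH170
  Pool.Agent.V1168.EV Pool.Agent.V1168.EF Pool.Agent.W484.HS Pool.Agent.Y137.MV

section vec

variable {J : Type} [Fintype J] {L : J → Type} [∀ j, Field (L j)] [∀ j, NumberField (L j)]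
  [∀ j, IsCMField (L j)]

/-- The span of the translates of a function of the automorphisms. -/
noncomputable def transSpan (g : (ℂ ≃+* ℂ) → ℝ) : Submodule ℚ ((ℂ ≃+* ℂ) → ℝ) :=
  Submodule.span ℚ (Set.range fun (τ : ℂ ≃+* ℂ) => fun σ : ℂ ≃+* ℂ => g (τ.trans σ))

theorem trans_mem (g : (ℂ ≃+* ℂ) → ℝ) (τ : ℂ ≃+* ℂ) :
    (fun σ : ℂ ≃+* ℂ => g (τ.trans σ)) ∈ transSpan g := Submodule.subset_span ⟨τ, rfl⟩

theorem self_mem_transSpan (g : (ℂ ≃+* ℂ) → ℝ) : g ∈ transSpan g := trans_mem g (RingEquiv.refl ℂ)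

theorem transSpan_le {g : (ℂ ≃+* ℂ) → ℝ} {F : Submodule ℚ ((ℂ ≃+* ℂ) → ℝ)} (hF : TranslatesQ F)
    (h : g ∈ F) : transSpan g ≤ F := by
  refine Submodule.span_le.2 ?_
  rintro _ ⟨τ, rfl⟩
  exact hF g h τ

theorem translates_transSpan (g : (ℂ ≃+* ℂ) → ℝ) : TranslatesQ (transSpan g) := by
  intro f hf τ
  unfold transSpan at hf
  induction hf using Submodule.span_induction with
  | mem f hf =>
    obtain ⟨τ', rfl⟩ := hf
    exact trans_mem g (τ'.trans τ)
  | zero => exact (transSpan g).zero_mem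
  | add f g _ _ hf hg => exact (transSpan _).add_mem hf hg
  | smul c f _ hf => exact (transSpan _).smul_mem c hf

/-- Translations of relations. -/
theorem relMap_act' (x : Emb L → ℝ) (n : Emb L → ℚ) (τ : ℂ ≃+* ℂ) :
    relMap x (fun y => n (act τ.symm y)) = fun σ => relMap x n (τ.trans σ) := by
  rw [relMap_act]
  rfl

open Classical in
/-- The elementary odd function. -/
noncomputable def dx (y : Emb L) : Emb L → ℚ := fun z =>
  (if z = y then 1 else 0) - (if z = Pool.Agent.V1168.EV.bar y then 1 else 0)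

theorem dx_act (σ : ℂ ≃+* ℂ) (y : Emb L) : dx (act σ y) = fun z => dx y (act σ.symm z) := by
  classical
  funext z
  have h1 : z = act σ y ↔ act σ.symm z = y := by
    rw [← act_symm_symm, Equiv.symm_apply_eq]
  have h2 : z = Pool.Agent.V1168.EV.bar (act σ y) ↔
      act σ.symm z = Pool.Agent.V1168.EV.bar y := by
    rw [← act_symm_symm, Equiv.symm_apply_eq, act_bar]
  simp only [dx, h1, h2]

theorem dx_bar (y : Emb L) : dx (Pool.Agent.V1168.EV.bar y) = - dx y := by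
  classical
  funext z
  rw [Pi.neg_apply]
  simp only [dx, bar_bar]
  ring

/-- The odd functions are combinations of the elementary ones. -/
theorem sum_dx (n : Emb L → ℚ) (hn : OddQ n) : n = ∑ y, (n y / 2) • dx y := by
  classical
  funext z
  rw [Finset.sum_apply]
  have h1 : ∀ y, ((n y / 2) • dx y) z = (if z = y then n y / 2 else 0) -
      (if Pool.Agent.V1168.EV.bar z = y then n y / 2 else 0) := by
    intro y
    have h2 : z = Pool.Agent.V1168.EV.bar y ↔ Pool.Agent.V1168.EV.bar z = y :=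
      ⟨fun h => by rw [h, bar_bar], fun h => by rw [← h, bar_bar]⟩
    rw [Pi.smul_apply, smul_eq_mul]
    simp only [dx, h2]
    split_ifs <;> ring
  simp only [h1]
  rw [Finset.sum_sub_distrib, Finset.sum_ite_eq, Finset.sum_ite_eq, if_pos (Finset.mem_univ _),
    if_pos (Finset.mem_univ _), hn]
  ring

/-- **The vector of a relation.** -/
theorem exists_vector (x : Emb L → ℝ) (n₀ : Emb L → ℚ) (hn₀ : OddQ n₀)
    (h0 : relMap x n₀ ≠ 0) :
    ∃ (j : J) (v : (L j →+* ℂ) → ℝ), v ≠ 0 ∧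
      (∀ φ, v (ComplexEmbedding.conjugate φ) = - v φ) ∧
      ∀ φ, (fun σ : ℂ ≃+* ℂ => v ((σ : ℂ →+* ℂ).comp φ)) ∈ transSpan (relMap x n₀) := by
  classical
  let N : Submodule ℚ (Emb L → ℚ) :=
    Submodule.span ℚ (Set.range fun (τ : ℂ ≃+* ℂ) => fun y : Emb L => n₀ (act τ y))
  have hNst : ∀ (τ : ℂ ≃+* ℂ), ∀ f ∈ N, (fun y => f (act τ y)) ∈ N := by
    intro τ f hf
    induction hf using Submodule.span_induction with
    | mem f hf =>
      obtain ⟨τ', rfl⟩ := hf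
      refine Submodule.subset_span ⟨τ.trans τ', ?_⟩
      funext y
      change n₀ (act (τ.trans τ') y) = n₀ (act τ' (act τ y))
      rw [act_trans]
    | zero => exact N.zero_mem
    | add f g _ _ hf hg => exact N.add_mem hf hg
    | smul c f _ hf => exact N.smul_mem c hf
  have hNg : ∀ f ∈ N, relMap x f ∈ transSpan (relMap x n₀) := by
    intro f hf
    induction hf using Submodule.span_induction with
    | mem f hf =>
      obtain ⟨τ, rfl⟩ := hf
      rw [relMap_act]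
      exact trans_mem (relMap x n₀) τ.symm
    | zero =>
      rw [map_zero]
      exact Submodule.zero_mem _
    | add f g _ _ hf hg =>
      rw [map_add]
      exact Submodule.add_mem _ hf hg
    | smul c f _ hf =>
      rw [map_smul]
      exact Submodule.smul_mem _ c hf
  have hn₀N : n₀ ∈ N := Submodule.subset_span ⟨RingEquiv.refl ℂ, rfl⟩
  have hP : ∀ (τ : ℂ ≃+* ℂ) (f : Emb L → ℚ),
      oproj N (fun y => f (act τ y)) = fun y => oproj N f (act τ y) := by
    intro τ f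
    exact oproj_perm N (act τ) (hNst τ) (fun f hf => hNst τ.symm f hf) f
  let V : Emb L → ℝ := fun y => relMap x (oproj N (dx y)) (RingEquiv.refl ℂ)
  have hV : ∀ (σ : ℂ ≃+* ℂ) (y : Emb L), V (act σ y) = relMap x (oproj N (dx y)) σ := by
    intro σ y
    change relMap x (oproj N (dx (act σ y))) (RingEquiv.refl ℂ) = _
    rw [dx_act, hP, relMap_act']
    rfl
  have hVbar : ∀ y, V (Pool.Agent.V1168.EV.bar y) = - V y := by
    intro y
    change relMap x (oproj N (dx (Pool.Agent.V1168.EV.bar y))) (RingEquiv.refl ℂ) = _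
    rw [dx_bar, map_neg, map_neg]
    rfl
  have hne : ∃ y, V y ≠ 0 := by
    by_contra hcon
    push Not at hcon
    apply h0
    have h1 := oproj_eq N hn₀N
    rw [← h1]
    conv_lhs => rw [sum_dx n₀ hn₀]
    rw [map_sum, map_sum]
    refine Finset.sum_eq_zero fun y _ => ?_
    rw [map_smul, map_smul]
    have h2 : relMap x (oproj N (dx y)) = 0 := by
      funext σ
      rw [← hV σ y, hcon]
      rfl
    rw [h2, smul_zero]
  obtain ⟨⟨j, φ₀⟩, hy⟩ := hne
  refine ⟨j, fun φ => V ⟨j, φ⟩, ?_, fun φ => hVbar ⟨j, φ⟩, fun φ => ?_⟩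
  · intro h1
    exact hy (congrFun h1 φ₀)
  · have h1 : (fun σ : ℂ ≃+* ℂ => V ⟨j, (σ : ℂ →+* ℂ).comp φ⟩) =
        relMap x (oproj N (dx ⟨j, φ⟩)) := by
      funext σ
      exact hV σ ⟨j, φ⟩
    rw [h1]
    exact hNg _ (oproj_mem N _)

/-- **The dimension.** -/
theorem lowerBound_le {E : Type} [Field E] [NumberField E] [IsCMField E] {m : ℕ}
    (hm : IsLowerBound E m) (v : (E →+* ℂ) → ℝ) (hv0 : v ≠ 0)
    (hodd : ∀ φ, v (ComplexEmbedding.conjugate φ) = - v φ)
    (F : Submodule ℚ ((ℂ ≃+* ℂ) → ℝ)) [FiniteDimensional ℚ F]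
    (hF : ∀ φ, (fun σ : ℂ ≃+* ℂ => v ((σ : ℂ →+* ℂ).comp φ)) ∈ F) : m ≤ finrank ℚ F := by
  classical
  let Z : Submodule ℚ ((E →+* ℂ) → ℚ) := oneSpace v ⊥
  have hZst : ∀ τ : ℂ ≃+* ℂ, ∀ n ∈ Z, (fun φ => n ((τ : ℂ →+* ℂ).comp φ)) ∈ Z :=
    fun τ n hn => oneSpace_stable v translates_bot τ n hn
  let e : (ℂ ≃+* ℂ) → Equiv.Perm (E →+* ℂ) := fun τ =>
    { toFun := fun φ => (τ : ℂ →+* ℂ).comp φ
      invFun := fun φ => (τ.symm : ℂ →+* ℂ).comp φ
      left_inv := fun φ => by ext z; simp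
      right_inv := fun φ => by ext z; simp }
  have hP : ∀ (τ : ℂ ≃+* ℂ) (f : (E →+* ℂ) → ℚ),
      oproj Z (fun φ => f ((τ : ℂ →+* ℂ).comp φ)) =
        fun φ => oproj Z f ((τ : ℂ →+* ℂ).comp φ) := by
    intro τ f
    exact oproj_perm Z (e τ) (hZst τ) (fun f hf => hZst τ.symm f hf) f
  let O : Submodule ℚ ((E →+* ℂ) → ℚ) :=
    { carrier := {n | IsOdd n}
      zero_mem' := fun φ => by simp
      add_mem' := fun {a b} ha hb φ => by
        rw [Pi.add_apply, Pi.add_apply, ha φ, hb φ]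
        ring
      smul_mem' := fun c a ha φ => by
        rw [Pi.smul_apply, Pi.smul_apply, ha φ, smul_neg] }
  let C : Submodule ℚ ((E →+* ℂ) → ℚ) := O.map (LinearMap.id - oproj Z)
  have hCodd : ∀ n ∈ C, IsOdd n := by
    rintro _ ⟨n, hn, rfl⟩
    exact O.sub_mem hn (oproj_mem Z n).1
  have hCst : ∀ τ : ℂ ≃+* ℂ, ∀ n ∈ C, (fun φ => n ((τ : ℂ →+* ℂ).comp φ)) ∈ C := by
    rintro τ _ ⟨n, hn, rfl⟩
    refine ⟨fun φ => n ((τ : ℂ →+* ℂ).comp φ), fun φ => ?_, ?_⟩
    · change n ((τ : ℂ →+* ℂ).comp (ComplexEmbedding.conjugate φ)) = - n ((τ : ℂ →+* ℂ).comp φ)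
      rw [QC.comp_conj τ φ]
      exact hn _
    · rw [LinearMap.sub_apply, hP]
      rfl
  have hCker : ∀ n ∈ C, oneMap v n = 0 → n = 0 := by
    rintro _ ⟨n, hn, rfl⟩ h
    have h1 : oproj Z (n - oproj Z n) = 0 := by
      rw [map_sub, oproj_eq Z (oproj_mem Z n), sub_self]
    have h2 : n - oproj Z n ∈ Z :=
      ⟨hCodd _ ⟨n, hn, rfl⟩, by
        rw [Submodule.mem_bot]
        exact h⟩
    have h3 := oproj_eq Z h2
    change n - oproj Z n = 0
    rw [← h3]
    exact h1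
  have hCF : ∀ n ∈ C, oneMap v n ∈ F := by
    intro n _
    have h1 : oneMap v n = ∑ φ, n φ • fun σ : ℂ ≃+* ℂ => v ((σ : ℂ →+* ℂ).comp φ) := by
      funext σ
      rw [oneMap_apply, Finset.sum_apply]
      refine Finset.sum_congr rfl fun φ _ => ?_
      rw [Pi.smul_apply, Rat.smul_def]
    rw [h1]
    exact Submodule.sum_mem _ fun φ _ => Submodule.smul_mem _ _ (hF φ)
  have hCne : C ≠ ⊥ := by
    intro hC
    apply hv0
    funext φ
    have hn : IsOdd (dd φ) := dd_odd φ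
    have h1 : dd φ - oproj Z (dd φ) ∈ C := ⟨dd φ, hn, rfl⟩
    rw [hC, Submodule.mem_bot, sub_eq_zero] at h1
    have h2 : dd φ ∈ Z := by
      rw [h1]
      exact oproj_mem Z _
    have h3 := h2.2
    rw [Submodule.mem_bot] at h3
    have h4 := congrFun h3 (RingEquiv.refl ℂ)
    rw [oneMap_apply] at h4
    have h5 : ∀ ψ : E →+* ℂ, ((RingEquiv.refl ℂ : ℂ ≃+* ℂ) : ℂ →+* ℂ).comp ψ = ψ := by
      intro ψ
      ext z
      rfl
    simp only [h5] at h4
    rw [sum_dd, hodd] at h4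
    change v φ = 0
    have h7 : v φ - -v φ = 0 := h4
    linarith
  refine (hm C hCodd hCst hCne).trans ?_
  let g : C →ₗ[ℚ] F := LinearMap.codRestrict F ((oneMap v).comp C.subtype)
    (fun n => hCF n.1 n.2)
  refine LinearMap.finrank_le_finrank_of_injective (f := g) ?_
  rw [injective_iff_map_eq_zero]
  intro n hn
  exact Subtype.ext (hCker n.1 n.2 (congrArg Subtype.val hn))

end vec

section comb2

variable {p : ℕ} [Fact p.Prime] {ν : PadicAlgCl p ≃+* ℂ} {a : ℕ} {J : Type} [Fintype J]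
  {L : J → Type} [∀ j, Field (L j)] [∀ j, NumberField (L j)] [∀ j, IsCMField (L j)]
  {π : ∀ j, L j}

/-- **The combinations.** If the translates of `g` are values of relations, so are combinations. -/
theorem isCombination_of {E : Type} [Field E] [NumberField E] [IsCMField E]
    (v : (E →+* ℂ) → ℝ) (hodd : ∀ φ, v (ComplexEmbedding.conjugate φ) = - v φ)
    (g : (ℂ ≃+* ℂ) → ℝ)
    (hv : ∀ φ, (fun σ : ℂ ≃+* ℂ => v ((σ : ℂ →+* ℂ).comp φ)) ∈ transSpan g)
    (n₁ : Emb L → ℚ) (hn₁ : OddQ n₁) (hg : relMap (slopes ν a π) n₁ = g) :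
    IsCombination ν a π v := by
  classical
  set x : Emb L → ℝ := slopes ν a π with hx
  -- the values of relations
  let R : Submodule ℚ ((ℂ ≃+* ℂ) → ℝ) :=
    { carrier := {h | ∃ n : Emb L → ℚ, OddQ n ∧ relMap x n = h}
      zero_mem' := ⟨0, fun y => by simp, map_zero _⟩
      add_mem' := by
        rintro _ _ ⟨n, h1, rfl⟩ ⟨n', h2, rfl⟩
        refine ⟨n + n', fun y => ?_, map_add _ _ _⟩
        rw [Pi.add_apply, Pi.add_apply, h1, h2]
        ring
      smul_mem' := by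
        rintro c _ ⟨n, h1, rfl⟩
        refine ⟨c • n, fun y => ?_, map_smul _ _ _⟩
        rw [Pi.smul_apply, Pi.smul_apply, h1, smul_neg] }
  have hR : TranslatesQ R := by
    rintro _ ⟨n, h1, rfl⟩ τ
    refine ⟨fun y => n (act τ.symm y), fun y => ?_, relMap_act' x n τ⟩
    change n (act τ.symm (Pool.Agent.V1168.EV.bar y)) = - n (act τ.symm y)
    rw [act_bar, h1]
  have hle : transSpan g ≤ R := transSpan_le hR ⟨n₁, hn₁, hg⟩
  choose n hn hrel using fun φ : E →+* ℂ => hle (hv φ)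
  -- the relations
  let Z : Submodule ℚ (Emb L → ℚ) := relSpace x ⊥
  have hZst : ∀ τ : ℂ ≃+* ℂ, ∀ f ∈ Z, (fun y => f (act τ y)) ∈ Z :=
    fun τ f hf => relSpace_stable x translates_bot τ f hf
  have hP : ∀ (τ : ℂ ≃+* ℂ) (f : Emb L → ℚ),
      oproj Z (fun y => f (act τ y)) = fun y => oproj Z f (act τ y) := by
    intro τ f
    exact oproj_perm Z (act τ) (hZst τ) (fun f hf => hZst τ.symm f hf) f
  let t : (E →+* ℂ) → Emb L → ℚ := fun φ => n φ - oproj Z (n φ)
  have htodd : ∀ φ, OddQ (t φ) := by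
    intro φ y
    have h1 := hn φ y
    have h2 := (oproj_mem Z (n φ)).1 y
    change n φ (Pool.Agent.V1168.EV.bar y) - oproj Z (n φ) (Pool.Agent.V1168.EV.bar y) =
      -(n φ y - oproj Z (n φ) y)
    rw [h1, h2]
    ring
  have htP : ∀ φ, oproj Z (t φ) = 0 := by
    intro φ
    change oproj Z (n φ - oproj Z (n φ)) = 0
    rw [map_sub, oproj_eq Z (oproj_mem Z (n φ)), sub_self]
  have htrel : ∀ φ, relMap x (t φ) = fun σ : ℂ ≃+* ℂ => v ((σ : ℂ →+* ℂ).comp φ) := by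
    intro φ
    change relMap x (n φ - oproj Z (n φ)) = _
    have h1 := (oproj_mem Z (n φ)).2
    rw [Submodule.mem_bot] at h1
    rw [map_sub, h1, sub_zero, hrel]
  have huniq : ∀ f f' : Emb L → ℚ, OddQ f → OddQ f' → oproj Z f = 0 → oproj Z f' = 0 →
      relMap x f = relMap x f' → f = f' := by
    intro f f' h1 h2 h3 h4 h5
    have h6 : f - f' ∈ Z := by
      refine ⟨fun y => ?_, ?_⟩
      · rw [Pi.sub_apply, Pi.sub_apply, h1, h2]
        ring
      · rw [Submodule.mem_bot, map_sub, h5, sub_self]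
    have h7 := oproj_eq Z h6
    rw [map_sub, h3, h4, sub_zero] at h7
    exact (sub_eq_zero.1 h7.symm)
  have hinv : ∀ (τ : ℂ ≃+* ℂ) (φ : E →+* ℂ),
      (fun y => t ((τ : ℂ →+* ℂ).comp φ) (act τ y)) = t φ := by
    intro τ φ
    refine huniq _ _ (fun y => ?_) (htodd φ) ?_ (htP φ) ?_
    · rw [act_bar, htodd]
    · rw [hP, htP]
      rfl
    · rw [relMap_act, htrel, htrel]
      funext σ
      have h1 : ((τ.symm.trans σ : ℂ ≃+* ℂ) : ℂ →+* ℂ).comp ((τ : ℂ →+* ℂ).comp φ) =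
          (σ : ℂ →+* ℂ).comp φ := by
        ext z
        change σ (τ.symm (τ (φ z))) = σ (φ z)
        rw [RingEquiv.symm_apply_apply]
      exact congrArg v h1
  refine ⟨t, fun τ φ y => congrFun (hinv τ φ) y, fun φ y => htodd φ y, fun φ y hun => ?_,
    fun φ => ?_⟩
  · -- unrelated fields
    have htbar : t (ComplexEmbedding.conjugate φ) = - t φ := by
      refine huniq _ _ (htodd _) (fun y => ?_) (htP _) ?_ ?_
      · rw [Pi.neg_apply, Pi.neg_apply, htodd]
      · rw [map_neg, htP, neg_zero]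
      · rw [map_neg, htrel, htrel]
        funext σ
        rw [QC.comp_conj σ φ, hodd]
        rfl
    let T : ((E →+* ℂ) → ℚ) →ₗ[ℚ] ((L y.1 →+* ℂ) → ℚ) :=
      { toFun := fun m ψ => ∑ φ, m φ * t φ ⟨y.1, ψ⟩
        map_add' := fun m m' => by
          funext ψ
          rw [Pi.add_apply, ← Finset.sum_add_distrib]
          exact Finset.sum_congr rfl fun φ _ => by rw [Pi.add_apply, add_mul]
        map_smul' := fun c m => by
          funext ψ
          rw [RingHom.id_apply, Pi.smul_apply, smul_eq_mul, Finset.mul_sum]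
          exact Finset.sum_congr rfl fun φ _ => by rw [Pi.smul_apply, smul_eq_mul, mul_assoc] }
    have hT := hun T (by
      intro τ m ψ
      let e : Equiv.Perm (E →+* ℂ) :=
        { toFun := fun φ => (τ : ℂ →+* ℂ).comp φ
          invFun := fun φ => (τ.symm : ℂ →+* ℂ).comp φ
          left_inv := fun φ => by ext z; simp
          right_inv := fun φ => by ext z; simp }
      change ∑ φ, m ((τ : ℂ →+* ℂ).comp φ) * t φ ⟨y.1, ψ⟩ =
        ∑ φ, m φ * t φ ⟨y.1, (τ : ℂ →+* ℂ).comp ψ⟩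
      refine Fintype.sum_equiv e _ _ fun φ => ?_
      have h1 := congrFun (hinv τ φ) ⟨y.1, ψ⟩
      change t ((τ : ℂ →+* ℂ).comp φ) ⟨y.1, (τ : ℂ →+* ℂ).comp ψ⟩ = t φ ⟨y.1, ψ⟩ at h1
      change _ = m ((τ : ℂ →+* ℂ).comp φ) * t ((τ : ℂ →+* ℂ).comp φ)
        ⟨y.1, (τ : ℂ →+* ℂ).comp ψ⟩
      rw [h1]) (by
      intro m ψ
      change ∑ φ, m φ * t φ ⟨y.1, ComplexEmbedding.conjugate ψ⟩ = -∑ φ, m φ * t φ ⟨y.1, ψ⟩
      rw [← Finset.sum_neg_distrib]
      refine Finset.sum_congr rfl fun φ _ => ?_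
      have h1 := htodd φ ⟨y.1, ψ⟩
      change t φ ⟨y.1, ComplexEmbedding.conjugate ψ⟩ = - t φ ⟨y.1, ψ⟩ at h1
      rw [h1, mul_neg]) (dd φ) (dd_odd φ)
    have h1 := congrFun hT y.2
    change ∑ φ', dd φ φ' * t φ' ⟨y.1, y.2⟩ = 0 at h1
    rw [sum_ddQ φ (fun φ' => t φ' ⟨y.1, y.2⟩), htbar] at h1
    have h2 : t φ y - - t φ y = 0 := h1
    linarith
  · have h1 := congrFun (htrel φ) (RingEquiv.refl ℂ)
    rw [relMap_apply] at h1
    have h2 : ((RingEquiv.refl ℂ : ℂ ≃+* ℂ) : ℂ →+* ℂ).comp φ = φ := by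
      ext z
      rfl
    rw [h2] at h1
    rw [← h1]
    rfl

end comb2

section exact

variable {p : ℕ} [Fact p.Prime] {ν : PadicAlgCl p ≃+* ℂ} {a : ℕ} {I : Type} [Fintype I]
  {K : I → Type} [∀ i, Field (K i)] [∀ i, NumberField (K i)] [∀ i, IsCMField (K i)]
  {π : ∀ i, K i}

/-- The counting function of a relation is even. -/
theorem even_ofE
    (hw : ∀ i, π i * IsCMField.complexConj (K i) (π i) = (p : K i) ^ a) {ρ : ℂ}
    (hout : ∀ (m : Emb K → ℚ) (c : ℚ), OddQ m → relMap (slopes ν a π) m = c • oddLog ν ρ → m = 0)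
    (cnt : Emb K → ℚ) (c₁ : ℚ) (c₂ : ℝ)
    (h : ∀ σ : ℂ ≃+* ℂ, ∑ y, (cnt y : ℝ) * slopes ν a π (act σ y) = c₁ * lg ν (σ ρ) + c₂)
    (y : Emb K) : cnt y = cnt (Pool.Agent.V1168.EV.bar y) := by
  classical
  have hx := odd_slopes (ν := ν) hw
  let m : Emb K → ℚ := fun y => cnt y - cnt (Pool.Agent.V1168.EV.bar y)
  have hm : OddQ m := by
    intro y
    change cnt (Pool.Agent.V1168.EV.bar y) - cnt (Pool.Agent.V1168.EV.bar (Pool.Agent.V1168.EV.bar y)) = -(cnt y - cnt (Pool.Agent.V1168.EV.bar y))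
    rw [bar_bar]
    ring
  have h1 : ∀ σ : ℂ ≃+* ℂ, ∑ y, (m y : ℝ) * slopes ν a π (act σ y) =
      (2 * c₁) * lg ν (σ ρ) + 2 * c₂ := by
    intro σ
    have h2 := sum_odd (m := fun y => (cnt y : ℝ)) hx σ
    have h3 : ∀ y, (m y : ℝ) = (cnt y : ℝ) - (cnt (Pool.Agent.V1168.EV.bar y) : ℝ) := fun y => by
      simp only [m]
      push_cast
      ring
    simp only [h3]
    rw [h2, h]
    ring
  have h2 := odd_part (g := fun σ => lg ν (σ ρ)) hx h1
  have h3 : relMap (slopes ν a π) m = (c₁ : ℚ) • oddLog ν ρ := by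
    funext σ
    rw [relMap_apply, h2 σ, Pi.smul_apply, Rat.smul_def]
    change 2 * (c₁ : ℝ) * ((lg ν (σ ρ) - lg ν ((σ.trans starRingAut) ρ)) / 2) =
      c₁ * (lg ν (σ ρ) - lg ν ((σ.trans starRingAut) ρ))
    ring
  have h8 : m y = 0 := congrFun (hout m c₁ hm h3) y
  exact sub_eq_zero.1 h8

theorem exactPair_ofE
    (hw : ∀ i, π i * IsCMField.complexConj (K i) (π i) = (p : K i) ^ a)
    (f : I → ℤ[X]) (hf : ∀ i, IsPolyOf (π i) (f i)) (s : ℕ) (hs : 0 < s) (ρ : ℂ)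
    (hρ0 : ρ ≠ 0)
    (hout : ∀ (m : Emb K → ℚ) (c : ℚ), OddQ m → relMap (slopes ν a π) m = c • oddLog ν ρ →
      m = 0) :
    ExactPairK (fun z : Root f => (z : ℂ) ^ s) (((p ^ a : ℕ) : ℂ) ^ s) ρ := by
  classical
  intro n c N hN hn ys hlen hrel hpw
  have hπ0 := weil_ne hw
  let x : Emb K → ℝ := slopes ν a π
  have hz : ∀ z : Root f, ∃ y : Emb K, y.2 (π y.1) = z := by
    rintro ⟨z, i, hi⟩
    obtain ⟨φ, hφ⟩ := (hf i).2 z hi
    exact ⟨⟨i, φ⟩, hφ⟩
  choose idx hidx using hz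
  have hz0 : ∀ z : Root f, (z : ℂ) ≠ 0 := by
    intro z
    rw [← hidx z]
    exact (_root_.map_ne_zero _).2 (hπ0 _)
  have hdev : ∀ (σ : ℂ ≃+* ℂ) (z : Root f), -(2 * lg ν (σ z)) = a + x (act σ (idx z)) := by
    intro σ z
    have h1 := two_lg (ν := ν) (a := a) (π := π) (idx z) σ
    rw [hidx z] at h1
    exact h1
  have hN0 : (N : ℝ) ≠ 0 := Nat.cast_ne_zero.2 hN.ne'
  have hlog : ∀ σ : ℂ ≃+* ℂ, s * (ys.map fun z : Root f => lg ν (σ z)).sum + lg ν (σ ρ) =
      -(c * (s * a)) := by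
    intro σ
    have h1 := congrArg (fun x => lg ν (σ x)) hrel
    simp only [map_pow, map_mul, map_zpow₀, lg_pow, lg_zpow] at h1
    have h2 := mul_left_cancel₀ hN0 h1
    have h3 : σ ((ys.map fun z : Root f => (z : ℂ) ^ s).prod) =
        (ys.map fun z : Root f => (σ z) ^ s).prod := by
      rw [_root_.map_list_prod, List.map_map]
      congr 1
      refine List.map_congr_left fun z _ => ?_
      rw [Function.comp_apply, map_pow]
    rw [h3] at h2
    obtain ⟨h4, h5⟩ := lg_list (ν := ν) (fun z : Root f => (σ (z : ℂ)) ^ s) ys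
      (fun z _ => pow_ne_zero _ ((_root_.map_ne_zero σ).2 (hz0 z)))
    rw [lg_mul h4 ((_root_.map_ne_zero σ).2 hρ0), h5] at h2
    have h6 : (ys.map fun z : Root f => lg ν ((σ (z : ℂ)) ^ s)).sum =
        s * (ys.map fun z : Root f => lg ν (σ z)).sum := by
      rw [← List.sum_map_mul_left]
      congr 1
      refine List.map_congr_left fun z _ => ?_
      rw [lg_pow]
    rw [h6] at h2
    rw [h2, map_natCast]
    push_cast
    rw [lg_pow, lg_p]
    ring
  have hsum : ∀ σ : ℂ ≃+* ℂ, (ys.map fun z : Root f => x (act σ (idx z))).sum =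
      2 * (c * a + lg ν (σ ρ) / s) - a * n := by
    intro σ
    have h1 : (ys.map fun z : Root f => x (act σ (idx z))).sum =
        -(2 * (ys.map fun z : Root f => lg ν (σ z)).sum) - a * n := by
      have h2 : ∀ l : List (Root f), (l.map fun z : Root f => x (act σ (idx z))).sum =
          -(2 * (l.map fun z : Root f => lg ν (σ z)).sum) - a * l.length := by
        intro l
        induction l with
        | nil => simp
        | cons z l ih =>
          rw [List.map_cons, List.sum_cons, ih, List.map_cons, List.sum_cons, List.length_cons]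
          have h3 := hdev σ z
          push_cast
          linarith
      rw [h2, hlen]
    have hs' : (s : ℝ) ≠ 0 := Nat.cast_ne_zero.2 hs.ne'
    have h2 : (ys.map fun z : Root f => lg ν (σ z)).sum =
        -(c * a) - lg ν (σ ρ) / s := by
      apply mul_left_cancel₀ hs'
      rw [mul_sub, mul_div_cancel₀ _ hs']
      have := hlog σ
      linarith
    rw [h1, h2]
    ring
  let cnt : Emb K → ℝ := fun y => (ys.map fun z => if idx z = y then (1 : ℝ) else 0).sum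
  let cntQ : Emb K → ℚ := fun y => (ys.map fun z => if idx z = y then (1 : ℚ) else 0).sum
  have hcast : ∀ y, ((cntQ y : ℚ) : ℝ) = cnt y := by
    intro y
    simp only [cntQ, cnt]
    rw [Rat.cast_list_sum, List.map_map]
    congr 1
    refine List.map_congr_left fun z _ => ?_
    simp only [Function.comp_apply]
    split_ifs <;> simp
  have hcntQ : ∀ y, cntQ y = cntQ (Pool.Agent.V1168.EV.bar y) := by
    refine even_ofE hw hout cntQ (2 / s) (2 * (c * a) - a * n) fun σ => ?_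
    have h4 := sum_list idx (fun y => x (act σ y)) ys
    change ∑ y, cnt y * x (act σ y) = _ at h4
    change ∑ y, (cntQ y : ℝ) * x (act σ y) = _
    simp only [hcast]
    rw [h4, hsum]
    push_cast
    ring
  have hcnt : ∀ y, cnt y = cnt (Pool.Agent.V1168.EV.bar y) := fun y => by rw [← hcast, ← hcast, hcntQ]
  obtain ⟨z₀, hz₀⟩ := List.exists_mem_of_length_pos (l := ys) (by omega)
  have h1 : 0 < cnt (idx z₀) := (count_pos idx _ ys).2 ⟨z₀, hz₀, rfl⟩
  rw [hcnt] at h1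
  obtain ⟨z₁, hz₁, h2⟩ := (count_pos idx _ ys).1 h1
  have hne : z₀ ≠ z₁ := by
    rintro rfl
    exact bar_ne _ h2.symm
  have hsymm : Std.Symm (fun y y' : Root f => (y : ℂ) ^ s * (y' : ℂ) ^ s ≠
      ((p ^ a : ℕ) : ℂ) ^ s) := ⟨by
    intro x y h h'
    exact h (by rw [mul_comm]; exact h')⟩
  refine hpw.forall hz₀ hz₁ hne ?_
  have h3 : (z₁ : ℂ) = ComplexEmbedding.conjugate (idx z₀).2 (π (idx z₀).1) := by
    rw [← hidx z₁, h2]
    rfl
  change (z₀ : ℂ) ^ s * (z₁ : ℂ) ^ s = _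
  rw [h3, ← hidx z₀, ← mul_pow, lg_weil hw]
  push_cast
  rfl

end exact

section main

variable {p : ℕ} [Fact p.Prime] {I : Type} {K : I → Type} [∀ i, Field (K i)]
  [∀ i, NumberField (K i)] [∀ i, IsCMField (K i)]

/-- The function `g` is the value of a relation for a family of Weil numbers in the fields. -/
def Reached (ν : PadicAlgCl p ≃+* ℂ) (K : I → Type) [∀ i, Field (K i)]
    [∀ i, NumberField (K i)] [∀ i, IsCMField (K i)] (g : (ℂ ≃+* ℂ) → ℝ) : Prop :=
  g ≠ 0 ∧ ∃ (J : Type) (_ : Fintype J) (b : J → I) (a : ℕ) (π : ∀ j, K (b j))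
    (n : Emb (fun j => K (b j)) → ℚ), OddQ n ∧ relMap (slopes ν a π) n = g

theorem Reached.exists_vector {ν : PadicAlgCl p ≃+* ℂ} {g : (ℂ ≃+* ℂ) → ℝ}
    (h : Reached ν K g) : ∃ e : Σ i, ((K i →+* ℂ) → ℝ), e.2 ≠ 0 ∧
      (∀ φ, e.2 (ComplexEmbedding.conjugate φ) = - e.2 φ) ∧
      ∀ φ, (fun σ : ℂ ≃+* ℂ => e.2 ((σ : ℂ →+* ℂ).comp φ)) ∈ transSpan g := by
  obtain ⟨hg, J, hJ, b, a, π, n, hn, hrel⟩ := h
  obtain ⟨j, v, h1, h2, h3⟩ := Pool.Agent.H855.CM.exists_vector (L := fun j => K (b j))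
    (slopes ν a π) n hn (by rw [hrel]; exact hg)
  rw [hrel] at h3
  exact ⟨⟨b j, v⟩, h1, h2, h3⟩

/-- Conjugate numbers. -/
def conjSetoid : Setoid ℂ where
  r x y := ∃ τ : ℂ ≃+* ℂ, τ x = y
  iseqv := ⟨fun x => ⟨RingEquiv.refl ℂ, rfl⟩, fun ⟨τ, h⟩ => ⟨τ.symm, by rw [← h]; simp⟩,
    fun ⟨τ, h⟩ ⟨τ', h'⟩ => ⟨τ.trans τ', by rw [← h', ← h]; rfl⟩⟩

/-- A representative of the conjugates. -/
noncomputable def rep (x : ℂ) : ℂ := Quotient.out (Quotient.mk conjSetoid x)

theorem rep_conj (x : ℂ) : ∃ τ : ℂ ≃+* ℂ, τ (rep x) = x :=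
  Quotient.exact (Quotient.out_eq (Quotient.mk conjSetoid x))

theorem rep_eq {x y : ℂ} (τ : ℂ ≃+* ℂ) (h : τ x = y) : rep x = rep y := by
  unfold rep
  rw [show Quotient.mk conjSetoid x = Quotient.mk conjSetoid y from Quotient.sound ⟨τ, h⟩]

theorem oddLog_trans (ν : PadicAlgCl p ≃+* ℂ) (β : ℂ) (τ : ℂ ≃+* ℂ) :
    oddLog ν (τ β) = fun σ => oddLog ν β (τ.trans σ) := rfl

/-- The numbers coming from `β`. -/
theorem oddLog_from (ν : PadicAlgCl p ≃+* ℂ) {Ω : Finset ℂ} {ρ : ℂ} (h : From p Ω ρ) :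
    ∃ (β : ℂ) (τ : ℂ ≃+* ℂ) (c : ℚ), (β = 1 ∨ β ∈ Ω) ∧
      oddLog ν ρ = c • fun σ => oddLog ν β (τ.trans σ) := by
  obtain ⟨β, τ, m, n, k, hβ0, hβ, hm, hρ⟩ := from_cases h
  have hp0 : (p : ℂ) ≠ 0 := Nat.cast_ne_zero.2 (Fact.out : p.Prime).ne_zero
  have hm' : (m : ℝ) ≠ 0 := Nat.cast_ne_zero.2 hm.ne'
  have hτβ : τ β ≠ 0 := (_root_.map_ne_zero τ).2 hβ0
  have h1 : ∀ σ : ℂ ≃+* ℂ, m * lg ν (σ ρ) = n * lg ν (σ (τ β)) - k := by
    intro σ
    rw [← lg_pow, ← map_pow, hρ, map_mul, map_zpow₀, map_zpow₀,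
      map_natCast, lg_mul (zpow_ne_zero _ ((_root_.map_ne_zero σ).2 hτβ)) (zpow_ne_zero _ hp0),
      lg_zpow, lg_zpow, lg_p]
    ring
  refine ⟨β, τ, n / m, hβ, ?_⟩
  rw [← oddLog_trans]
  funext σ
  rw [Pi.smul_apply, Rat.smul_def]
  change lg ν (σ ρ) - lg ν ((σ.trans starRingAut) ρ) = (((n : ℚ) / m : ℚ) : ℝ) *
    (lg ν (σ (τ β)) - lg ν ((σ.trans starRingAut) (τ β)))
  apply mul_left_cancel₀ hm'
  rw [mul_sub, h1, h1]
  push_cast
  field_simp
  ring

theorem oddLog_one (ν : PadicAlgCl p ≃+* ℂ) : oddLog ν 1 = 0 := by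
  funext σ
  change lg ν (σ 1) - lg ν ((σ.trans starRingAut) 1) = 0
  rw [map_one, map_one, sub_self]

open Classical in
/-- **The general theorem on exceptional vectors.** -/
theorem exists_vectorsX (ν : PadicAlgCl p ≃+* ℂ) (K : I → Type) [∀ i, Field (K i)]
    [∀ i, NumberField (K i)] [∀ i, IsCMField (K i)] (m : I → ℕ)
    (hm : ∀ i, IsLowerBound (K i) (m i)) (Ω : Finset ℂ) :
    ∃ E : Finset (Σ i, ((K i →+* ℂ) → ℝ)), IsSmall (fun i => 2 * m i) Ω E ∧
      ∀ (J : Type) [Fintype J] (b : J → I) (a : ℕ) (π : ∀ j, K (b j)),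
        (∀ e ∈ E, ¬ IsCombination ν a π e.2) → ∀ ρ, From p Ω ρ →
        ∀ (n : Emb (fun j => K (b j)) → ℚ) (c : ℚ), OddQ n →
          relMap (slopes ν a π) n = c • oddLog ν ρ → relMap (slopes ν a π) n = 0 := by
  classical
  have hvec : ∀ β : {β : ℂ // Reached ν K (oddLog ν β)}, ∃ e : Σ i, ((K i →+* ℂ) → ℝ),
      e.2 ≠ 0 ∧ (∀ φ, e.2 (ComplexEmbedding.conjugate φ) = - e.2 φ) ∧
      ∀ φ, (fun σ : ℂ ≃+* ℂ => e.2 ((σ : ℂ →+* ℂ).comp φ)) ∈ transSpan (oddLog ν β.1) :=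
    fun β => β.2.exists_vector
  choose e he0 heodd he using hvec
  let Ω₀ : Finset ℂ := Ω.image rep
  let B : Finset {β : ℂ // Reached ν K (oddLog ν β)} :=
    Ω₀.subtype fun β => Reached ν K (oddLog ν β)
  have hrep : IsStable Ω → ∀ β ∈ Ω, rep β ∈ Ω := by
    intro hΩ β hβ
    obtain ⟨τ, hτ⟩ := rep_conj β
    have h1 : τ.symm β = rep β := by
      rw [← hτ]
      simp only [hτ]
      exact (RingEquiv.symm_apply_eq τ).2 hτ.symm
    rw [← h1]
    exact hΩ.map_mem β hβ _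
  have hB : IsStable Ω → ∀ β ∈ B, β.1 ∈ Ω ∧ rep β.1 = β.1 := by
    intro hΩ β hβ
    have h1 : β.1 ∈ Ω₀ := Finset.mem_subtype.1 hβ
    obtain ⟨γ, hγ, h2⟩ := Finset.mem_image.1 h1
    rw [← h2]
    refine ⟨hrep hΩ γ hγ, ?_⟩
    obtain ⟨τ, hτ⟩ := rep_conj γ
    exact rep_eq τ hτ
  have hcardB : B.card ≤ Ω₀.card := by
    rw [Finset.card_subtype]
    exact Finset.card_filter_le _ _
  -- the weights
  have hweight : IsStable Ω → ∀ β ∈ B,
      2 * m (e β).1 ≤ (Ω.filter fun γ => rep γ = β.1).card := by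
    intro hΩ β hβ
    obtain ⟨h1, h2⟩ := hB hΩ β hβ
    set Ωβ : Finset ℂ := Ω.filter fun γ => rep γ = β.1 with hΩβ
    have hst : IsStable Ωβ := by
      refine ⟨fun γ hγ τ => ?_, fun γ hγ τ => ?_, fun γ hγ => ?_⟩
      · obtain ⟨h3, h4⟩ := Finset.mem_filter.1 hγ
        refine Finset.mem_filter.2 ⟨hΩ.map_mem γ h3 τ, ?_⟩
        rw [← rep_eq τ rfl, h4]
      · exact hΩ.map_conj γ (Finset.mem_filter.1 hγ).1 τ
      · exact hΩ.ne_zero γ (Finset.mem_filter.1 hγ).1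
    have hmem : β.1 ∈ Ωβ := Finset.mem_filter.2 ⟨h1, h2⟩
    have hle : transSpan (oddLog ν β.1) ≤ logSpanQ ν Ωβ :=
      transSpan_le (translates_logSpanQ hst) (oddLog_memQ hmem)
    have h3 := lowerBound_le (hm (e β).1) (e β).2 (he0 β) (heodd β) (logSpanQ ν Ωβ)
      (fun φ => hle (he β φ))
    have h4 := finrank_logSpanQ (ν := ν) hst
    omega
  refine ⟨B.image e, ⟨fun v hv => ?_, ?_, fun Ω' hΩ' => ?_, fun hΩ => ?_⟩, ?_⟩
  · obtain ⟨β, -, rfl⟩ := Finset.mem_image.1 hv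
    exact ⟨he0 β, heodd β⟩
  · exact Finset.card_image_le.trans (hcardB.trans Finset.card_image_le)
  rotate_left
  · refine (Finset.sum_image_le_of_nonneg (s := B) (g := e) (f := fun v => 2 * m v.1)
      (fun _ _ => Nat.zero_le _)).trans ?_
    refine (Finset.sum_le_sum (hweight hΩ)).trans ?_
    have h1 : ∑ β ∈ B, (Ω.filter fun γ => rep γ = β.1).card ≤
        ∑ β ∈ Ω₀, (Ω.filter fun γ => rep γ = β).card := by
      rw [Finset.sum_subtype_eq_sum_filter (f := fun β => (Ω.filter fun γ => rep γ = β).card)]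
      exact Finset.sum_le_sum_of_subset (Finset.filter_subset _ _)
    refine h1.trans ?_
    rw [← Finset.card_eq_sum_card_image rep Ω]
  rotate_left
  · refine Finset.card_image_le.trans (hcardB.trans ?_)
    have h1 : Ω₀ ⊆ Ω'.image rep := by
      intro β hβ
      obtain ⟨γ, hγ, rfl⟩ := Finset.mem_image.1 hβ
      obtain ⟨τ, hτ⟩ := hΩ' γ hγ
      exact Finset.mem_image.2 ⟨τ γ, hτ, (rep_eq τ rfl).symm⟩
    exact (Finset.card_le_card h1).trans Finset.card_image_le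
  · intro J _ b a π hcomb ρ hρ n c hn hrel
    obtain ⟨β, τ, c', hβ, hρβ⟩ := oddLog_from ν hρ
    by_contra hne
    have hβΩ : β ∈ Ω := by
      rcases hβ with rfl | hβ
      · exfalso
        apply hne
        rw [hrel, hρβ, oddLog_one]
        funext σ
        simp
      · exact hβ
    -- the representative
    obtain ⟨τ', hτ'⟩ := rep_conj β
    set β₀ : ℂ := rep β with hβ₀
    have hg : relMap (slopes ν a π) n =
        (c * c') • fun σ => oddLog ν β₀ ((τ'.trans τ).trans σ) := by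
      rw [hrel, hρβ, ← hτ', oddLog_trans, smul_smul]
      rfl
    have hcc : c * c' ≠ 0 := by
      intro h0
      apply hne
      rw [hg, h0, zero_smul]
    -- the translated relation
    set θ : ℂ ≃+* ℂ := τ'.trans τ with hθ
    let n' : Emb (fun j => K (b j)) → ℚ := (c * c')⁻¹ • fun y => n (act θ y)
    have hn' : OddQ n' := by
      intro y
      change (c * c')⁻¹ • n (act θ (Pool.Agent.V1168.EV.bar y)) = -((c * c')⁻¹ • n (act θ y))
      rw [act_bar, hn, smul_neg]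
    have hrel' : relMap (slopes ν a π) n' = oddLog ν β₀ := by
      change relMap (slopes ν a π) ((c * c')⁻¹ • fun y => n (act θ y)) = _
      rw [map_smul, relMap_act, hg]
      funext σ
      rw [Pi.smul_apply, Pi.smul_apply, smul_smul, inv_mul_cancel₀ hcc, one_smul]
      congr 1
      ext z
      change σ (θ.symm (θ z)) = σ z
      rw [RingEquiv.symm_apply_apply]
    have hg0 : oddLog ν β₀ ≠ 0 := by
      intro h0
      apply hne
      rw [hg, h0]
      funext σ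
      simp
    have hreach : Reached ν K (oddLog ν β₀) := ⟨hg0, J, inferInstance, b, a, π, n', hn', hrel'⟩
    have hmem : (⟨β₀, hreach⟩ : {β : ℂ // Reached ν K (oddLog ν β)}) ∈ B :=
      Finset.mem_subtype.2 (Finset.mem_image.2 ⟨β, hβΩ, rfl⟩)
    refine hcomb (e ⟨β₀, hreach⟩) (Finset.mem_image_of_mem e hmem) ?_
    exact isCombination_of (L := fun j => K (b j)) _ (heodd _) (oddLog ν β₀) (he ⟨β₀, hreach⟩)
      n' hn' hrel'

theorem relMap_eq_zero {ν : PadicAlgCl p ≃+* ℂ} {a : ℕ} {J : Type} [Fintype J] {L : J → Type}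
    [∀ j, Field (L j)] [∀ j, NumberField (L j)] [∀ j, IsCMField (L j)] {π : ∀ j, L j}
    (h : NoSlopeRelations ν a π) (n : Emb L → ℚ) (hn : OddQ n)
    (h0 : relMap (slopes ν a π) n = 0) : n = 0 := by
  classical
  have h1 := h (Finsupp.equivFunOnFinite.symm n) (fun i φ => hn ⟨i, φ⟩) (fun τ => by
    rw [Finsupp.sum_fintype _ _ (by intro y; simp)]
    exact congrFun h0 τ)
  funext y
  exact DFunLike.congr_fun h1 y

/-- **The general theorem.** -/
theorem exists_vectors (ν : PadicAlgCl p ≃+* ℂ) (K : I → Type) [∀ i, Field (K i)]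
    [∀ i, NumberField (K i)] [∀ i, IsCMField (K i)] (w : I → ℕ) (hw : ∀ i, IsWeight (K i) (w i))
    (Ω : Finset ℂ) :
    ∃ E : Finset (Σ i, ((K i →+* ℂ) → ℝ)), IsSmall w Ω E ∧
      ∀ P : ∀ J : Type, ℕ → (J → ℤ[X]) → Prop,
        (∀ (J : Type) (q : ℕ) (f : J → ℤ[X]), 1 < q → NoRel f q (From p Ω) → P J q f) →
          ForAllFamilies ν K P E := by
  choose m hm hwm using fun i => (hw i).exists_lower
  obtain ⟨E, hE, h⟩ := exists_vectorsX ν K m hm Ω
  refine ⟨E, ?_, fun P hP J _ b a π f ha hπ hI hcomb hf => ?_⟩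
  · rw [show w = fun i => 2 * m i from funext hwm]
    exact hE
  refine hP _ (p ^ a) f (Nat.one_lt_pow ha.ne' (Fact.out : p.Prime).one_lt)
    ⟨fun i => (hf i).1, from_one p Ω, fun s hs ρ hρ => ?_⟩
  refine exactPair_ofE (ν := ν) hπ f hf s hs ρ hρ.1 fun n c hn hrel => ?_
  exact relMap_eq_zero (hI.noSlopeRelations hπ) n hn (h J b a π hcomb ρ hρ n c hn hrel)

end main

end Pool.Agent.H855.CM
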