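import Mathlib
import Pool.Agent.H855.CM.SplitDefs
import Pool.Agent.H855.CM.Lines
import Pool.Graph.R_pool_sql_team_seeded_843ab51a.V1168.EV.SplitMain

/-!
# Exceptional slope vectors for one Frobenius element
-/

set_option autoImplicit false
set_option linter.unusedSectionVars false

namespace Pool.Agent.H855.CM

open NumberField Module IntermediateField Pool.Agent.Y1.CT Pool.Agent.Y137.MV
  Pool.Agent.Y137.SL Pool.Agent.V1168.EV Pool.Agent.V1168.EF Pool.Agent.H204R3.CM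
  Pool.Agent.H204R3.SP Pool.Agent.H204R3.GP

section one

variable {p : ℕ} [Fact p.Prime] {ν : PadicAlgCl p ≃+* ℂ} {a : ℕ} {I : Type} [Fintype I]
  {K : I → Type} [∀ i, Field (K i)] [∀ i, NumberField (K i)] [∀ i, IsCMField (K i)]
  {π : ∀ i, K i}

/-- Independent families have maximal angle rank. -/
theorem angle_ofE (hI : NoSlopeRelations ν a π)
    (hw : ∀ i, π i * IsCMField.complexConj (K i) (π i) = (p : K i) ^ a) :
    MaximalAngleRank (p ^ a) π := by
  classical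
  intro r n hrel i φ
  have hπ0 := weil_ne hw
  have hp0 : (p : ℂ) ≠ 0 := Nat.cast_ne_zero.2 (Fact.out : p.Prime).ne_zero
  have h1 : ∀ σ : ℂ ≃+* ℂ, ∑ y : Emb K, (n y : ℝ) * lg ν (σ (y.2 (π y.1))) = -(r * a) := by
    intro σ
    have h2 := congrArg (fun z => lg ν (σ z)) hrel
    simp only [map_prod, map_zpow₀, map_natCast] at h2
    rw [lg_prod _ _ (fun y _ => zpow_ne_zero _ ((_root_.map_ne_zero σ).2
      ((_root_.map_ne_zero _).2 (hπ0 _)))), lg_zpow] at h2
    simp only [lg_zpow] at h2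
    change ∑ y : Emb K, (n y : ℝ) * lg ν (σ (y.2 (π y.1))) = _ at h2
    rw [h2]
    push_cast
    rw [lg_pow, lg_p]
    ring
  have h2 : ∀ σ : ℂ ≃+* ℂ, ∑ y : Emb K, ((n y : ℚ) : ℝ) * slopes ν a π (act σ y) =
      ((0 : ℚ) : ℝ) * lg ν (σ 1) + (2 * (r * a) - a * ∑ y, (n y : ℝ)) := by
    intro σ
    have h3 : ∀ y : Emb K, ((n y : ℚ) : ℝ) * slopes ν a π (act σ y) =
        -2 * ((n y : ℝ) * lg ν (σ (y.2 (π y.1)))) - a * (n y : ℝ) := by
      intro y
      have h4 := two_lg (ν := ν) (a := a) (π := π) y σ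
      have h5 : slopes ν a π (act σ y) = -(2 * lg ν (σ (y.2 (π y.1)))) - a := by linarith
      rw [h5]
      push_cast
      ring
    rw [Finset.sum_congr rfl fun y _ => h3 y, Finset.sum_sub_distrib, ← Finset.mul_sum, h1,
      ← Finset.mul_sum]
    push_cast
    ring
  have h3 := even_ofE (ν := ν) hw (ρ := 1) (fun m c hm hrel' => relMap_eq_zero hI m hm (by
    rw [hrel', oddLog_one]
    funext σ
    simp)) (fun y => (n y : ℚ)) 0 _ h2 ⟨i, φ⟩
  have h4 : (n ⟨i, φ⟩ : ℚ) = (n ⟨i, ComplexEmbedding.conjugate φ⟩ : ℚ) := h3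
  exact_mod_cast h4

/-- The condition on the eigenvalues. -/
theorem forces_ofE
    (hw : ∀ i, π i * IsCMField.complexConj (K i) (π i) = (p : K i) ^ a)
    {L : Type*} [Field L] [NumberField L] [IsGalois ℚ L] (j : L →+* ℂ) (β : L) (i : I)
    (hout : ∀ (m : Emb K → ℚ) (c : ℚ), OddQ m →
      relMap (slopes ν a π) m = c • oddLog ν (j β) → m = 0) : Forces π β i := by
  classical
  intro T N F hN hβN φ
  have hπ0 := weil_ne hw
  let J : (Σ i, (K i →+* L)) → Emb K := fun x => ⟨x.1, j.comp x.2⟩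
  have hJ : Function.Injective J := by
    rintro ⟨a, φ⟩ ⟨b, ψ⟩ h
    simp only [J, Sigma.mk.injEq] at h
    obtain ⟨rfl, h⟩ := h
    rw [H194R3.CM.comp_injective j (eq_of_heq h)]
  let cnt : Emb K → ℚ := fun x => ((Finset.univ.filter (fun l => J (F l) = x)).card : ℚ)
  have hN' : (N : ℝ) ≠ 0 := Nat.cast_ne_zero.2 hN.ne'
  have h1 : ∀ σ : ℂ ≃+* ℂ, lg ν (σ (j β)) = ∑ l, lg ν (σ ((J (F l)).2 (π (J (F l)).1))) := by
    intro σ
    have h2 := congrArg (fun x => lg ν (σ (j x))) hβN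
    change lg ν (σ (j (β ^ N))) = lg ν (σ (j (∏ l, ((F l).2 (π (F l).1)) ^ N))) at h2
    simp only [map_pow, map_prod] at h2
    rw [lg_pow, lg_prod _ _ (fun l _ => pow_ne_zero _ ((_root_.map_ne_zero σ).2
      ((_root_.map_ne_zero j).2 ((_root_.map_ne_zero _).2 (hπ0 _)))))] at h2
    simp only [lg_pow] at h2
    rw [← Finset.mul_sum] at h2
    exact mul_left_cancel₀ hN' h2
  have h2 : ∀ σ : ℂ ≃+* ℂ, ∑ y, (cnt y : ℝ) * slopes ν a π (act σ y) =
      ((-2 : ℚ) : ℝ) * lg ν (σ (j β)) + -(a * T) := by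
    intro σ
    have h3 : ∀ y : Emb K, (cnt y : ℝ) * slopes ν a π (act σ y) =
        ∑ l ∈ Finset.univ.filter (fun l => J (F l) = y), slopes ν a π (act σ (J (F l))) := by
      intro y
      rw [Finset.sum_congr rfl (g := fun _ => slopes ν a π (act σ y)) (fun l hl => by
        rw [(Finset.mem_filter.1 hl).2]), Finset.sum_const, nsmul_eq_mul]
      simp only [cnt]
      push_cast
      rfl
    rw [Finset.sum_congr rfl fun y _ => h3 y,
      Finset.sum_fiberwise (s := Finset.univ) (g := fun l => J (F l))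
        (f := fun l => slopes ν a π (act σ (J (F l)))), h1]
    have h4 : ∀ l, slopes ν a π (act σ (J (F l))) =
        -2 * lg ν (σ ((J (F l)).2 (π (J (F l)).1))) - a := by
      intro l
      have h5 := two_lg (ν := ν) (a := a) (π := π) (J (F l)) σ
      linarith
    rw [Finset.sum_congr rfl fun l _ => h4 l, Finset.sum_sub_distrib, ← Finset.mul_sum,
      Finset.sum_const, Finset.card_univ, Fintype.card_fin, nsmul_eq_mul]
    push_cast
    ring
  have h9 := even_ofE hw hout cnt _ _ h2 ⟨i, j.comp φ⟩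
  have h4 : (Finset.univ.filter (fun l => F l = ⟨i, φ⟩)).card =
      (Finset.univ.filter (fun l => J (F l) = ⟨i, j.comp φ⟩)).card := by
    congr 1
    ext l
    simp only [Finset.mem_filter, Finset.mem_univ, true_and]
    exact ⟨fun h => by rw [h], fun h => hJ h⟩
  have h5 : (Finset.univ.filter (fun l => F l = Pool.Agent.H204R3.GP.bar ⟨i, φ⟩)).card =
      (Finset.univ.filter (fun l => J (F l) =
        ⟨i, ComplexEmbedding.conjugate (j.comp φ)⟩)).card := by
    congr 1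
    ext l
    simp only [Finset.mem_filter, Finset.mem_univ, true_and]
    have h6 : J (Pool.Agent.H204R3.GP.bar ⟨i, φ⟩) = ⟨i, ComplexEmbedding.conjugate (j.comp φ)⟩ := by
      simp only [J, Pool.Agent.H204R3.GP.bar]
      rw [comp_cbar]
    rw [← h6]
    exact ⟨fun h => by rw [h], fun h => hJ h⟩
  rw [h4, h5]
  have h10 : ((Finset.univ.filter (fun l => J (F l) = ⟨i, j.comp φ⟩)).card : ℚ) =
      ((Finset.univ.filter (fun l => J (F l) =
        ⟨i, ComplexEmbedding.conjugate (j.comp φ)⟩)).card : ℚ) := h9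
  exact_mod_cast h10

end one

/-- The property of the exceptional vectors. -/
def Core {p : ℕ} [Fact p.Prime] {I : Type} (ν : PadicAlgCl p ≃+* ℂ)
    (K : I → Type) [∀ i, Field (K i)] [∀ i, NumberField (K i)] [∀ i, IsCMField (K i)]
    (Ω : Finset ℂ) (E : Finset (Σ i, ((K i →+* ℂ) → ℝ))) : Prop :=
  ∀ (J : Type) [Fintype J] (b : J → I) (a : ℕ) (π : ∀ j, K (b j)),
    (∀ e ∈ E, ¬ IsCombination ν a π e.2) → ∀ ρ, From p Ω ρ →
    ∀ (n : Emb (fun j => K (b j)) → ℚ) (c : ℚ), OddQ n →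
      relMap (slopes ν a π) n = c • oddLog ν ρ → relMap (slopes ν a π) n = 0

theorem Core.split {p : ℕ} [Fact p.Prime] {I : Type} {ν : PadicAlgCl p ≃+* ℂ}
    {K : I → Type} [∀ i, Field (K i)] [∀ i, NumberField (K i)] [∀ i, IsCMField (K i)]
    {Ω : Finset ℂ} {E : Finset (Σ i, ((K i →+* ℂ) → ℝ))} (h : Core ν K Ω E) :
    SplitOutside ν K Ω E := by
  intro J _ b a π ha hgen hπ hI hcomb
  have hI' := hI.noSlopeRelations hπ
  intro k _ _ V _ _ _ M _ _ _ Γ _ ρ τ χ γ hp f hf0 hfγ hf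
  exact split_of_forces hgen hπ (angle_ofE hI' hπ) k V M Γ ρ τ χ γ hp f hf0 hfγ
    fun L _ _ _ j β hβ i => forces_ofE (ν := ν) hπ j β i fun n c hn hrel =>
      relMap_eq_zero hI' n hn (h J b a π hcomb _ (hf _ hβ) n c hn hrel)

open Polynomial in
theorem Core.families {p : ℕ} [Fact p.Prime] {I : Type} {ν : PadicAlgCl p ≃+* ℂ}
    {K : I → Type} [∀ i, Field (K i)] [∀ i, NumberField (K i)] [∀ i, IsCMField (K i)]
    {Ω : Finset ℂ} {E : Finset (Σ i, ((K i →+* ℂ) → ℝ))} (h : Core ν K Ω E)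
    (P : ∀ J : Type, ℕ → (J → ℤ[X]) → Prop)
    (hP : ∀ (J : Type) (q : ℕ) (f : J → ℤ[X]), 1 < q → NoRel f q (From p Ω) → P J q f) :
    ForAllFamilies ν K P E := by
  intro J _ b a π f ha hπ hI hcomb hf
  refine hP _ (p ^ a) f (Nat.one_lt_pow ha.ne' (Fact.out : p.Prime).one_lt)
    ⟨fun i => (hf i).1, from_one p Ω, fun s hs ρ hρ => ?_⟩
  refine exactPair_ofE (ν := ν) hπ f hf s hs ρ hρ.1 fun n c hn hrel => ?_
  exact relMap_eq_zero (hI.noSlopeRelations hπ) n hn (h J b a π hcomb ρ hρ n c hn hrel)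

/-- **The theorem on exceptional slope vectors.** -/
theorem exists_core {p : ℕ} [Fact p.Prime] {I : Type} (ν : PadicAlgCl p ≃+* ℂ)
    (K : I → Type) [∀ i, Field (K i)] [∀ i, NumberField (K i)] [∀ i, IsCMField (K i)]
    (w : I → ℕ) (hw : ∀ i, IsWeight (K i) (w i)) (Ω : Finset ℂ) :
    ∃ E : Finset (Σ i, ((K i →+* ℂ) → ℝ)), IsSmall w Ω E ∧ Core ν K Ω E := by
  choose m hm hwm using fun i => (hw i).exists_lower
  obtain ⟨E, hE, h⟩ := exists_vectorsX ν K m hm Ω
  refine ⟨E, ?_, fun J _ b a π => h J b a π⟩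
  rw [show w = fun i => 2 * m i from funext hwm]
  exact hE

open Polynomial in
/-- **The theorem on exceptional slope vectors for finite fields and for one Frobenius element**, with
the same exceptional set. -/
theorem exists_vectors_both {p : ℕ} [Fact p.Prime] {I : Type} (ν : PadicAlgCl p ≃+* ℂ)
    (K : I → Type) [∀ i, Field (K i)] [∀ i, NumberField (K i)] [∀ i, IsCMField (K i)]
    (w : I → ℕ) (hw : ∀ i, IsWeight (K i) (w i)) (Ω : Finset ℂ) :
    ∃ E : Finset (Σ i, ((K i →+* ℂ) → ℝ)), IsSmall w Ω E ∧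
      (∀ P : ∀ J : Type, ℕ → (J → ℤ[X]) → Prop,
        (∀ (J : Type) (q : ℕ) (f : J → ℤ[X]), 1 < q → NoRel f q (From p Ω) → P J q f) →
          ForAllFamilies ν K P E) ∧ SplitOutside ν K Ω E := by
  obtain ⟨E, hE, h⟩ := exists_core ν K w hw Ω
  exact ⟨E, hE, h.families, h.split⟩

/-- **The theorem on exceptional slope vectors for one Frobenius element.** -/
theorem exists_vectors_split {p : ℕ} [Fact p.Prime] {I : Type} (ν : PadicAlgCl p ≃+* ℂ)
    (K : I → Type) [∀ i, Field (K i)] [∀ i, NumberField (K i)] [∀ i, IsCMField (K i)]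
    (w : I → ℕ) (hw : ∀ i, IsWeight (K i) (w i)) (Ω : Finset ℂ) :
    ∃ E : Finset (Σ i, ((K i →+* ℂ) → ℝ)), IsSmall w Ω E ∧ SplitOutside ν K Ω E := by
  obtain ⟨E, hE, h⟩ := exists_core ν K w hw Ω
  exact ⟨E, hE, h.split⟩

end Pool.Agent.H855.CM
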