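import Mathlib
import Pool.Agent.H855.CM.AbelianDefs
import Pool.Agent.H855.CM.Split
import Pool.Graph.R_pool_sql_team_seeded_843ab51a.V1168.AB.Main

/-!
# Exceptional slope vectors for one Frobenius element of an abelian variety
-/

set_option autoImplicit false

namespace Pool.Agent.H855.CM

open NumberField Pool.Agent.V1168.AB

theorem SplitOutside.abelian {p : ℕ} [Fact p.Prime] {ν : PadicAlgCl p ≃+* ℂ} {I : Type}
    {K : I → Type} [∀ i, Field (K i)] [∀ i, NumberField (K i)] [∀ i, IsCMField (K i)]
    {Ω : Finset ℂ} {E : Finset (Σ i, ((K i →+* ℂ) → ℝ))} (h : SplitOutside ν K Ω E) :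
    AbelianOutside ν K Ω E := fun J _ b a π ha hgen hπ hI hc =>
  abelian_of_split' (h J b a π ha hgen hπ hI hc)

end Pool.Agent.H855.CM
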