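import Mathlib
import Pool.Graph.R_pool_sql_team_seeded_843ab51a.V1168.EV.Defs

/-!
# Exceptional slope vectors: definitions (short form)
-/

set_option autoImplicit false

namespace Pool.Agent.H855.CM

open NumberField Polynomial Pool.Agent.Y1.CT Pool.Agent.V1168.EV

/-- The family of the Weil numbers `π j` is independent: if `n` is a rational function with finite
support on the complex embeddings of all the fields `L j`, odd under complex conjugation, and
`∑ n (j, φ) * x j (τ φ) = 0` for all automorphisms `τ` of `ℂ`, where `x j` is the slope vector of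
`π j`, then `n = 0`. -/
def AreIndependent {p : ℕ} [Fact p.Prime] (ν : PadicAlgCl p ≃+* ℂ) (a : ℕ) {J : Type}
    {L : J → Type} [∀ j, Field (L j)] (π : ∀ j, L j) : Prop :=
  ∀ n : (Σ j, (L j →+* ℂ)) →₀ ℚ, (∀ j φ, n ⟨j, ComplexEmbedding.conjugate φ⟩ = -n ⟨j, φ⟩) →
    (∀ τ : ℂ ≃+* ℂ, n.sum (fun y c =>
      (c : ℝ) * slopeVector ν a (π y.1) ((τ : ℂ →+* ℂ).comp y.2)) = 0) → n = 0

/-- The function `v` on the complex embeddings of the field `E` is the sum of the images of the slope
vectors `x j` of the `π j` under equivariant maps: there are rational numbers `t φ (j, ψ)`, for the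
embeddings `φ` of `E` and `ψ` of `L j`, invariant under the automorphisms of `ℂ` and odd in `ψ`, with
`v φ = ∑ t φ (j, ψ) * x j ψ`. -/
def IsImage {p : ℕ} [Fact p.Prime] (ν : PadicAlgCl p ≃+* ℂ) (a : ℕ) {J : Type} [Fintype J]
    {L : J → Type} [∀ j, Field (L j)] [∀ j, NumberField (L j)] (π : ∀ j, L j)
    {E : Type} [Field E] (v : (E →+* ℂ) → ℝ) : Prop :=
  ∃ t : (E →+* ℂ) → (Σ j, (L j →+* ℂ)) → ℚ,
    (∀ (τ : ℂ ≃+* ℂ) φ y,
      t ((τ : ℂ →+* ℂ).comp φ) ⟨y.1, (τ : ℂ →+* ℂ).comp y.2⟩ = t φ y) ∧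
    (∀ φ y, t φ ⟨y.1, ComplexEmbedding.conjugate y.2⟩ = - t φ y) ∧
    ∀ φ, v φ = ∑ y, (t φ y : ℝ) * slopeVector ν a (π y.1) y.2

/-- A property `P J q f` of a prime power `q` and finite families of polynomials `f j`, `j` in `J`, holds
for all `q = p ^ a` (any `a > 0`), all finite independent families of Weil numbers `π j` for `q`, each in
one of the fields `K i`, such that no vector in `E` is the sum of the images of their slope vectors
under equivariant maps, and all monic polynomials `f j` whose complex roots are conjugates of `π j`.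
An element `⟨i, v⟩` of `E` stands for the vector `v`, a function on the complex embeddings of `K i`. -/
def ForAllOutsideVectors {p : ℕ} [Fact p.Prime] (ν : PadicAlgCl p ≃+* ℂ) {I : Type}
    (K : I → Type) [∀ i, Field (K i)] [∀ i, NumberField (K i)] [∀ i, IsCMField (K i)]
    (P : ∀ J : Type, ℕ → (J → ℤ[X]) → Prop) (E : Finset (Σ i, ((K i →+* ℂ) → ℝ))) : Prop :=
  ∀ (J : Type) [Fintype J] (b : J → I) (a : ℕ) (π : ∀ j, K (b j)) (f : J → ℤ[X]), 0 < a →
    (∀ j, π j * IsCMField.complexConj (K (b j)) (π j) = (p : K (b j)) ^ a) →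
    AreIndependent ν a π → (∀ e ∈ E, ¬ IsImage ν a π e.2) →
    (∀ j, IsPolyOf (π j) (f j)) → P J (p ^ a) f

/-- The vectors in `E` are odd and not zero, and their number is at most the number of elements of `Ω`,
and at most the number of elements of any set which contains a conjugate of each element of `Ω`. -/
def IsBounded {I : Type} {K : I → Type} [∀ i, Field (K i)] (Ω : Finset ℂ)
    (E : Finset (Σ i, ((K i →+* ℂ) → ℝ))) : Prop :=
  (∀ e ∈ E, e.2 ≠ 0 ∧ ∀ φ, e.2 (ComplexEmbedding.conjugate φ) = - e.2 φ) ∧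
    E.card ≤ Ω.card ∧
    ∀ Ω' : Finset ℂ, (∀ β ∈ Ω, ∃ τ : ℂ ≃+* ℂ, τ β ∈ Ω') → E.card ≤ Ω'.card

end Pool.Agent.H855.CM
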