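import Mathlib
import Pool.Agent.H855.CM.SlimDefs
import Pool.Agent.H855.CM.Lines

/-!
# Exceptional slope vectors: the short form of the theorem
-/

set_option autoImplicit false

namespace Pool.Agent.H855.CM

open NumberField Module Polynomial Pool.Agent.Y1.CT Pool.Agent.Y137.MV Pool.Agent.V1168.EV

variable {p : ℕ} [Fact p.Prime] {I : Type}

/-- **Exceptional slope vectors, short form.** -/
theorem exists_vectorsS (ν : PadicAlgCl p ≃+* ℂ) (K : I → Type) [∀ i, Field (K i)]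
    [∀ i, NumberField (K i)] [∀ i, IsCMField (K i)] (Ω : Finset ℂ) :
    ∃ E : Finset (Σ i, ((K i →+* ℂ) → ℝ)), IsBounded Ω E ∧
      ∀ P : ∀ J : Type, ℕ → (J → ℤ[X]) → Prop,
        (∀ (J : Type) (q : ℕ) (f : J → ℤ[X]), 1 < q → NoRel f q (From p Ω) → P J q f) →
          ForAllOutsideVectors ν K P E := by
  obtain ⟨E, hE, h⟩ := exists_vectors ν K (fun _ => 2) (fun _ => Or.inl rfl) Ω
  refine ⟨E, ⟨hE.1, hE.2.1, hE.2.2.1⟩, fun P hP J _ b a π f ha hπ hI hcomb hf => ?_⟩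
  refine h P hP J b a π f ha hπ (Or.inl hI) (fun e he hc => hcomb e he ?_) hf
  obtain ⟨t, h1, h2, -, h4⟩ := hc
  exact ⟨t, h1, h2, h4⟩

end Pool.Agent.H855.CM
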